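import Pool.Agent.GTT.Defs

/-!
# GTT-Arith: the integer `R4` (Mathlib only)

`R4_zero`: from `(p₀+p₁) p₂ p₃ = (p₂+p₃) p₀ p₁` the prime `p₀` is one of `p₂`, `p₃`.
`R4_few`: `0 < |R4| < 16 Q³`, so fewer than four distinct primes `≥ Q ≥ 16` divide it.
-/

namespace Pool.Agent.GTT

private theorem r4_zero_aux (a b c d : ℕ) (ha : a.Prime) (hb : b.Prime) (hc : c.Prime)
    (hd : d.Prime) (ha2 : 2 < a) (h : (a + b) * (c * d) = (c + d) * (a * b)) :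
    a = c ∨ a = d := by
  have hac : a ∣ c → a = c := fun h1 => (Nat.prime_dvd_prime_iff_eq ha hc).1 h1
  have had : a ∣ d → a = d := fun h1 => (Nat.prime_dvd_prime_iff_eq ha hd).1 h1
  have h1 : a ∣ (a + b) * (c * d) := by
    rw [h]; exact Dvd.dvd.mul_left (Dvd.intro b rfl) _
  rcases (Nat.Prime.dvd_mul ha).1 h1 with h2 | h2
  · have h3 : a ∣ b := (Nat.dvd_add_right (dvd_refl a)).1 h2
    have h4 : a = b := (Nat.prime_dvd_prime_iff_eq ha hb).1 h3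
    rw [← h4] at h
    have h5 : 2 * (c * d) = (c + d) * a := by
      have : a * (2 * (c * d)) = a * ((c + d) * a) := by linear_combination h
      exact Nat.eq_of_mul_eq_mul_left ha.pos this
    have h6 : a ∣ 2 * (c * d) := by rw [h5]; exact Dvd.intro_left _ rfl
    rcases (Nat.Prime.dvd_mul ha).1 h6 with h7 | h7
    · have := Nat.le_of_dvd (by norm_num) h7
      omega
    · rcases (Nat.Prime.dvd_mul ha).1 h7 with h8 | h8
      · exact Or.inl (hac h8)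
      · exact Or.inr (had h8)
  · rcases (Nat.Prime.dvd_mul ha).1 h2 with h8 | h8
    · exact Or.inl (hac h8)
    · exact Or.inr (had h8)

theorem R4_zero (p : Fin 4 → ℕ) (hp : ∀ i, (p i).Prime ∧ 2 < p i) (h : R4 p = 0) :
    (p 0 = p 2 ∧ p 1 = p 3) ∨ (p 0 = p 3 ∧ p 1 = p 2) := by
  have h0 : (p 0 + p 1) * (p 2 * p 3) = (p 2 + p 3) * (p 0 * p 1) := by
    have : ((p 0 : ℤ) + p 1) * (p 2 * p 3) = ((p 2 : ℤ) + p 3) * (p 0 * p 1) := by
      unfold R4 at h; linarith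
    exact_mod_cast this
  have hpos : 0 < p 0 := (hp 0).1.pos
  rcases r4_zero_aux _ _ _ _ (hp 0).1 (hp 1).1 (hp 2).1 (hp 3).1 (hp 0).2 h0 with h1 | h1
  · left
    refine ⟨h1, ?_⟩
    rw [← h1] at h0
    have h2 : (p 0 * p 0) * p 1 = (p 0 * p 0) * p 3 := by
      nlinarith [h0]
    exact Nat.eq_of_mul_eq_mul_left (Nat.mul_pos hpos hpos) h2
  · right
    refine ⟨h1, ?_⟩
    rw [← h1] at h0
    have h2 : (p 0 * p 0) * p 1 = (p 0 * p 0) * p 2 := by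
      nlinarith [h0]
    exact Nat.eq_of_mul_eq_mul_left (Nat.mul_pos hpos hpos) h2

private theorem r4_lt (Q a b c d : ℕ) (ha : a < 2 * Q) (hb : b < 2 * Q) (hc : c < 2 * Q)
    (hd : d < 2 * Q) (hQ : 0 < Q) : (a + b) * (c * d) < 16 * Q ^ 3 := by
  have h1 : c * d ≤ (2 * Q) * (2 * Q) := Nat.mul_le_mul hc.le hd.le
  have h2 : a + b < 4 * Q := by omega
  calc (a + b) * (c * d) ≤ (a + b) * ((2 * Q) * (2 * Q)) := Nat.mul_le_mul_left _ h1
    _ < (4 * Q) * ((2 * Q) * (2 * Q)) := Nat.mul_lt_mul_of_pos_right h2 (by positivity)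
    _ = 16 * Q ^ 3 := by ring

theorem R4_few (Q : ℕ) (hQ : 16 ≤ Q) (P : Finset ℕ) (hP : ∀ q ∈ P, q.Prime ∧ Q ≤ q)
    (p : Fin 4 → ℕ) (hp : ∀ i, Q ≤ p i ∧ p i < 2 * Q) (h : R4 p ≠ 0) :
    (P.filter (fun q : ℕ => ((q : ℕ) : ℤ) ∣ R4 p)).card ≤ 3 := by
  by_contra hcon
  have hcard : 4 ≤ (P.filter (fun q : ℕ => ((q : ℕ) : ℤ) ∣ R4 p)).card := by omega
  obtain ⟨T, hT, hT4⟩ := Finset.exists_subset_card_eq hcard
  have hTp : ∀ q ∈ T, q.Prime ∧ Q ≤ q ∧ ((q : ℕ) : ℤ) ∣ R4 p := by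
    intro q hq
    have h1 := Finset.mem_filter.1 (hT hq)
    exact ⟨(hP q h1.1).1, (hP q h1.1).2, h1.2⟩
  have hdvd : ∏ q ∈ T, q ∣ (R4 p).natAbs := by
    apply Finset.prod_primes_dvd
    · intro q hq; exact (hTp q hq).1.prime
    · intro q hq
      exact Int.natCast_dvd.1 (hTp q hq).2.2
  have hne : (R4 p).natAbs ≠ 0 := Int.natAbs_ne_zero.2 h
  have h1 : ∏ q ∈ T, q ≤ (R4 p).natAbs := Nat.le_of_dvd (Nat.pos_of_ne_zero hne) hdvd
  have h2 : Q ^ 4 ≤ ∏ q ∈ T, q := by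
    rw [← hT4, ← Finset.prod_const]
    exact Finset.prod_le_prod' (fun q hq => (hTp q hq).2.1)
  have h3 := r4_lt Q (p 0) (p 1) (p 2) (p 3) (hp 0).2 (hp 1).2 (hp 2).2 (hp 3).2 (by omega)
  have h4 := r4_lt Q (p 2) (p 3) (p 0) (p 1) (hp 2).2 (hp 3).2 (hp 0).2 (hp 1).2 (by omega)
  have h5 : (R4 p).natAbs < 16 * Q ^ 3 := by
    have e : R4 p = (((p 0 + p 1) * (p 2 * p 3) : ℕ) : ℤ) - (((p 2 + p 3) * (p 0 * p 1) : ℕ) : ℤ) := by
      unfold R4; push_cast; ring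
    rw [e]
    omega
  have h6 : 16 * Q ^ 3 ≤ Q ^ 4 := by
    calc 16 * Q ^ 3 ≤ Q * Q ^ 3 := Nat.mul_le_mul_right _ hQ
      _ = Q ^ 4 := by ring
  omega

end Pool.Agent.GTT
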