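import Pool.Agent.GTT.Defs

/-!
# GTT-Base: a point with many two-step neighbours (Mathlib only, finite combinatorics)

`I m` is the set of lines through the point `m` (each point has exactly `u` lines), two different
points have at most one common line, there are at most `C1 s` lines (`s` points).
`Aq I 𝒢 m₀ q` = the lines `p` through `m₀` which meet the line `q ≠ p` in another point.

With `N_p = #{m ∈ 𝒢 : p ∈ I m}` one has `∑_{m ∈ 𝒢} ∑_{p ∈ I m} N_p = ∑_p N_p² ≥ s u²/C1` (Cauchy-Schwarz), so some `m₀`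
has `∑_{p ∈ I m₀} N_p ≥ u²/C1`, and `∑_q |A_q| ≥ ∑_{p ∈ I m₀} (N_p - 1)(u - 1)`.
-/

namespace Pool.Agent.GTT

/-- lines through `m₀` that meet the line `q` in another point -/
def Aq (I : ℕ → Finset ℕ) (𝒢 : Finset ℕ) (m₀ q : ℕ) : Finset ℕ :=
  (I m₀).filter (fun p => p ≠ q ∧ ∃ m ∈ 𝒢, m ≠ m₀ ∧ p ∈ I m ∧ q ∈ I m)

/-- number of points on the line `p` -/
private def bN (I : ℕ → Finset ℕ) (𝒢 : Finset ℕ) (p : ℕ) : ℕ := (𝒢.filter fun m => p ∈ I m).card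

private theorem base_filter {I : ℕ → Finset ℕ} {P : Finset ℕ} {m : ℕ} (h : I m ⊆ P) :
    (P.filter fun p => p ∈ I m) = I m := by
  ext p
  rw [Finset.mem_filter]
  exact ⟨fun h' => h'.2, fun h' => ⟨h h', h'⟩⟩

private theorem base_sum {u : ℕ} {𝒢 P : Finset ℕ} {I : ℕ → Finset ℕ}
    (hI : ∀ m ∈ 𝒢, I m ⊆ P ∧ (I m).card = u) : ∑ p ∈ P, bN I 𝒢 p = 𝒢.card * u := by
  have h := Finset.sum_card_bipartiteAbove_eq_sum_card_bipartiteBelow (s := P) (t := 𝒢)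
    (fun p m => p ∈ I m)
  simp only [Finset.bipartiteAbove, Finset.bipartiteBelow] at h
  unfold bN
  rw [h, Finset.sum_congr rfl fun m hm => by rw [base_filter (hI m hm).1, (hI m hm).2],
    Finset.sum_const, smul_eq_mul]

private theorem base_sq {u : ℕ} {𝒢 P : Finset ℕ} {I : ℕ → Finset ℕ}
    (hI : ∀ m ∈ 𝒢, I m ⊆ P ∧ (I m).card = u) :
    ∑ m ∈ 𝒢, ∑ p ∈ I m, (bN I 𝒢 p : ℝ) = ∑ p ∈ P, (bN I 𝒢 p : ℝ) ^ 2 := by
  have h1 : ∀ m ∈ 𝒢, ∑ p ∈ I m, (bN I 𝒢 p : ℝ) = ∑ p ∈ P, if p ∈ I m then (bN I 𝒢 p : ℝ) else 0 := by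
    intro m hm
    rw [← Finset.sum_filter, base_filter (hI m hm).1]
  rw [Finset.sum_congr rfl h1, Finset.sum_comm]
  refine Finset.sum_congr rfl fun p _ => ?_
  rw [← Finset.sum_filter, Finset.sum_const, nsmul_eq_mul, sq]
  rfl

private theorem base_count {u : ℕ} {𝒢 P : Finset ℕ} {I : ℕ → Finset ℕ}
    (hI : ∀ m ∈ 𝒢, I m ⊆ P ∧ (I m).card = u)
    (hlin : ∀ m ∈ 𝒢, ∀ m' ∈ 𝒢, m ≠ m' → ((I m) ∩ (I m')).card ≤ 1) {m₀ : ℕ} (hm₀ : m₀ ∈ 𝒢)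
    {p : ℕ} (hp : p ∈ I m₀) :
    (bN I 𝒢 p - 1) * (u - 1) ≤
      (P.filter fun q => p ≠ q ∧ ∃ m ∈ 𝒢, m ≠ m₀ ∧ p ∈ I m ∧ q ∈ I m).card := by
  have h1 : ((𝒢.filter fun m => p ∈ I m).erase m₀).card = bN I 𝒢 p - 1 := by
    rw [Finset.card_erase_of_mem (Finset.mem_filter.2 ⟨hm₀, hp⟩)]
    rfl
  have h2 : (((𝒢.filter fun m => p ∈ I m).erase m₀).biUnion fun m => (I m).erase p).card =
      (bN I 𝒢 p - 1) * (u - 1) := by
    rw [Finset.card_biUnion]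
    · have h3 : ∀ m ∈ (𝒢.filter fun m => p ∈ I m).erase m₀, ((I m).erase p).card = u - 1 := by
        intro m hm
        have hm' := Finset.mem_filter.1 (Finset.mem_of_mem_erase hm)
        rw [Finset.card_erase_of_mem hm'.2, (hI m hm'.1).2]
      rw [Finset.sum_congr rfl h3, Finset.sum_const, smul_eq_mul, h1]
    · intro m hm m' hm' hne
      have ha := Finset.mem_filter.1 (Finset.mem_of_mem_erase hm)
      have hb := Finset.mem_filter.1 (Finset.mem_of_mem_erase hm')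
      rw [Function.onFun, Finset.disjoint_left]
      intro q hq hq'
      have h4 := hlin m ha.1 m' hb.1 hne
      rw [Finset.card_le_one] at h4
      have h5 := h4 q (Finset.mem_inter.2 ⟨Finset.mem_of_mem_erase hq, Finset.mem_of_mem_erase hq'⟩) p
        (Finset.mem_inter.2 ⟨ha.2, hb.2⟩)
      exact Finset.ne_of_mem_erase hq h5
  rw [← h2]
  refine Finset.card_le_card fun q hq => ?_
  obtain ⟨m, hm, hqm⟩ := Finset.mem_biUnion.1 hq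
  have ha := Finset.mem_filter.1 (Finset.mem_of_mem_erase hm)
  refine Finset.mem_filter.2 ⟨(hI m ha.1).1 (Finset.mem_of_mem_erase hqm),
    (Finset.ne_of_mem_erase hqm).symm, m, ha.1, Finset.ne_of_mem_erase hm, ha.2,
    Finset.mem_of_mem_erase hqm⟩

theorem base (u : ℕ) (C1 : ℝ) (𝒢 P : Finset ℕ) (hG : 𝒢.Nonempty) (I : ℕ → Finset ℕ)
    (hI : ∀ m ∈ 𝒢, I m ⊆ P ∧ (I m).card = u)
    (hlin : ∀ m ∈ 𝒢, ∀ m' ∈ 𝒢, m ≠ m' → ((I m) ∩ (I m')).card ≤ 1) (hC : 1 ≤ C1)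
    (hcard : (P.card : ℝ) ≤ C1 * 𝒢.card) (hu : 4 * C1 ≤ u) :
    ∃ m₀ ∈ 𝒢, (u : ℝ) ^ 3 / (4 * C1) ≤ ∑ q ∈ P, ((Aq I 𝒢 m₀ q).card : ℝ) := by
  have hC0 : 0 < C1 := by linarith
  have hs : (0 : ℝ) < 𝒢.card := by exact_mod_cast hG.card_pos
  have hu4 : (4 : ℝ) ≤ u := by linarith
  have hu0 : (0 : ℝ) < u := by linarith
  -- Cauchy-Schwarz
  have h1 : (𝒢.card : ℝ) * ((u : ℝ) ^ 2 / C1) ≤ ∑ p ∈ P, (bN I 𝒢 p : ℝ) ^ 2 := by
    have h2 : (∑ p ∈ P, (bN I 𝒢 p : ℝ)) ^ 2 ≤ P.card * ∑ p ∈ P, (bN I 𝒢 p : ℝ) ^ 2 :=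
      sq_sum_le_card_mul_sum_sq
    have h3 : ∑ p ∈ P, (bN I 𝒢 p : ℝ) = 𝒢.card * u := by
      have := base_sum hI
      exact_mod_cast this
    rw [h3] at h2
    have h4 : 0 ≤ ∑ p ∈ P, (bN I 𝒢 p : ℝ) ^ 2 := Finset.sum_nonneg fun _ _ => sq_nonneg _
    have h5 : ((𝒢.card : ℝ) * u) ^ 2 ≤ (C1 * 𝒢.card) * ∑ p ∈ P, (bN I 𝒢 p : ℝ) ^ 2 :=
      h2.trans (mul_le_mul_of_nonneg_right hcard h4)
    have h6 : (C1 * 𝒢.card) * ((𝒢.card : ℝ) * ((u : ℝ) ^ 2 / C1)) = ((𝒢.card : ℝ) * u) ^ 2 := by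
      field_simp
    rw [← h6] at h5
    exact le_of_mul_le_mul_left h5 (by positivity)
  -- the point `m₀`
  obtain ⟨m₀, hm₀, h7⟩ : ∃ m ∈ 𝒢, (u : ℝ) ^ 2 / C1 ≤ ∑ p ∈ I m, (bN I 𝒢 p : ℝ) := by
    refine Finset.exists_le_of_sum_le hG ?_
    rw [Finset.sum_const, nsmul_eq_mul, base_sq hI]
    exact h1
  refine ⟨m₀, hm₀, ?_⟩
  have h8 : ∑ q ∈ P, ((Aq I 𝒢 m₀ q).card : ℝ) =
      ∑ p ∈ I m₀, ((P.filter fun q => p ≠ q ∧ ∃ m ∈ 𝒢, m ≠ m₀ ∧ p ∈ I m ∧ q ∈ I m).card : ℝ) := by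
    have h := Finset.sum_card_bipartiteAbove_eq_sum_card_bipartiteBelow (s := P) (t := I m₀)
      (fun q p => p ≠ q ∧ ∃ m ∈ 𝒢, m ≠ m₀ ∧ p ∈ I m ∧ q ∈ I m)
    simp only [Finset.bipartiteAbove, Finset.bipartiteBelow] at h
    unfold Aq
    exact_mod_cast h
  have h9 : ∀ p ∈ I m₀, ((bN I 𝒢 p : ℝ) - 1) * ((u : ℝ) - 1) ≤
      ((P.filter fun q => p ≠ q ∧ ∃ m ∈ 𝒢, m ≠ m₀ ∧ p ∈ I m ∧ q ∈ I m).card : ℝ) := by
    intro p hp
    have h10 := base_count hI hlin hm₀ hp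
    have h11 : 1 ≤ bN I 𝒢 p := Finset.card_pos.2 ⟨m₀, Finset.mem_filter.2 ⟨hm₀, hp⟩⟩
    have h12 : 1 ≤ u := by
      have : (1 : ℝ) ≤ u := by linarith
      exact_mod_cast this
    have h13 : (((bN I 𝒢 p - 1) * (u - 1) : ℕ) : ℝ) = ((bN I 𝒢 p : ℝ) - 1) * ((u : ℝ) - 1) := by
      push_cast [Nat.cast_sub h11, Nat.cast_sub h12]
      ring
    rw [← h13]
    exact_mod_cast h10
  rw [h8]
  refine le_trans ?_ (Finset.sum_le_sum h9)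
  rw [← Finset.sum_mul, Finset.sum_sub_distrib, Finset.sum_const, (hI m₀ hm₀).2, nsmul_eq_mul, mul_one]
  have h14 : (u : ℝ) ^ 2 / (2 * C1) ≤ (∑ p ∈ I m₀, (bN I 𝒢 p : ℝ)) - u := by
    have h15 : (u : ℝ) ≤ (u : ℝ) ^ 2 / (2 * C1) := by
      rw [le_div_iff₀ (by positivity)]
      nlinarith
    have h16 : (u : ℝ) ^ 2 / C1 = (u : ℝ) ^ 2 / (2 * C1) + (u : ℝ) ^ 2 / (2 * C1) := by
      field_simp
      ring
    linarith
  have h17 : (u : ℝ) / 2 ≤ (u : ℝ) - 1 := by linarith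
  calc (u : ℝ) ^ 3 / (4 * C1) = (u : ℝ) ^ 2 / (2 * C1) * ((u : ℝ) / 2) := by
        field_simp
        ring
    _ ≤ ((∑ p ∈ I m₀, (bN I 𝒢 p : ℝ)) - u) * ((u : ℝ) - 1) :=
        mul_le_mul h14 h17 (by positivity) (le_trans (by positivity) h14)

end Pool.Agent.GTT
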