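import Pool.Agent.GTT.HallV

/-!
# GTT-Classify: highest powers

For a violation `S` every prime is attached to a member of `S` which it divides to the highest
power.  Members with at least two primes are few; the others have many prime power factors below
`k`.
-/

namespace Pool.Agent.GTT

private theorem card_aux {S B : Finset ℕ} {t : ℕ → ℕ} (hB : B ⊆ S)
    (h0 : ∀ m ∈ B, 1 ≤ t m) (h1 : ∀ m ∈ B, ∀ m' ∈ B, t m = 1 → t m' = 1 → m = m') :
    2 * B.card ≤ (∑ m ∈ S, t m) + 1 := by
  have h2 : ∑ m ∈ B, t m ≤ ∑ m ∈ S, t m := Finset.sum_le_sum_of_subset hB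
  have h3 : (B.filter (fun m => t m = 1)).card ≤ 1 := by
    rw [Finset.card_le_one]
    intro a ha b hb
    rw [Finset.mem_filter] at ha hb
    exact h1 a ha.1 b hb.1 ha.2 hb.2
  have h4 : ∑ m ∈ B, (if t m = 1 then 1 else 0) = (B.filter (fun m => t m = 1)).card := by
    rw [Finset.card_filter]
  have h5 : ∑ m ∈ B, 2 ≤ ∑ m ∈ B, (t m + if t m = 1 then 1 else 0) := by
    refine Finset.sum_le_sum fun m hm => ?_
    have := h0 m hm
    split_ifs with h
    · omega
    · omega
  rw [Finset.sum_add_distrib, h4, Finset.sum_const, smul_eq_mul] at h5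
  omega

theorem classify (n k : ℕ) (hn : 2 ≤ n) (S : Finset ℕ) (h : Viol n k S) (Θ : ℝ) (hΘ : Θ ≤ n)
    (hone : ∀ p q v w c₁ c₂ : ℕ, p.Prime → q.Prime → p ≠ q → p < k → q < k →
      c₁ * p ^ v ∈ S → c₂ * q ^ w ∈ S → (c₁ : ℝ) < Θ → (c₂ : ℝ) < Θ → False) :
    ∃ G ⊆ S, G.Nonempty ∧ (pf S).card < 2 * G.card ∧
      ∀ m ∈ G, ∃ T ⊆ m.primeFactors, Θ ≤ (k : ℝ) ^ T.card := by
  classical
  have hS := h.1
  have hne := h.2.1
  have hcard := h.2.2.1
  have hlt := viol_lt n k S h
  have hbd : ∀ m ∈ S, n ≤ m ∧ m < n + k := fun m hm => Finset.mem_Ico.mp (hS hm)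
  have hex : ∀ p : ℕ, ∃ m ∈ S, ∀ m' ∈ S, m'.factorization p ≤ m.factorization p := fun p =>
    Finset.exists_max_image S (fun m => m.factorization p) hne
  choose mx hmx hmax using hex
  have hdvd : ∀ p ∈ pf S, p.Prime ∧ p ∣ mx p := by
    intro p hp
    obtain ⟨m, hm, hpm⟩ := Finset.mem_biUnion.mp hp
    have hpp := Nat.prime_of_mem_primeFactors hpm
    have h1 : 0 < m.factorization p :=
      hpp.factorization_pos_of_dvd (by have := (hbd m hm).1; omega)
        (Nat.dvd_of_mem_primeFactors hpm)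
    have h2 : (mx p).factorization p ≠ 0 := by
      have := hmax p m hm
      omega
    exact ⟨hpp, Nat.dvd_of_factorization_pos h2⟩
  set T : ℕ → Finset ℕ := fun m => (pf S).filter (fun p => mx p = m) with hT
  have hTsub : ∀ m ∈ S, T m ⊆ m.primeFactors := by
    intro m hm p hp
    rw [hT, Finset.mem_filter] at hp
    obtain ⟨h1, h2⟩ := hdvd p hp.1
    rw [hp.2] at h2
    have := (hbd m hm).1
    exact Nat.mem_primeFactors.mpr ⟨h1, h2, by omega⟩
  have hsum : (pf S).card = ∑ m ∈ S, (T m).card :=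
    Finset.card_eq_sum_card_fiberwise (fun p _ => hmx p)
  set U : ℕ → Finset ℕ := fun m => m.primeFactors \ T m with hU
  set c : ℕ → ℕ := fun m => ∏ p ∈ U m, p ^ m.factorization p with hc
  have hpw : ∀ m ∈ S, ∀ p ∈ U m, p ^ m.factorization p ≤ k := by
    intro m hm p hp
    rw [hU, Finset.mem_sdiff] at hp
    have h1 : p ∈ pf S := Finset.mem_biUnion.mpr ⟨m, hm, hp.1⟩
    have h2 : mx p ≠ m := by
      intro h3
      exact hp.2 (Finset.mem_filter.mpr ⟨h1, h3⟩)
    have d1 : p ^ m.factorization p ∣ m := Nat.ordProj_dvd m p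
    have d2 : p ^ m.factorization p ∣ mx p :=
      (pow_dvd_pow p (hmax p m hm)).trans (Nat.ordProj_dvd (mx p) p)
    have k1 := hbd m hm
    have k2 := hbd (mx p) (hmx p)
    rcases lt_or_gt_of_ne h2 with hl | hl
    · have h3 := Nat.le_of_dvd (by omega) (Nat.dvd_sub d1 d2)
      omega
    · have h3 := Nat.le_of_dvd (by omega) (Nat.dvd_sub d2 d1)
      omega
  have hcle : ∀ m ∈ S, (c m : ℝ) ≤ (k : ℝ) ^ (U m).card := by
    intro m hm
    have h1 : c m ≤ k ^ (U m).card := by
      rw [hc]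
      exact Finset.prod_le_pow_card _ _ _ (hpw m hm)
    exact_mod_cast h1
  have hfac : ∀ m ∈ S, m = c m * ∏ p ∈ T m, p ^ m.factorization p := by
    intro m hm
    have h0 : m ≠ 0 := by have := (hbd m hm).1; omega
    have h1 := Nat.prod_factorization_pow_eq_self h0
    rw [Nat.prod_factorization_eq_prod_primeFactors] at h1
    rw [← Finset.prod_sdiff (hTsub m hm)] at h1
    exact h1.symm
  set G := S.filter (fun m => Θ ≤ (c m : ℝ)) with hG
  set B := S.filter (fun m => ¬ Θ ≤ (c m : ℝ)) with hB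
  have hGB : G.card + B.card = S.card := Finset.card_filter_add_card_filter_not _
  have hB0 : ∀ m ∈ B, 1 ≤ (T m).card := by
    intro m hm
    rw [hB, Finset.mem_filter] at hm
    by_contra hcon
    have h1 : T m = ∅ := by
      rw [← Finset.card_eq_zero]
      omega
    have h2 := hfac m hm.1
    rw [h1, Finset.prod_empty, mul_one] at h2
    apply hm.2
    rw [← h2]
    refine hΘ.trans ?_
    exact_mod_cast (hbd m hm.1).1
  have hB1 : ∀ m ∈ B, ∀ m' ∈ B, (T m).card = 1 → (T m').card = 1 → m = m' := by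
    intro m hm m' hm' h1 h1'
    by_contra hne'
    rw [hB, Finset.mem_filter] at hm hm'
    obtain ⟨p, hp⟩ := Finset.card_eq_one.mp h1
    obtain ⟨q, hq⟩ := Finset.card_eq_one.mp h1'
    have hp' : p ∈ T m := by rw [hp]; exact Finset.mem_singleton_self p
    have hq' : q ∈ T m' := by rw [hq]; exact Finset.mem_singleton_self q
    rw [hT, Finset.mem_filter] at hp' hq'
    have f1 := hfac m hm.1
    have f2 := hfac m' hm'.1
    rw [hp, Finset.prod_singleton] at f1
    rw [hq, Finset.prod_singleton] at f2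
    refine hone p q (m.factorization p) (m'.factorization q) (c m) (c m') (hdvd p hp'.1).1
      (hdvd q hq'.1).1 ?_ (hlt p hp'.1) (hlt q hq'.1) ?_ ?_ (not_le.mp hm.2) (not_le.mp hm'.2)
    · intro hpq
      apply hne'
      rw [← hp'.2, ← hq'.2, hpq]
    · rw [← f1]
      exact hm.1
    · rw [← f2]
      exact hm'.1
  have hmain := card_aux (S := S) (B := B) (t := fun m => (T m).card)
    (Finset.filter_subset _ _) hB0 hB1
  rw [← hsum] at hmain
  have hSpos := Finset.card_pos.mpr hne
  refine ⟨G, Finset.filter_subset _ _, Finset.card_pos.mp (by omega), by omega, ?_⟩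
  intro m hm
  rw [hG, Finset.mem_filter] at hm
  exact ⟨U m, Finset.sdiff_subset, hm.2.trans (hcle m hm.1)⟩

end Pool.Agent.GTT
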