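import Mathlib

/-!
# Project GTT (MP_fced2d_nt): Grimm assignments for all blocks of length (log n)^(10/3 - o(1))

Architect helper54.  Definitions.
-/

namespace Pool.Agent.GTT

/-- The block `n, n+1, ..., n+k-1` has a Grimm assignment: pairwise distinct primes
`f i ∣ n + i`. -/
def HasAssignment (n k : ℕ) : Prop :=
  ∃ f : Fin k → ℕ, Function.Injective f ∧ ∀ i : Fin k, (f i).Prime ∧ f i ∣ n + i

/-- The set of prime factors of the members of `S`. -/
def pf (S : Finset ℕ) : Finset ℕ := S.biUnion Nat.primeFactors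

/-- A violation of Hall's condition in the block `n, ..., n+k-1` in which every prime divides at
least two members. -/
def Viol (n k : ℕ) (S : Finset ℕ) : Prop :=
  S ⊆ Finset.Ico n (n + k) ∧ S.Nonempty ∧ (pf S).card < S.card ∧
    ∀ p ∈ pf S, ∃ m ∈ S, ∃ m' ∈ S, m ≠ m' ∧ p ∣ m ∧ p ∣ m'

/-- The integer `(p₁ + p₂) p₃ p₄ - (p₃ + p₄) p₁ p₂`. -/
def R4 (p : Fin 4 → ℕ) : ℤ :=
  ((p 0 : ℤ) + p 1) * (p 2 * p 3) - ((p 2 : ℤ) + p 3) * (p 0 * p 1)

/-- Entry of the interpolation matrix: row `(a, l)`, column `(r, s)`. -/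
noncomputable def ent (α₁ α₂ : ℝ) (x a l r s : ℕ) : ℝ :=
  (((r + x * s).choose a : ℕ) : ℝ) * (α₁ ^ r * α₂ ^ s) ^ l

end Pool.Agent.GTT
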