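import Pool.Agent.GTT.Defs

/-!
# GTT-DetLow: lower bound for a nonzero interpolation determinant (Mathlib only)

Column `j` times `b₁^((L-1) rr j) * b₂^((L-1) ss j)` has integral entries, so the determinant times
the product of these numbers is a nonzero integer, of absolute value at least `1`.
-/

namespace Pool.Agent.GTT

private theorem entry_eq {L l r s : ℕ} (hl : l < L) (c a₁ b₁ a₂ b₂ : ℝ) (hb₁ : b₁ ≠ 0)
    (hb₂ : b₂ ≠ 0) :
    (b₁ ^ ((L - 1) * r) * b₂ ^ ((L - 1) * s)) * (c * ((a₁ / b₁) ^ r * (a₂ / b₂) ^ s) ^ l) =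
      c * (a₁ ^ (l * r) * b₁ ^ ((L - 1 - l) * r)) * (a₂ ^ (l * s) * b₂ ^ ((L - 1 - l) * s)) := by
  obtain ⟨m, hm⟩ : ∃ m, L - 1 = m + l := ⟨L - 1 - l, by omega⟩
  have h2 : L - 1 - l = m := by omega
  rw [h2, hm]
  have e1 : ∀ (a b : ℝ) (t : ℕ), b ≠ 0 →
      b ^ ((m + l) * t) * ((a / b) ^ t) ^ l = a ^ (l * t) * b ^ (m * t) := by
    intro a b t hb
    have h3 : (a / b) ^ (t * l) = a ^ (l * t) / b ^ (l * t) := by rw [div_pow, mul_comm t l]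
    rw [← pow_mul, h3, add_mul, pow_add]
    have h4 : b ^ (l * t) ≠ 0 := pow_ne_zero _ hb
    field_simp
  have h5 := e1 a₁ b₁ r hb₁
  have h6 := e1 a₂ b₂ s hb₂
  rw [mul_pow, ← h5, ← h6]
  ring

private theorem col_le {L R S r s : ℕ} (hr : r < R) (hs : s < S) {b₁ b₂ : ℕ} (hb₁ : 1 ≤ b₁)
    (hb₂ : 1 ≤ b₂) {H1 H2 : ℝ} (hH1 : Real.log b₁ ≤ H1) (hH2 : Real.log b₂ ≤ H2) :
    (b₁ : ℝ) ^ ((L - 1) * r) * (b₂ : ℝ) ^ ((L - 1) * s) ≤ Real.exp (L * (R * H1 + S * H2)) := by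
  have key : ∀ (b r R : ℕ) (H : ℝ), 1 ≤ b → Real.log b ≤ H → r < R →
      (b : ℝ) ^ ((L - 1) * r) ≤ Real.exp (L * (R * H)) := by
    intro b r R H hb hH hrR
    have hb' : (1 : ℝ) ≤ b := by exact_mod_cast hb
    have h1 : 0 ≤ Real.log b := Real.log_nonneg hb'
    have h2 : (b : ℝ) = Real.exp (Real.log b) := (Real.exp_log (by linarith)).symm
    have h3 : (b : ℝ) ^ ((L - 1) * r) = Real.exp (((L - 1) * r : ℕ) * Real.log b) := by
      conv_lhs => rw [h2]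
      rw [← Real.exp_nat_mul]
    rw [h3]
    refine Real.exp_le_exp.2 ?_
    have h4 : ((L - 1) * r : ℕ) ≤ L * R := Nat.mul_le_mul (Nat.sub_le _ _) hrR.le
    have h5 : (((L - 1) * r : ℕ) : ℝ) ≤ (L : ℝ) * R := by exact_mod_cast h4
    have h6 : (0 : ℝ) ≤ (L : ℝ) * R := by positivity
    calc (((L - 1) * r : ℕ) : ℝ) * Real.log b ≤ ((L : ℝ) * R) * H :=
          mul_le_mul h5 hH h1 h6
      _ = L * (R * H) := by ring
  have h1 := key b₁ r R H1 hb₁ hH1 hr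
  have h2 := key b₂ s S H2 hb₂ hH2 hs
  rw [mul_add, Real.exp_add]
  exact mul_le_mul h1 h2 (by positivity) (Real.exp_pos _).le

theorem det_lower (N L R S x : ℕ) (kk ll rr ss : Fin N → ℕ)
    (hl : ∀ i, ll i < L) (hr : ∀ j, rr j < R) (hs : ∀ j, ss j < S) (a₁ b₁ a₂ b₂ : ℕ)
    (ha₁ : 1 ≤ a₁) (hb₁ : 1 ≤ b₁) (ha₂ : 1 ≤ a₂) (hb₂ : 1 ≤ b₂) (H1 H2 : ℝ)
    (hH1 : Real.log b₁ ≤ H1) (hH2 : Real.log b₂ ≤ H2)
    (hne : (Matrix.of fun i j : Fin N =>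
      ent ((a₁ : ℝ) / b₁) ((a₂ : ℝ) / b₂) x (kk i) (ll i) (rr j) (ss j)).det ≠ 0) :
    Real.exp (-(N * (L * (R * H1 + S * H2)))) ≤
      |(Matrix.of fun i j : Fin N =>
        ent ((a₁ : ℝ) / b₁) ((a₂ : ℝ) / b₂) x (kk i) (ll i) (rr j) (ss j)).det| := by
  have _ := ha₁
  have _ := ha₂
  have hb₁0 : (b₁ : ℝ) ≠ 0 := by exact_mod_cast (by omega : b₁ ≠ 0)
  have hb₂0 : (b₂ : ℝ) ≠ 0 := by exact_mod_cast (by omega : b₂ ≠ 0)
  set M : Matrix (Fin N) (Fin N) ℝ := Matrix.of fun i j : Fin N =>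
    ent ((a₁ : ℝ) / b₁) ((a₂ : ℝ) / b₂) x (kk i) (ll i) (rr j) (ss j) with hM
  set D : Fin N → ℝ := fun j => (b₁ : ℝ) ^ ((L - 1) * rr j) * (b₂ : ℝ) ^ ((L - 1) * ss j) with hD
  let B : Matrix (Fin N) (Fin N) ℤ := Matrix.of fun i j =>
    (((rr j + x * ss j).choose (kk i) : ℕ) : ℤ) *
      ((a₁ : ℤ) ^ (ll i * rr j) * (b₁ : ℤ) ^ ((L - 1 - ll i) * rr j)) *
      ((a₂ : ℤ) ^ (ll i * ss j) * (b₂ : ℤ) ^ ((L - 1 - ll i) * ss j))
  have h1 : (∏ j, D j) * M.det = ((B.det : ℤ) : ℝ) := by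
    rw [← Matrix.det_mul_row, Int.cast_det]
    congr 1
    ext i j
    have h2 := entry_eq (r := rr j) (s := ss j) (hl i)
      (((rr j + x * ss j).choose (kk i) : ℕ) : ℝ) a₁ b₁ a₂ b₂ hb₁0 hb₂0
    simp only [hD, hM, Matrix.of_apply, ent, Matrix.map_apply, B]
    push_cast
    exact h2
  have hDpos : ∀ j, 0 < D j := fun j => by
    have h3 : (0 : ℝ) < b₁ := by exact_mod_cast hb₁
    have h4 : (0 : ℝ) < b₂ := by exact_mod_cast hb₂
    simp only [hD]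
    positivity
  have hprod : 0 < ∏ j, D j := Finset.prod_pos fun j _ => hDpos j
  have hB : B.det ≠ 0 := by
    intro h0
    rw [h0, Int.cast_zero] at h1
    rcases mul_eq_zero.1 h1 with h2 | h2
    · exact hprod.ne' h2
    · exact hne h2
  have h5 : (1 : ℝ) ≤ (∏ j, D j) * |M.det| := by
    have h6 : (1 : ℝ) ≤ |((B.det : ℤ) : ℝ)| := by
      rw [← Int.cast_abs]
      exact_mod_cast Int.one_le_abs hB
    rw [← h1, abs_mul, abs_of_pos hprod] at h6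
    exact h6
  have h7 : ∏ j, D j ≤ Real.exp (N * (L * (R * H1 + S * H2))) := by
    calc ∏ j, D j ≤ ∏ _j : Fin N, Real.exp (L * (R * H1 + S * H2)) :=
          Finset.prod_le_prod (fun j _ => (hDpos j).le)
            (fun j _ => col_le (hr j) (hs j) hb₁ hb₂ hH1 hH2)
      _ = Real.exp (N * (L * (R * H1 + S * H2))) := by
          rw [Finset.prod_const, Finset.card_univ, Fintype.card_fin, ← Real.exp_nat_mul]
  have h8 : (1 : ℝ) ≤ Real.exp (N * (L * (R * H1 + S * H2))) * |M.det| :=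
    h5.trans (mul_le_mul_of_nonneg_right h7 (abs_nonneg _))
  rw [Real.exp_neg]
  exact (inv_le_iff_one_le_mul₀ (Real.exp_pos _)).2 (by linarith)

end Pool.Agent.GTT
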