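import Pool.Agent.GTT.Defs

/-!
# GTT-Maj: power series of `z ↦ C(z,k) exp(ω z)` with a majorant (Mathlib only)

Induction on `k`: `C(z,k+1) (k+1) = C(z,k) (z - k)`; if `g(z) = ∑ a_m z^m` then `(z - k) g(z) = ∑ (a_{m-1} - k a_m) z^m`, and the
majorant is multiplied by at most `ρ + k`.
-/

namespace Pool.Agent.GTT

private theorem maj_shift {a : ℕ → ℝ} {x s : ℝ} (h : HasSum (fun m => a m * x ^ m) s) :
    HasSum (fun m => (if m = 0 then 0 else a (m - 1)) * x ^ m) (x * s) := by
  have h1 : HasSum (fun m => (if m + 1 = 0 then 0 else a (m + 1 - 1)) * x ^ (m + 1)) (x * s) := by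
    refine (h.mul_left x).congr_fun fun m => ?_
    rw [if_neg (Nat.succ_ne_zero m), Nat.add_sub_cancel, pow_succ]
    ring
  have h2 := HasSum.zero_add (f := fun m => (if m = 0 then 0 else a (m - 1)) * x ^ m) h1
  rw [if_pos rfl, zero_mul, zero_add] at h2
  exact h2

private theorem maj_choose (z k : ℕ) :
    ((z.choose (k + 1) : ℕ) : ℝ) = ((z : ℝ) - k) * ((z.choose k : ℕ) : ℝ) / (k + 1) := by
  have h1 := Nat.choose_succ_right_eq z k
  rw [eq_div_iff (by positivity)]
  rcases le_total k z with h | h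
  · have h2 : ((z.choose (k + 1) : ℕ) : ℝ) * ((k + 1 : ℕ) : ℝ) = ((z.choose k : ℕ) : ℝ) * ((z - k : ℕ) : ℝ) := by
      exact_mod_cast h1
    rw [Nat.cast_sub h] at h2
    push_cast at h2
    rw [h2]
    ring
  · rcases eq_or_lt_of_le h with h' | h'
    · subst h'
      rw [Nat.choose_succ_self]
      simp
    · rw [Nat.choose_eq_zero_of_lt h', Nat.choose_eq_zero_of_lt (by omega)]
      simp

private theorem maj_zero (x : ℝ) (ω : ℝ) :
    HasSum (fun m : ℕ => ω ^ m / (m.factorial : ℝ) * x ^ m) (Real.exp (ω * x)) := by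
  have h := NormedSpace.expSeries_div_hasSum_exp (ω * x)
  rw [← Real.exp_eq_exp_ℝ] at h
  refine h.congr_fun fun m => ?_
  rw [mul_pow]
  ring

theorem maj (k : ℕ) (ω : ℝ) : ∃ a : ℕ → ℝ,
    (∀ z : ℕ, HasSum (fun m => a m * (z : ℝ) ^ m) (((z.choose k : ℕ) : ℝ) * Real.exp (ω * z))) ∧
    ∀ ρ : ℝ, 0 ≤ ρ → Summable (fun m => |a m| * ρ ^ m) ∧
      ∑' m, |a m| * ρ ^ m ≤ (ρ + k) ^ k * Real.exp (|ω| * ρ) := by
  induction k with
  | zero =>
    refine ⟨fun m => ω ^ m / (m.factorial : ℝ), fun z => ?_, fun ρ hρ => ?_⟩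
    · rw [Nat.choose_zero_right, Nat.cast_one, one_mul]
      exact maj_zero z ω
    · have h1 : (fun m : ℕ => |ω ^ m / (m.factorial : ℝ)| * ρ ^ m) =
          fun m : ℕ => |ω| ^ m / (m.factorial : ℝ) * ρ ^ m := by
        funext m
        rw [abs_div, abs_pow, abs_of_nonneg (show (0 : ℝ) ≤ (m.factorial : ℝ) from Nat.cast_nonneg _)]
      have h2 := maj_zero ρ |ω|
      rw [h1]
      refine ⟨h2.summable, ?_⟩
      rw [h2.tsum_eq, pow_zero, one_mul]
  | succ k ih =>
    obtain ⟨a, ha, hρ⟩ := ih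
    refine ⟨fun m => ((if m = 0 then 0 else a (m - 1)) - k * a m) / (k + 1), fun z => ?_, fun ρ h0 => ?_⟩
    · have h1 := ((maj_shift (ha z)).sub ((ha z).mul_left (k : ℝ))).div_const ((k : ℝ) + 1)
      rw [maj_choose]
      have h2 : (((z : ℝ) * (((z.choose k : ℕ) : ℝ) * Real.exp (ω * z)) -
          (k : ℝ) * (((z.choose k : ℕ) : ℝ) * Real.exp (ω * z))) / ((k : ℝ) + 1)) =
          ((z : ℝ) - k) * ((z.choose k : ℕ) : ℝ) / (k + 1) * Real.exp (ω * z) := by ring
      rw [h2] at h1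
      refine h1.congr_fun fun m => ?_
      ring
    · obtain ⟨hs, ht⟩ := hρ ρ h0
      have hs0 : 0 ≤ ∑' m, |a m| * ρ ^ m := tsum_nonneg fun m => by positivity
      have h1 := maj_shift hs.hasSum
      have h2 := h1.add (hs.hasSum.mul_left (k : ℝ))
      have h3 : ∀ m : ℕ, |((if m = 0 then 0 else a (m - 1)) - k * a m) / (k + 1)| * ρ ^ m ≤
          (if m = 0 then 0 else |a (m - 1)|) * ρ ^ m + k * (|a m| * ρ ^ m) := by
        intro m
        have e1 : |((if m = 0 then 0 else a (m - 1)) - k * a m) / (k + 1)| ≤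
            |((if m = 0 then 0 else a (m - 1)) - k * a m)| := by
          rw [abs_div]
          refine div_le_self (abs_nonneg _) ?_
          rw [abs_of_nonneg (by positivity)]
          have : (0 : ℝ) ≤ k := Nat.cast_nonneg k
          linarith
        have e2 : |((if m = 0 then 0 else a (m - 1)) - k * a m)| ≤
            (if m = 0 then 0 else |a (m - 1)|) + k * |a m| := by
          refine (abs_sub _ _).trans ?_
          rw [abs_mul, abs_of_nonneg (show (0 : ℝ) ≤ k from Nat.cast_nonneg k)]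
          split_ifs
          · rw [abs_zero]
          · exact le_rfl
        have e3 : 0 ≤ ρ ^ m := by positivity
        calc _ ≤ ((if m = 0 then 0 else |a (m - 1)|) + k * |a m|) * ρ ^ m :=
              mul_le_mul_of_nonneg_right (e1.trans e2) e3
          _ = _ := by ring
      have h4 : Summable (fun m : ℕ => |((if m = 0 then 0 else a (m - 1)) - k * a m) / (k + 1)| * ρ ^ m) :=
        Summable.of_nonneg_of_le (fun m => by positivity) h3 h2.summable
      refine ⟨h4, ?_⟩
      have h5 := h4.tsum_le_tsum h3 h2.summable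
      rw [h2.tsum_eq] at h5
      refine h5.trans ?_
      have h6 : ρ * ∑' m, |a m| * ρ ^ m + k * ∑' m, |a m| * ρ ^ m = (ρ + k) * ∑' m, |a m| * ρ ^ m := by ring
      rw [h6]
      have hk0 : (0 : ℝ) ≤ ρ + k := by positivity
      calc (ρ + k) * ∑' m, |a m| * ρ ^ m ≤ (ρ + k) * ((ρ + k) ^ k * Real.exp (|ω| * ρ)) :=
            mul_le_mul_of_nonneg_left ht hk0
        _ = (ρ + k) ^ (k + 1) * Real.exp (|ω| * ρ) := by ring
        _ ≤ (ρ + ((k + 1 : ℕ) : ℝ)) ^ (k + 1) * Real.exp (|ω| * ρ) := by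
            refine mul_le_mul_of_nonneg_right ?_ (Real.exp_pos _).le
            refine pow_le_pow_left₀ hk0 ?_ _
            push_cast
            linarith

end Pool.Agent.GTT
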