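import Pool.Agent.GTT.IDet
import Pool.Agent.GTT.Maj

/-!
# GTT-DetUp: upper bound for the interpolation determinant

The entries are expanded in products of two power series (`maj` in `X = r + x s`, exponential series in `s Λ`,
`Λ = x log α₁ - log α₂`); `idet_bound` with the weights `m` of `X^m` and `N` of the terms with a factor `Λ`.
-/

namespace Pool.Agent.GTT

private theorem du_nat (s : Finset ℕ) : (s.card : ℝ) * (s.card - 1) / 2 ≤ ∑ x ∈ s, (x : ℝ) := by
  induction s using Finset.induction_on_max with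
  | empty => simp
  | insert a s h ih =>
    have ha : a ∉ s := fun h1 => lt_irrefl _ (h a h1)
    rw [Finset.card_insert_of_notMem ha, Finset.sum_insert ha]
    have hc : s.card ≤ a := by
      calc s.card ≤ (Finset.range a).card :=
            Finset.card_le_card (fun x hx => Finset.mem_range.2 (h x hx))
        _ = a := Finset.card_range a
    have hc' : (s.card : ℝ) ≤ a := by exact_mod_cast hc
    push_cast
    nlinarith

private theorem du_w (N : ℕ) (ν : Fin N → ℕ × ℕ) (hν : Function.Injective ν) :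
    (N : ℝ) * (N - 1) / 2 ≤ ∑ i, (if (ν i).2 = 0 then ((ν i).1 : ℝ) else N) := by
  classical
  rw [Finset.sum_ite]
  set A : Finset (Fin N) := Finset.univ.filter (fun i => (ν i).2 = 0) with hA
  have hinj : Set.InjOn (fun i => (ν i).1) (A : Set (Fin N)) := by
    intro i hi j hj hij
    have hi2 : (ν i).2 = 0 := (Finset.mem_filter.1 (Finset.mem_coe.1 hi)).2
    have hj2 : (ν j).2 = 0 := (Finset.mem_filter.1 (Finset.mem_coe.1 hj)).2
    exact hν (Prod.ext hij (hi2.trans hj2.symm))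
  have h1 : ∑ i ∈ A, ((ν i).1 : ℝ) = ∑ x ∈ A.image (fun i => (ν i).1), (x : ℝ) := by
    rw [Finset.sum_image hinj]
  have hcard : (A.image (fun i => (ν i).1)).card = A.card := Finset.card_image_of_injOn hinj
  have h2 := du_nat (A.image (fun i => (ν i).1))
  rw [hcard, ← h1] at h2
  have h3 : A.card + (Finset.univ.filter (fun i : Fin N => ¬ (ν i).2 = 0)).card = N := by
    rw [hA, Finset.card_filter_add_card_filter_not, Finset.card_univ, Fintype.card_fin]
  have h4 : (A.card : ℝ) + ((Finset.univ.filter (fun i : Fin N => ¬ (ν i).2 = 0)).card : ℝ) = N := by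
    exact_mod_cast h3
  rw [Finset.sum_const, nsmul_eq_mul]
  have h5 : (A.card : ℝ) ≤ N := by
    have : A.card ≤ N := by omega
    exact_mod_cast this
  have h6 : ((Finset.univ.filter (fun i : Fin N => ¬ (ν i).2 = 0)).card : ℝ) = N - A.card := by linarith
  rw [h6]
  nlinarith [sq_nonneg ((N : ℝ) - A.card)]

theorem det_upper (N K L R S x : ℕ) (kk ll rr ss : Fin N → ℕ) (hk : ∀ i, kk i < K)
    (hl : ∀ i, ll i < L) (hr : ∀ j, rr j < R) (hs : ∀ j, ss j < S) (α₁ α₂ : ℝ) (h1 : 0 < α₁)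
    (h2 : 0 < α₂) (H1 H2 : ℝ) (hH1 : |Real.log α₁| ≤ H1) (hH2 : |Real.log α₂| ≤ H2)
    (hΛ : (L : ℝ) * S * |x * Real.log α₁ - Real.log α₂| * Real.exp N ≤ 1) :
    |(Matrix.of fun i j : Fin N => ent α₁ α₂ x (kk i) (ll i) (rr j) (ss j)).det| ≤
      N.factorial * Real.exp (-((N : ℝ) * (N - 1) / 2)) *
        ((Real.exp 1 * (R + x * S) + K) ^ K *
          Real.exp (Real.exp 1 * L * (R * H1 + S * (H2 + 1)) + 1)) ^ N := by
  classical
  choose a ha using fun i => maj (kk i) ((ll i : ℝ) * Real.log α₁)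
  set Λ : ℝ := x * Real.log α₁ - Real.log α₂ with hΛdef
  set Z : ℝ := (R : ℝ) + x * S with hZ
  have hZ0 : 0 ≤ Z := by positivity
  set G : ℝ := ((Real.exp 1 * Z + K) ^ K * Real.exp (Real.exp 1 * L * (R * H1 + S * (H2 + 1)) + 1)) with hG
  have hexp : ∀ y : ℝ, HasSum (fun b : ℕ => y ^ b / (b.factorial : ℝ)) (Real.exp y) := by
    intro y
    rw [Real.exp_eq_exp_ℝ]
    exact NormedSpace.expSeries_div_hasSum_exp y
  have main := idet_bound (ι := ℕ × ℕ) N
    (fun i ν => a i ν.1 * ((-(ll i : ℝ) * Λ) ^ ν.2 / (ν.2.factorial : ℝ)))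
    (fun ν j => ((rr j + x * ss j : ℕ) : ℝ) ^ ν.1 * (ss j : ℝ) ^ ν.2)
    (fun ν => Z ^ ν.1 * (S : ℝ) ^ ν.2)
    (fun ν => if ν.2 = 0 then (ν.1 : ℝ) else N)
    (Matrix.of fun i j : Fin N => ent α₁ α₂ x (kk i) (ll i) (rr j) (ss j)) ?_ ?_ (fun _ => G) ?_
    ((N : ℝ) * (N - 1) / 2) (du_w N)
  · rw [Finset.prod_const, Finset.card_univ, Fintype.card_fin] at main
    exact main
  · intro i j
    have hs1 := (ha i).1 (rr j + x * ss j)
    have hs2 := hexp ((-(ll i : ℝ) * Λ) * ss j)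
    have h3 := hs1.mul hs2 (summable_mul_of_summable_norm hs1.summable.norm hs2.summable.norm)
    have h4 : (((rr j + x * ss j).choose (kk i) : ℕ) : ℝ) *
        Real.exp ((ll i : ℝ) * Real.log α₁ * ((rr j + x * ss j : ℕ) : ℝ)) *
        Real.exp ((-(ll i : ℝ) * Λ) * ss j) = (Matrix.of fun i j : Fin N =>
          ent α₁ α₂ x (kk i) (ll i) (rr j) (ss j)) i j := by
      show _ = ent α₁ α₂ x (kk i) (ll i) (rr j) (ss j)
      unfold ent
      rw [mul_assoc, ← Real.exp_add]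
      congr 1
      have e1 : α₁ ^ rr j * α₂ ^ ss j = Real.exp ((rr j : ℝ) * Real.log α₁ + (ss j : ℝ) * Real.log α₂) := by
        rw [Real.exp_add, Real.exp_nat_mul, Real.exp_nat_mul, Real.exp_log h1, Real.exp_log h2]
      rw [e1, ← Real.exp_nat_mul]
      congr 1
      rw [hΛdef]
      push_cast
      ring
    rw [← h4]
    have h5 : (fun ν : ℕ × ℕ => a i ν.1 * ((-(ll i : ℝ) * Λ) ^ ν.2 / (ν.2.factorial : ℝ)) *
        (((rr j + x * ss j : ℕ) : ℝ) ^ ν.1 * (ss j : ℝ) ^ ν.2)) =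
        fun ν : ℕ × ℕ => a i ν.1 * ((rr j + x * ss j : ℕ) : ℝ) ^ ν.1 *
          (((-(ll i : ℝ) * Λ) * ss j) ^ ν.2 / (ν.2.factorial : ℝ)) := by
      funext ν
      rw [mul_pow]
      ring
    show HasSum (fun ν : ℕ × ℕ => a i ν.1 * ((-(ll i : ℝ) * Λ) ^ ν.2 / (ν.2.factorial : ℝ)) *
        (((rr j + x * ss j : ℕ) : ℝ) ^ ν.1 * (ss j : ℝ) ^ ν.2)) _
    rw [h5]
    exact h3
  · intro ν j
    have h3 : ((rr j + x * ss j : ℕ) : ℝ) ≤ Z := by
      rw [hZ]
      push_cast
      have e1 : (rr j : ℝ) ≤ R := by exact_mod_cast (hr j).le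
      have e2 : (ss j : ℝ) ≤ S := by exact_mod_cast (hs j).le
      have e3 : (0 : ℝ) ≤ x := Nat.cast_nonneg x
      nlinarith [mul_le_mul_of_nonneg_left e2 e3]
    have h4 : (ss j : ℝ) ≤ S := by exact_mod_cast (hs j).le
    show |((rr j + x * ss j : ℕ) : ℝ) ^ ν.1 * (ss j : ℝ) ^ ν.2| ≤ Z ^ ν.1 * (S : ℝ) ^ ν.2
    rw [abs_of_nonneg (by positivity)]
    exact mul_le_mul (pow_le_pow_left₀ (Nat.cast_nonneg _) h3 _) (pow_le_pow_left₀ (Nat.cast_nonneg _) h4 _)
      (by positivity) (by positivity)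
  · intro i F
    have hL1 : (1 : ℝ) ≤ L := by
      have := hl i
      exact_mod_cast (show 1 ≤ L by omega)
    have hS1 : (1 : ℝ) ≤ S := by
      have := hs i
      exact_mod_cast (show 1 ≤ S by omega)
    have hK1 : (1 : ℝ) ≤ K := by
      have := hk i
      exact_mod_cast (show 1 ≤ K by omega)
    have hexpN : 1 ≤ Real.exp N := Real.one_le_exp (Nat.cast_nonneg N)
    have hΛ0 : 0 ≤ |Λ| := abs_nonneg _
    have hlL : (ll i : ℝ) ≤ L := by exact_mod_cast (hl i).le
    have hl0 : (0 : ℝ) ≤ ll i := Nat.cast_nonneg _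
    have hΛ1 : |Λ| ≤ 1 := by
      have e1 : (1 : ℝ) ≤ (L : ℝ) * S := by nlinarith
      have e2 : |Λ| ≤ (L : ℝ) * S * |Λ| := by nlinarith
      have e3 : (L : ℝ) * S * |Λ| ≤ (L : ℝ) * S * |Λ| * Real.exp N := by
        have : 0 ≤ (L : ℝ) * S * |Λ| := by positivity
        nlinarith
      linarith
    set y : ℝ := -(ll i : ℝ) * Λ with hy
    have hyabs : |y| = (ll i : ℝ) * |Λ| := by
      rw [hy, abs_mul, abs_neg, abs_of_nonneg hl0]
    set u : ℝ := |y| * S * Real.exp N with hu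
    have hu0 : 0 ≤ u := by positivity
    have hu1 : u ≤ 1 := by
      rw [hu, hyabs]
      calc (ll i : ℝ) * |Λ| * S * Real.exp N = (ll i : ℝ) * (|Λ| * S * Real.exp N) := by ring
        _ ≤ (L : ℝ) * (|Λ| * S * Real.exp N) := mul_le_mul_of_nonneg_right hlL (by positivity)
        _ = (L : ℝ) * S * |Λ| * Real.exp N := by ring
        _ ≤ 1 := hΛ
    set ρ : ℝ := Real.exp 1 * Z with hρ
    have hρ0 : 0 ≤ ρ := by positivity
    obtain ⟨hsum, hbd⟩ := (ha i).2 ρ hρ0
    -- termwise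
    have hterm : ∀ ν : ℕ × ℕ, |a i ν.1 * (y ^ ν.2 / (ν.2.factorial : ℝ))| * (Z ^ ν.1 * (S : ℝ) ^ ν.2) *
        Real.exp (if ν.2 = 0 then (ν.1 : ℝ) else N) ≤
        (|a i ν.1| * ρ ^ ν.1) * (u ^ ν.2 / (ν.2.factorial : ℝ)) := by
      intro ν
      have e1 : Real.exp (if ν.2 = 0 then (ν.1 : ℝ) else N) ≤ Real.exp 1 ^ ν.1 * Real.exp N ^ ν.2 := by
        rw [← Real.exp_nat_mul, ← Real.exp_nat_mul, ← Real.exp_add]
        apply Real.exp_le_exp.2
        split_ifs with h
        · rw [h]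
          simp
        · have e2 : (1 : ℝ) ≤ ν.2 := by exact_mod_cast Nat.one_le_iff_ne_zero.2 h
          have e3 : (0 : ℝ) ≤ ν.1 := Nat.cast_nonneg _
          have e4 : (0 : ℝ) ≤ N := Nat.cast_nonneg _
          nlinarith
      calc |a i ν.1 * (y ^ ν.2 / (ν.2.factorial : ℝ))| * (Z ^ ν.1 * (S : ℝ) ^ ν.2) *
            Real.exp (if ν.2 = 0 then (ν.1 : ℝ) else N)
          ≤ |a i ν.1 * (y ^ ν.2 / (ν.2.factorial : ℝ))| * (Z ^ ν.1 * (S : ℝ) ^ ν.2) *
            (Real.exp 1 ^ ν.1 * Real.exp N ^ ν.2) := mul_le_mul_of_nonneg_left e1 (by positivity)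
        _ = (|a i ν.1| * ρ ^ ν.1) * (u ^ ν.2 / (ν.2.factorial : ℝ)) := by
            rw [abs_mul, abs_div, abs_pow, Nat.abs_cast, hρ, hu, mul_pow, mul_pow, mul_pow]
            ring
    have hF : F ⊆ F.image Prod.fst ×ˢ F.image Prod.snd := Finset.subset_product
    calc ∑ ν ∈ F, |a i ν.1 * (y ^ ν.2 / (ν.2.factorial : ℝ))| * (Z ^ ν.1 * (S : ℝ) ^ ν.2) *
          Real.exp (if ν.2 = 0 then (ν.1 : ℝ) else N)
        ≤ ∑ ν ∈ F, (|a i ν.1| * ρ ^ ν.1) * (u ^ ν.2 / (ν.2.factorial : ℝ)) :=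
          Finset.sum_le_sum fun ν _ => hterm ν
      _ ≤ ∑ ν ∈ F.image Prod.fst ×ˢ F.image Prod.snd, (|a i ν.1| * ρ ^ ν.1) * (u ^ ν.2 / (ν.2.factorial : ℝ)) :=
          Finset.sum_le_sum_of_subset_of_nonneg hF fun ν _ _ => by positivity
      _ = (∑ m ∈ F.image Prod.fst, |a i m| * ρ ^ m) * ∑ b ∈ F.image Prod.snd, u ^ b / (b.factorial : ℝ) := by
          rw [Finset.sum_mul_sum, ← Finset.sum_product']
      _ ≤ ((ρ + kk i) ^ kk i * Real.exp (|(ll i : ℝ) * Real.log α₁| * ρ)) * Real.exp u := by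
          refine mul_le_mul ?_ (sum_le_hasSum _ (fun b _ => by positivity) (hexp u))
            (Finset.sum_nonneg fun b _ => by positivity) (by positivity)
          exact (hsum.sum_le_tsum _ (fun m _ => by positivity)).trans hbd
      _ ≤ ((ρ + K) ^ K * Real.exp (Real.exp 1 * L * (R * H1 + S * (H2 + 1)))) * Real.exp 1 := by
          refine mul_le_mul (mul_le_mul ?_ (Real.exp_le_exp.2 ?_) (Real.exp_pos _).le (by positivity))
            (Real.exp_le_exp.2 hu1) (Real.exp_pos _).le (by positivity)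
          · have e1 : (kk i : ℝ) ≤ K := by exact_mod_cast (hk i).le
            have e2 : ρ + kk i ≤ ρ + K := by linarith
            calc (ρ + kk i) ^ kk i ≤ (ρ + K) ^ kk i := pow_le_pow_left₀ (by positivity) e2 _
              _ ≤ (ρ + K) ^ K := pow_le_pow_right₀ (by linarith) (hk i).le
          · rw [abs_mul, abs_of_nonneg hl0, hρ]
            have e1 : |Real.log α₁| * Z ≤ R * H1 + S * (H2 + 1) := by
              have e2 : (x : ℝ) * |Real.log α₁| ≤ 1 + H2 := by
                have e3 : (x : ℝ) * Real.log α₁ = Λ + Real.log α₂ := by rw [hΛdef]; ring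
                calc (x : ℝ) * |Real.log α₁| = |(x : ℝ) * Real.log α₁| := by rw [abs_mul, Nat.abs_cast]
                  _ = |Λ + Real.log α₂| := by rw [e3]
                  _ ≤ |Λ| + |Real.log α₂| := abs_add_le _ _
                  _ ≤ 1 + H2 := by linarith
              have e4 : (R : ℝ) * |Real.log α₁| ≤ R * H1 := mul_le_mul_of_nonneg_left hH1 (Nat.cast_nonneg _)
              have e5 : (S : ℝ) * ((x : ℝ) * |Real.log α₁|) ≤ S * (1 + H2) :=
                mul_le_mul_of_nonneg_left e2 (Nat.cast_nonneg _)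
              calc |Real.log α₁| * Z = R * |Real.log α₁| + S * (x * |Real.log α₁|) := by rw [hZ]; ring
                _ ≤ R * H1 + S * (1 + H2) := add_le_add e4 e5
                _ = R * H1 + S * (H2 + 1) := by ring
            have e6 : 0 ≤ |Real.log α₁| * Z := by positivity
            calc (ll i : ℝ) * |Real.log α₁| * (Real.exp 1 * Z) =
                Real.exp 1 * (ll i * (|Real.log α₁| * Z)) := by ring
              _ ≤ Real.exp 1 * (L * (R * H1 + S * (H2 + 1))) := by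
                  refine mul_le_mul_of_nonneg_left ?_ (Real.exp_pos _).le
                  exact mul_le_mul hlL e1 e6 (Nat.cast_nonneg _)
              _ = Real.exp 1 * L * (R * H1 + S * (H2 + 1)) := by ring
      _ = G := by rw [hG, Real.exp_add, hρ]; ring


end Pool.Agent.GTT
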