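import Pool.Agent.GTT.Defs

/-!
# GTT-Dyad: dyadic pigeonhole (Mathlib only)

The function `Nat.log 2` sorts the primes dividing `m` into `D` classes, so one class contains at
least `W / D` of them; a second pigeonhole gives a class which is taken by many `m`.
-/

namespace Pool.Agent.GTT

private theorem pigeon {D : ℕ} (hD : 0 < D) (s : Finset ℕ) (f : ℕ → ℕ) (hf : ∀ x ∈ s, f x < D) :
    ∃ j < D, s.card ≤ D * (s.filter (fun x => f x = j)).card := by
  by_contra hcon
  push Not at hcon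
  have h1 : s.card = ∑ j ∈ Finset.range D, (s.filter (fun x => f x = j)).card :=
    Finset.card_eq_sum_card_fiberwise (fun x hx => Finset.mem_coe.2 (Finset.mem_range.2 (hf x hx)))
  have h2 : ∑ j ∈ Finset.range D, D * (s.filter (fun x => f x = j)).card <
      ∑ _j ∈ Finset.range D, s.card :=
    Finset.sum_lt_sum_of_nonempty (Finset.nonempty_range_iff.2 hD.ne')
      (fun j hj => hcon j (Finset.mem_range.1 hj))
  rw [← Finset.mul_sum, ← h1, Finset.sum_const, Finset.card_range, smul_eq_mul] at h2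
  exact lt_irrefl _ h2

theorem dyadic (W D : ℕ) (G P : Finset ℕ) (hG : G.Nonempty) (hW : 1 ≤ W)
    (hP : ∀ p ∈ P, 1 ≤ p ∧ p < 2 ^ D) (h : ∀ m ∈ G, W ≤ (P.filter (fun p => p ∣ m)).card) :
    ∃ j < D, ∃ G' ⊆ G, G'.Nonempty ∧ G.card ≤ D * G'.card ∧
      ∀ m ∈ G', W ≤ D * ((P.filter (fun p => 2 ^ j ≤ p ∧ p < 2 ^ (j + 1))).filter
        (fun p => p ∣ m)).card := by
  classical
  have hD : 0 < D := by
    obtain ⟨m, hm⟩ := hG
    have h1 := h m hm
    obtain ⟨p, hp⟩ := Finset.card_pos.1 (by omega : 0 < (P.filter (fun p => p ∣ m)).card)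
    obtain ⟨h2, h3⟩ := hP p (Finset.mem_filter.1 hp).1
    rcases Nat.eq_zero_or_pos D with h4 | h4
    · rw [h4, pow_zero] at h3
      omega
    · exact h4
  have hex : ∀ m, ∃ j, j < D ∧ (m ∈ G → W ≤
      D * ((P.filter (fun p => 2 ^ j ≤ p ∧ p < 2 ^ (j + 1))).filter (fun p => p ∣ m)).card) := by
    intro m
    by_cases hm : m ∈ G
    · obtain ⟨j, hj, hle⟩ := pigeon hD (P.filter (fun p => p ∣ m)) (Nat.log 2) (fun p hp => by
        obtain ⟨h2, h3⟩ := hP p (Finset.mem_filter.1 hp).1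
        exact Nat.log_lt_of_lt_pow (by omega) h3)
      refine ⟨j, hj, fun _ => (h m hm).trans (hle.trans (Nat.mul_le_mul_left _ ?_))⟩
      refine Finset.card_le_card fun p hp => ?_
      rw [Finset.mem_filter, Finset.mem_filter] at hp
      obtain ⟨⟨hp1, hp2⟩, hp3⟩ := hp
      obtain ⟨h2, h3⟩ := hP p hp1
      refine Finset.mem_filter.2 ⟨Finset.mem_filter.2 ⟨hp1, ?_, ?_⟩, hp2⟩
      · rw [← hp3]
        exact Nat.pow_log_le_self 2 (by omega)
      · rw [← hp3]
        exact Nat.lt_pow_succ_log_self (by norm_num) p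
    · exact ⟨0, hD, fun h1 => absurd h1 hm⟩
  choose f hf1 hf2 using hex
  obtain ⟨j, hj, hle⟩ := pigeon hD G f (fun x _ => hf1 x)
  refine ⟨j, hj, G.filter (fun x => f x = j), Finset.filter_subset _ _, ?_, hle, ?_⟩
  · refine Finset.card_pos.1 ?_
    rcases Nat.eq_zero_or_pos (G.filter (fun x => f x = j)).card with h1 | h1
    · rw [h1, mul_zero] at hle
      have := Finset.card_pos.2 hG
      omega
    · exact h1
  · intro m hm
    obtain ⟨hm1, hm2⟩ := Finset.mem_filter.1 hm
    have h1 := hf2 m hm1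
    rw [hm2] at h1
    exact h1

end Pool.Agent.GTT
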