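import Pool.Agent.GTT.Defs

/-!
# GTT-Energy: additive energy of a set of small integers

Cauchy-Schwarz for the number of representations `σ = x a + x b`, where `σ` runs over the integers in `[-2R, 2R]`.
-/

namespace Pool.Agent.GTT

private noncomputable def rep (A : Finset ℕ) (x : ℕ → ℤ) (σ : ℤ) : Finset (ℕ × ℕ) :=
  (A ×ˢ A).filter fun q => x q.1 + x q.2 = σ

private theorem rep_sq (A : Finset ℕ) (x : ℕ → ℤ) (σ : ℤ) :
    (rep A x σ).card ^ 2 ≤ (((Fintype.piFinset fun _ : Fin 4 => A).filter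
        (fun p => x (p 0) + x (p 1) = x (p 2) + x (p 3))).filter
        (fun p => x (p 0) + x (p 1) = σ)).card := by
  rw [sq, ← Finset.card_product]
  refine Finset.card_le_card_of_injOn
    (fun q : (ℕ × ℕ) × (ℕ × ℕ) => (![q.1.1, q.1.2, q.2.1, q.2.2] : Fin 4 → ℕ)) ?_ ?_
  · intro q hq
    obtain ⟨h1, h2⟩ := Finset.mem_product.1 (Finset.mem_coe.1 hq)
    obtain ⟨h3, h4⟩ := Finset.mem_filter.1 h1
    obtain ⟨h5, h6⟩ := Finset.mem_filter.1 h2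
    obtain ⟨h7, h8⟩ := Finset.mem_product.1 h3
    obtain ⟨h9, h10⟩ := Finset.mem_product.1 h5
    refine Finset.mem_coe.2 (Finset.mem_filter.2 ⟨Finset.mem_filter.2 ⟨?_, ?_⟩, ?_⟩)
    · rw [Fintype.mem_piFinset]
      intro i
      fin_cases i
      · exact h7
      · exact h8
      · exact h9
      · exact h10
    · show x q.1.1 + x q.1.2 = x q.2.1 + x q.2.2
      rw [h4, h6]
    · exact h4
  · intro q _ q' _ h
    have e0 : q.1.1 = q'.1.1 := congrFun h 0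
    have e1 : q.1.2 = q'.1.2 := congrFun h 1
    have e2 : q.2.1 = q'.2.1 := congrFun h 2
    have e3 : q.2.2 = q'.2.2 := congrFun h 3
    exact Prod.ext (Prod.ext e0 e1) (Prod.ext e2 e3)

theorem energy (A : Finset ℕ) (x : ℕ → ℤ) (R : ℝ) (hR : 0 ≤ R) (hx : ∀ a ∈ A, |(x a : ℝ)| ≤ R) :
    ((A.card : ℝ)) ^ 4 ≤ (4 * R + 1) *
      (((Fintype.piFinset fun _ : Fin 4 => A).filter
        (fun p => x (p 0) + x (p 1) = x (p 2) + x (p 3))).card : ℝ) := by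
  have hb : ∀ a ∈ A, ∀ b ∈ A, x a + x b ∈ Finset.Icc (-⌊2 * R⌋) ⌊2 * R⌋ := by
    intro a ha b hb
    have h1 := abs_le.1 (hx a ha)
    have h2 := abs_le.1 (hx b hb)
    rw [Finset.mem_Icc]
    constructor
    · have h3 : -(x a + x b) ≤ ⌊2 * R⌋ := by
        rw [Int.le_floor]
        push_cast
        linarith [h1.1, h2.1]
      linarith
    · rw [Int.le_floor]
      push_cast
      linarith [h1.2, h2.2]
  have hT : ((Finset.Icc (-⌊2 * R⌋) ⌊2 * R⌋).card : ℝ) ≤ 4 * R + 1 := by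
    have h0 : 0 ≤ ⌊2 * R⌋ := Int.floor_nonneg.2 (by linarith)
    have h1 : (((Finset.Icc (-⌊2 * R⌋) ⌊2 * R⌋).card : ℕ) : ℤ) = 2 * ⌊2 * R⌋ + 1 := by
      rw [Int.card_Icc, Int.toNat_of_nonneg (by linarith)]
      ring
    have h2 : ((Finset.Icc (-⌊2 * R⌋) ⌊2 * R⌋).card : ℝ) = 2 * (⌊2 * R⌋ : ℝ) + 1 := by
      exact_mod_cast h1
    have h3 := Int.floor_le (2 * R)
    rw [h2]
    linarith
  have h1 : (A ×ˢ A).card = ∑ σ ∈ Finset.Icc (-⌊2 * R⌋) ⌊2 * R⌋, (rep A x σ).card := by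
    refine Finset.card_eq_sum_card_fiberwise fun q hq => ?_
    obtain ⟨h2, h3⟩ := Finset.mem_product.1 (Finset.mem_coe.1 hq)
    exact Finset.mem_coe.2 (hb _ h2 _ h3)
  have h2 : ((Fintype.piFinset fun _ : Fin 4 => A).filter
      (fun p => x (p 0) + x (p 1) = x (p 2) + x (p 3))).card =
      ∑ σ ∈ Finset.Icc (-⌊2 * R⌋) ⌊2 * R⌋, (((Fintype.piFinset fun _ : Fin 4 => A).filter
        (fun p => x (p 0) + x (p 1) = x (p 2) + x (p 3))).filter
        (fun p => x (p 0) + x (p 1) = σ)).card := by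
    refine Finset.card_eq_sum_card_fiberwise fun p hp => ?_
    obtain ⟨h3, -⟩ := Finset.mem_filter.1 (Finset.mem_coe.1 hp)
    rw [Fintype.mem_piFinset] at h3
    exact Finset.mem_coe.2 (hb _ (h3 0) _ (h3 1))
  have h3 : ∑ σ ∈ Finset.Icc (-⌊2 * R⌋) ⌊2 * R⌋, ((rep A x σ).card : ℝ) ^ 2 ≤
      (((Fintype.piFinset fun _ : Fin 4 => A).filter
      (fun p => x (p 0) + x (p 1) = x (p 2) + x (p 3))).card : ℝ) := by
    rw [h2]
    push_cast
    refine Finset.sum_le_sum fun σ _ => ?_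
    exact_mod_cast rep_sq A x σ
  have h4 := sq_sum_le_card_mul_sum_sq (s := Finset.Icc (-⌊2 * R⌋) ⌊2 * R⌋)
    (f := fun σ => ((rep A x σ).card : ℝ))
  have h5 : (∑ σ ∈ Finset.Icc (-⌊2 * R⌋) ⌊2 * R⌋, ((rep A x σ).card : ℝ)) = (A.card : ℝ) ^ 2 := by
    rw [Finset.card_product] at h1
    have h6 : ((A.card * A.card : ℕ) : ℝ) =
        ((∑ σ ∈ Finset.Icc (-⌊2 * R⌋) ⌊2 * R⌋, (rep A x σ).card : ℕ) : ℝ) := by rw [h1]
    push_cast at h6
    rw [← h6, sq]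
  rw [h5] at h4
  calc (A.card : ℝ) ^ 4 = ((A.card : ℝ) ^ 2) ^ 2 := by ring
    _ ≤ ((Finset.Icc (-⌊2 * R⌋) ⌊2 * R⌋).card : ℝ) *
        ∑ σ ∈ Finset.Icc (-⌊2 * R⌋) ⌊2 * R⌋, ((rep A x σ).card : ℝ) ^ 2 := h4
    _ ≤ (4 * R + 1) * _ := mul_le_mul hT h3 (Finset.sum_nonneg fun σ _ => sq_nonneg _)
        (by linarith)

end Pool.Agent.GTT
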