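import Pool.Agent.GTT.Defs

/-!
# GTT-GVan: generalised Vandermonde determinants at positive points

`few_zeros`: a nonzero real polynomial with at most `t` nonzero coefficients has fewer than `t` positive roots (induction on
`t`; Rolle's theorem for `P(x) / x^n`, `n` in the support of `P`).  `gvan`: a vanishing determinant gives a nonzero polynomial with at
most `t` terms which vanishes at the `t` distinct positive numbers `y i`.
-/

namespace Pool.Agent.GTT

open Polynomial

private theorem fz_coeff (P : Polynomial ℝ) (n m : ℕ) :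
    (X * derivative P - C (n : ℝ) * P).coeff m = ((m : ℝ) - n) * P.coeff m := by
  rw [coeff_sub, coeff_C_mul]
  cases m with
  | zero =>
    rw [coeff_X_mul_zero]
    push_cast
    ring
  | succ m =>
    rw [coeff_X_mul, coeff_derivative]
    push_cast
    ring

private theorem fz_rolle (P : Polynomial ℝ) (n : ℕ) {a b : ℝ} (ha : 0 < a) (hab : a < b)
    (hPa : P.eval a = 0) (hPb : P.eval b = 0) :
    ∃ z, a < z ∧ z < b ∧ (X * derivative P - C (n : ℝ) * P).eval z = 0 := by
  have hd : ∀ x, 0 < x → HasDerivAt (fun x : ℝ => P.eval x / x ^ n)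
      ((P.derivative.eval x * x ^ n - P.eval x * ((n : ℝ) * x ^ (n - 1))) / (x ^ n) ^ 2) x := by
    intro x hx
    exact (P.hasDerivAt x).div (hasDerivAt_pow n x) (pow_ne_zero _ hx.ne')
  obtain ⟨z, hz, hz0⟩ := exists_hasDerivAt_eq_zero (f := fun x : ℝ => P.eval x / x ^ n)
    (f' := fun x => (P.derivative.eval x * x ^ n - P.eval x * ((n : ℝ) * x ^ (n - 1))) / (x ^ n) ^ 2)
    hab (fun x hx => (hd x (ha.trans_le hx.1)).continuousAt.continuousWithinAt)
    (by simp only [hPa, hPb, zero_div]) (fun x hx => hd x (ha.trans hx.1))
  have hz1 : 0 < z := ha.trans hz.1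
  refine ⟨z, hz.1, hz.2, ?_⟩
  have h1 : P.derivative.eval z * z ^ n - P.eval z * ((n : ℝ) * z ^ (n - 1)) = 0 := by
    rcases div_eq_zero_iff.mp hz0 with h | h
    · exact h
    · exact absurd h (by positivity)
  have h2 : (n : ℝ) * z ^ (n - 1) * z = n * z ^ n := by
    cases n with
    | zero => simp
    | succ n =>
      rw [Nat.add_sub_cancel]
      ring
  have h3 : z ^ n * (z * P.derivative.eval z - n * P.eval z) = 0 := by
    linear_combination z * h1 + P.eval z * h2
  rw [eval_sub, eval_mul, eval_mul, eval_X, eval_C]
  exact (mul_eq_zero.mp h3).resolve_left (pow_ne_zero _ hz1.ne')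

theorem few_zeros (t : ℕ) (P : Polynomial ℝ) (hP : P ≠ 0) (ht : P.support.card ≤ t)
    (Y : Finset ℝ) (hY : ∀ y ∈ Y, 0 < y ∧ P.eval y = 0) : Y.card < t := by
  classical
  induction t generalizing P Y with
  | zero =>
    exfalso
    apply hP
    rw [← support_eq_empty]
    exact Finset.card_eq_zero.mp (by omega)
  | succ t ih =>
    obtain ⟨n, hn⟩ := nonempty_support_iff.mpr hP
    set D := X * derivative P - C (n : ℝ) * P with hD
    have hDs : D.support ⊆ P.support.erase n := by
      intro m hm
      rw [mem_support_iff, hD, fz_coeff] at hm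
      rw [Finset.mem_erase, mem_support_iff]
      constructor
      · rintro rfl
        exact hm (by ring)
      · intro h
        exact hm (by rw [h, mul_zero])
    have hDc : D.support.card ≤ t := by
      have := Finset.card_le_card hDs
      rw [Finset.card_erase_of_mem hn] at this
      omega
    by_cases hD0 : D = 0
    · have hY0 : Y = ∅ := by
        rw [Finset.eq_empty_iff_forall_notMem]
        intro y hy
        obtain ⟨h1, h2⟩ := hY y hy
        have h3 : P = C (P.coeff n) * X ^ n := by
          ext m
          rw [coeff_C_mul, coeff_X_pow]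
          by_cases hm : m = n
          · rw [if_pos hm, mul_one, hm]
          · rw [if_neg hm, mul_zero]
            have h4 := fz_coeff P n m
            rw [← hD, hD0, coeff_zero] at h4
            have h5 : (m : ℝ) - n ≠ 0 := sub_ne_zero.mpr (by exact_mod_cast hm)
            exact (mul_eq_zero.mp h4.symm).resolve_left h5
        rw [h3, eval_mul, eval_C, eval_pow, eval_X] at h2
        rcases mul_eq_zero.mp h2 with h | h
        · exact (mem_support_iff.mp hn) h
        · exact (pow_ne_zero _ h1.ne') h
      rw [hY0, Finset.card_empty]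
      omega
    · set Z := D.roots.toFinset.filter (fun z => 0 < z) with hZ
      have h1 := ih D hD0 hDc Z (by
        intro z hz
        rw [hZ, Finset.mem_filter, Multiset.mem_toFinset, mem_roots hD0] at hz
        exact ⟨hz.2, hz.1⟩)
      have h2 : Y.card ≤ Z.card + 1 := by
        apply Finset.card_le_of_interleaved
        intro x hx y hy hxy _
        obtain ⟨hx1, hx2⟩ := hY x hx
        obtain ⟨hy1, hy2⟩ := hY y hy
        obtain ⟨z, hz1, hz2, hz3⟩ := fz_rolle P n hx1 hxy hx2 hy2
        refine ⟨z, ?_, hz1, hz2⟩
        rw [hZ, Finset.mem_filter, Multiset.mem_toFinset, mem_roots hD0]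
        exact ⟨hz3, hx1.trans hz1⟩
      omega

theorem gvan (t : ℕ) (e : Fin t → ℕ) (he : Function.Injective e) (y : Fin t → ℝ)
    (hy : Function.Injective y) (hpos : ∀ i, 0 < y i) :
    (Matrix.of fun i j : Fin t => y i ^ e j).det ≠ 0 := by
  classical
  intro h0
  obtain ⟨v, hv0, hv⟩ := Matrix.exists_mulVec_eq_zero_iff.mpr h0
  set P : Polynomial ℝ := ∑ j, C (v j) * X ^ e j with hP
  have hcoeff : ∀ j, P.coeff (e j) = v j := by
    intro j
    rw [hP, finsetSum_coeff, Finset.sum_eq_single j]
    · rw [coeff_C_mul, coeff_X_pow, if_pos rfl, mul_one]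
    · intro i _ hij
      rw [coeff_C_mul, coeff_X_pow, if_neg, mul_zero]
      intro h
      exact hij (he h.symm)
    · intro h
      exact absurd (Finset.mem_univ j) h
  have hP0 : P ≠ 0 := by
    intro h
    apply hv0
    funext j
    rw [← hcoeff j, h, coeff_zero, Pi.zero_apply]
  have hsup : P.support.card ≤ t := by
    have h1 : P.support ⊆ Finset.univ.image e := by
      intro m hm
      by_contra hc
      apply mem_support_iff.mp hm
      rw [hP, finsetSum_coeff]
      refine Finset.sum_eq_zero fun j _ => ?_
      rw [coeff_C_mul, coeff_X_pow, if_neg, mul_zero]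
      rintro rfl
      exact hc (Finset.mem_image_of_mem e (Finset.mem_univ j))
    have h2 := Finset.card_le_card h1
    have h3 : (Finset.univ.image e).card ≤ t := by
      have := Finset.card_image_le (s := (Finset.univ : Finset (Fin t))) (f := e)
      simpa using this
    exact h2.trans h3
  have h4 := few_zeros t P hP0 hsup (Finset.univ.image y) (by
    intro z hz
    obtain ⟨i, _, rfl⟩ := Finset.mem_image.mp hz
    refine ⟨hpos i, ?_⟩
    have h5 := congrFun hv i
    rw [Matrix.mulVec, dotProduct, Pi.zero_apply] at h5
    rw [hP, eval_finsetSum, ← h5]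
    refine Finset.sum_congr rfl fun j _ => ?_
    rw [eval_mul, eval_C, eval_pow, eval_X, Matrix.of_apply]
    ring)
  rw [Finset.card_image_of_injective _ hy, Finset.card_univ, Fintype.card_fin] at h4
  exact lt_irrefl _ h4

end Pool.Agent.GTT
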