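import Pool.Agent.GTT.Defs

/-!
# GTT-HallV: from a missing assignment to a violation

Hall's theorem for the sets of the prime factors of the members of the block gives a set `S` of members with
fewer prime factors than members; in a minimal such set every prime divides at least two members.
-/

namespace Pool.Agent.GTT

private theorem hv_min (n k : ℕ) (S : Finset ℕ) (hS : S ⊆ Finset.Ico n (n + k))
    (hc : (pf S).card < S.card) : ∃ S, Viol n k S := by
  classical
  induction S using Finset.strongInduction with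
  | H S ih =>
    by_cases h : ∀ p ∈ pf S, ∃ m ∈ S, ∃ m' ∈ S, m ≠ m' ∧ p ∣ m ∧ p ∣ m'
    · exact ⟨S, hS, Finset.card_pos.mp (by omega), hc, h⟩
    · push Not at h
      obtain ⟨p, hp, hpS⟩ := h
      obtain ⟨m, hm, hpm⟩ := Finset.mem_biUnion.mp hp
      have hpm' := Nat.dvd_of_mem_primeFactors hpm
      have hsub : pf (S.erase m) ⊆ (pf S).erase p := by
        intro q hq
        obtain ⟨m', hm', hqm⟩ := Finset.mem_biUnion.mp hq
        obtain ⟨h1, h2⟩ := Finset.mem_erase.mp hm'
        rw [Finset.mem_erase]
        refine ⟨?_, Finset.mem_biUnion.mpr ⟨m', h2, hqm⟩⟩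
        rintro rfl
        exact hpS m hm m' h2 (Ne.symm h1) hpm' (Nat.dvd_of_mem_primeFactors hqm)
      have h1 := Finset.card_le_card hsub
      rw [Finset.card_erase_of_mem hp] at h1
      have h2 : (S.erase m).card = S.card - 1 := Finset.card_erase_of_mem hm
      have h3 : 0 < (pf S).card := Finset.card_pos.mpr ⟨p, hp⟩
      exact ih (S.erase m) (Finset.erase_ssubset hm) ((Finset.erase_subset _ _).trans hS) (by omega)

theorem exists_viol (n k : ℕ) (hn : 2 ≤ n) (h : ¬ HasAssignment n k) : ∃ S, Viol n k S := by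
  classical
  have h1 : ¬ ∀ s : Finset (Fin k),
      s.card ≤ (s.biUnion (fun i : Fin k => (n + (i : ℕ)).primeFactors)).card := by
    intro hall
    obtain ⟨f, hf1, hf2⟩ :=
      (Finset.all_card_le_biUnion_card_iff_exists_injective
        (fun i : Fin k => (n + (i : ℕ)).primeFactors)).mp hall
    exact h ⟨f, hf1, fun i => ⟨Nat.prime_of_mem_primeFactors (hf2 i),
      Nat.dvd_of_mem_primeFactors (hf2 i)⟩⟩
  push Not at h1
  obtain ⟨T, hT⟩ := h1
  refine hv_min n k (T.image (fun i : Fin k => n + (i : ℕ))) ?_ ?_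
  · intro m hm
    obtain ⟨i, _, rfl⟩ := Finset.mem_image.mp hm
    rw [Finset.mem_Ico]
    have := i.2
    omega
  · have e1 : (T.image (fun i : Fin k => n + (i : ℕ))).card = T.card := by
      apply Finset.card_image_of_injective
      intro i j hij
      simp only at hij
      exact Fin.ext (by omega)
    have e2 : pf (T.image (fun i : Fin k => n + (i : ℕ))) =
        T.biUnion (fun i : Fin k => (n + (i : ℕ)).primeFactors) := by
      unfold pf
      rw [Finset.image_biUnion]
    rw [e1, e2]
    exact hT

theorem viol_lt (n k : ℕ) (S : Finset ℕ) (h : Viol n k S) : ∀ p ∈ pf S, p < k := by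
  intro p hp
  obtain ⟨m, hm, m', hm', hne, h1, h2⟩ := h.2.2.2 p hp
  have k1 := Finset.mem_Ico.mp (h.1 hm)
  have k2 := Finset.mem_Ico.mp (h.1 hm')
  rcases lt_or_gt_of_ne hne with hlt | hlt
  · have h3 := Nat.le_of_dvd (by omega) (Nat.dvd_sub h2 h1)
    omega
  · have h3 := Nat.le_of_dvd (by omega) (Nat.dvd_sub h1 h2)
    omega

end Pool.Agent.GTT
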