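import Pool.Agent.GTT.Defs

/-!
# GTT-IDet: abstract upper bound for interpolation determinants (Mathlib only)

For finite `F` the determinant of the finite sums is expanded by multilinearity; the determinants of the values
vanish for non-injective choices and are bounded by `N! ∏ U` otherwise. Then `F → atTop`.
-/

open Filter Topology

namespace Pool.Agent.GTT

private theorem idet_expand {ι : Type*} (N : ℕ) (c : Fin N → ι → ℝ) (v : ι → Fin N → ℝ) (F : Finset ι) :
    (Matrix.of fun i j => ∑ ν ∈ F, c i ν * v ν j).det =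
      ∑ p ∈ Fintype.piFinset (fun _ : Fin N => F), (∏ i, c i (p i)) *
        (Matrix.of fun i j => v (p i) j).det := by
  classical
  rw [← Matrix.det_transpose, Matrix.det_apply']
  have h1 : ∀ p : Fin N → ι, (Matrix.of fun i j => v (p i) j).det =
      ∑ σ : Equiv.Perm (Fin N), ((Equiv.Perm.sign σ : ℤ) : ℝ) * ∏ i, v (p i) (σ i) := by
    intro p
    rw [← Matrix.det_transpose, Matrix.det_apply']
    rfl
  simp_rw [h1, Finset.mul_sum]
  rw [Finset.sum_comm]
  refine Finset.sum_congr rfl fun σ _ => ?_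
  have h2 : ∏ i, (Matrix.of fun i j => ∑ ν ∈ F, c i ν * v ν j).transpose (σ i) i =
      ∏ i, ∑ ν ∈ F, c i ν * v ν (σ i) := rfl
  rw [h2, Finset.prod_univ_sum, Finset.mul_sum]
  refine Finset.sum_congr rfl fun p _ => ?_
  rw [Finset.prod_mul_distrib]
  ring

private theorem idet_det_le {N : ℕ} (A : Matrix (Fin N) (Fin N) ℝ) (u : Fin N → ℝ)
    (h : ∀ i j, |A i j| ≤ u i) : |A.det| ≤ N.factorial * ∏ i, u i := by
  classical
  rw [← Matrix.det_transpose, Matrix.det_apply']
  refine (Finset.abs_sum_le_sum_abs _ _).trans ?_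
  have h1 : ∀ σ ∈ (Finset.univ : Finset (Equiv.Perm (Fin N))),
      |((Equiv.Perm.sign σ : ℤ) : ℝ) * ∏ i, A.transpose (σ i) i| ≤ ∏ i, u i := by
    intro σ _
    have h2 : |((Equiv.Perm.sign σ : ℤ) : ℝ)| = 1 := by
      rcases Int.units_eq_one_or (Equiv.Perm.sign σ) with h | h <;> rw [h] <;> simp
    rw [abs_mul, h2, one_mul, Finset.abs_prod]
    exact Finset.prod_le_prod (fun i _ => abs_nonneg _) fun i _ => h i (σ i)
  refine (Finset.sum_le_sum h1).trans ?_
  rw [Finset.sum_const, Finset.card_univ, Fintype.card_perm, Fintype.card_fin, nsmul_eq_mul]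

private theorem idet_fin {ι : Type*} (N : ℕ) (c : Fin N → ι → ℝ) (v : ι → Fin N → ℝ) (U w : ι → ℝ)
    (hU : ∀ ν j, |v ν j| ≤ U ν) (G : Fin N → ℝ)
    (hG : ∀ (i : Fin N) (F : Finset ι), ∑ ν ∈ F, |c i ν| * U ν * Real.exp (w ν) ≤ G i)
    (W0 : ℝ) (hw : ∀ ν : Fin N → ι, Function.Injective ν → W0 ≤ ∑ i, w (ν i)) (F : Finset ι) :
    |(Matrix.of fun i j => ∑ ν ∈ F, c i ν * v ν j).det| ≤
      N.factorial * Real.exp (-W0) * ∏ i, G i := by
  classical
  have hU0 : ∀ (_ : Fin N) (ν : ι), 0 ≤ U ν := fun i ν => (abs_nonneg _).trans (hU ν i)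
  rw [idet_expand]
  refine (Finset.abs_sum_le_sum_abs _ _).trans ?_
  have h1 : ∀ p ∈ Fintype.piFinset (fun _ : Fin N => F),
      |(∏ i, c i (p i)) * (Matrix.of fun i j => v (p i) j).det| ≤
        N.factorial * Real.exp (-W0) * ∏ i, (|c i (p i)| * U (p i) * Real.exp (w (p i))) := by
    intro p _
    have hP : 0 ≤ ∏ i, (|c i (p i)| * U (p i) * Real.exp (w (p i))) :=
      Finset.prod_nonneg fun i _ => mul_nonneg (mul_nonneg (abs_nonneg _) (hU0 i _)) (Real.exp_pos _).le
    by_cases hp : Function.Injective p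
    · have h2 := idet_det_le (Matrix.of fun i j => v (p i) j) (fun i => U (p i)) fun i j => hU (p i) j
      have h3 : (1 : ℝ) ≤ Real.exp (-W0) * ∏ i, Real.exp (w (p i)) := by
        rw [← Real.exp_sum, ← Real.exp_add]
        refine Real.one_le_exp ?_
        linarith [hw p hp]
      rw [abs_mul, Finset.abs_prod]
      have hA : 0 ≤ ∏ i, |c i (p i)| := Finset.prod_nonneg fun i _ => abs_nonneg _
      have hB : 0 ≤ (N.factorial : ℝ) * ∏ i, U (p i) :=
        mul_nonneg (Nat.cast_nonneg _) (Finset.prod_nonneg fun i _ => hU0 i _)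
      calc (∏ i, |c i (p i)|) * |(Matrix.of fun i j => v (p i) j).det|
          ≤ (∏ i, |c i (p i)|) * (N.factorial * ∏ i, U (p i)) := mul_le_mul_of_nonneg_left h2 hA
        _ ≤ (∏ i, |c i (p i)|) * (N.factorial * ∏ i, U (p i)) *
            (Real.exp (-W0) * ∏ i, Real.exp (w (p i))) :=
            le_mul_of_one_le_right (mul_nonneg hA hB) h3
        _ = _ := by
            rw [Finset.prod_mul_distrib, Finset.prod_mul_distrib]
            ring
    · have h2 : (Matrix.of fun i j => v (p i) j).det = 0 := by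
        rw [Function.Injective] at hp
        push Not at hp
        obtain ⟨i, j, hij, hne⟩ := hp
        refine Matrix.det_zero_of_row_eq hne ?_
        funext k
        show v (p i) k = v (p j) k
        rw [hij]
      rw [h2, mul_zero, abs_zero]
      exact mul_nonneg (mul_nonneg (Nat.cast_nonneg _) (Real.exp_pos _).le) hP
  refine (Finset.sum_le_sum h1).trans ?_
  rw [← Finset.mul_sum]
  refine mul_le_mul_of_nonneg_left ?_ (mul_nonneg (Nat.cast_nonneg _) (Real.exp_pos _).le)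
  have h4 : ∏ i : Fin N, ∑ ν ∈ F, |c i ν| * U ν * Real.exp (w ν) =
      ∑ p ∈ Fintype.piFinset (fun _ : Fin N => F), ∏ i, (|c i (p i)| * U (p i) * Real.exp (w (p i))) :=
    Finset.prod_univ_sum _ _
  rw [← h4]
  refine Finset.prod_le_prod (fun i _ => ?_) fun i _ => hG i F
  exact Finset.sum_nonneg fun ν _ => mul_nonneg (mul_nonneg (abs_nonneg _) (hU0 i _)) (Real.exp_pos _).le

theorem idet_bound {ι : Type*} (N : ℕ) (c : Fin N → ι → ℝ) (v : ι → Fin N → ℝ) (U w : ι → ℝ)
    (M : Matrix (Fin N) (Fin N) ℝ) (hM : ∀ i j, HasSum (fun ν => c i ν * v ν j) (M i j))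
    (hU : ∀ ν j, |v ν j| ≤ U ν) (G : Fin N → ℝ)
    (hG : ∀ (i : Fin N) (F : Finset ι), ∑ ν ∈ F, |c i ν| * U ν * Real.exp (w ν) ≤ G i)
    (W0 : ℝ) (hw : ∀ ν : Fin N → ι, Function.Injective ν → W0 ≤ ∑ i, w (ν i)) :
    |M.det| ≤ N.factorial * Real.exp (-W0) * ∏ i, G i := by
  have h1 : Tendsto (fun F : Finset ι => (Matrix.of fun i j => ∑ ν ∈ F, c i ν * v ν j : Matrix (Fin N) (Fin N) ℝ))
      atTop (𝓝 M) := by
    refine tendsto_pi_nhds.2 fun i => tendsto_pi_nhds.2 fun j => ?_
    exact hM i j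
  have h2 : Continuous fun A : Matrix (Fin N) (Fin N) ℝ => |A.det| := (continuous_id.matrix_det).abs
  have h3 := (h2.tendsto M).comp h1
  exact le_of_tendsto h3 (Eventually.of_forall fun F => idet_fin N c v U w hU G hG W0 hw F)

end Pool.Agent.GTT
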