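import Pool.Agent.GTT.Defs

/-!
# GTT-NumA: real inequality behind the incidence theorem (Mathlib only)

Split `P` into the `q` with `a q ^ 2 < 4 Y` and the others, `Y = 4 k / Q + 1`, and use the power
mean inequality for the second part.
-/

namespace Pool.Agent.GTT

theorem num_a (P : Finset ℕ) (a b : ℕ → ℝ) (k Q u C1 : ℝ) (ha : ∀ q ∈ P, 0 ≤ a q)
    (hb : ∀ q ∈ P, 0 ≤ b q) (hQ : 1 ≤ Q) (hk : 0 < k) (hC : 1 ≤ C1) (hu : 4 * C1 ≤ u)
    (hPQ : (P.card : ℝ) ≤ Q) (hR : u ≤ C1 * (k / Q + 1))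
    (h4 : ∀ q ∈ P, a q ^ 4 ≤ (4 * (k / Q) + 1) * (b q + 2 * a q ^ 2))
    (hsum : ∑ q ∈ P, b q ≤ 3 * u ^ 4) (hX : u ^ 3 / (4 * C1) ≤ ∑ q ∈ P, a q) :
    u ^ 10 ≤ 491520 * C1 ^ 6 * k ^ 3 := by
  classical
  obtain ⟨R, hRdef⟩ : ∃ R, R = k / Q := ⟨_, rfl⟩
  rw [← hRdef] at hR h4
  have hQ0 : 0 < Q := by linarith
  have hC0 : 0 < C1 := by linarith
  have hu0 : 0 < u := by linarith
  have hR0 : 0 < R := by rw [hRdef]; positivity
  have hN0 : (0 : ℝ) ≤ (P.card : ℝ) := Nat.cast_nonneg _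
  have hRN : R * (P.card : ℝ) ≤ k := by
    rw [hRdef, div_mul_eq_mul_div, div_le_iff₀ hQ0]
    exact mul_le_mul_of_nonneg_left hPQ hk.le
  have hRu : u ≤ 2 * C1 * R := by nlinarith
  have hR1 : 1 ≤ R := by nlinarith
  have hY : 4 * R + 1 ≤ 5 * R := by linarith
  have hY0 : 0 < 4 * R + 1 := by linarith
  have hsplit := Finset.sum_filter_add_sum_filter_not P (fun q => a q ^ 2 < 4 * (4 * R + 1)) a
  have hRNn : 0 ≤ R * (P.card : ℝ) := by positivity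
  rcases le_or_gt (u ^ 3 / (8 * C1))
    (∑ q ∈ P.filter (fun q => a q ^ 2 < 4 * (4 * R + 1)), a q) with h1 | h1
  · -- case (a)
    have h2 : ∑ q ∈ P.filter (fun q => a q ^ 2 < 4 * (4 * R + 1)), a q ≤
        (P.card : ℝ) * √(4 * (4 * R + 1)) := by
      have h3 : ∑ q ∈ P.filter (fun q => a q ^ 2 < 4 * (4 * R + 1)), a q ≤
          (P.filter (fun q => a q ^ 2 < 4 * (4 * R + 1))).card • √(4 * (4 * R + 1)) := by
        refine Finset.sum_le_card_nsmul _ _ _ fun q hq => ?_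
        rw [Finset.mem_filter] at hq
        exact Real.le_sqrt_of_sq_le hq.2.le
      rw [nsmul_eq_mul] at h3
      refine h3.trans (mul_le_mul_of_nonneg_right ?_ (Real.sqrt_nonneg _))
      exact_mod_cast Finset.card_filter_le _ _
    have h4' : u ^ 3 / (8 * C1) ≤ (P.card : ℝ) * √(4 * (4 * R + 1)) := h1.trans h2
    have h5 : (u ^ 3 / (8 * C1)) ^ 2 ≤ ((P.card : ℝ) * √(4 * (4 * R + 1))) ^ 2 :=
      pow_le_pow_left₀ (by positivity) h4' 2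
    rw [mul_pow, Real.sq_sqrt (by positivity), div_pow, div_le_iff₀ (by positivity)] at h5
    have h6 : u ^ 6 ≤ 1280 * C1 ^ 2 * (R * (P.card : ℝ) ^ 2) := by
      have h7 : (P.card : ℝ) ^ 2 * (4 * (4 * R + 1)) ≤ (P.card : ℝ) ^ 2 * (20 * R) :=
        mul_le_mul_of_nonneg_left (by linarith) (by positivity)
      have h8 : (P.card : ℝ) ^ 2 * (4 * (4 * R + 1)) * (8 * C1) ^ 2 ≤
          (P.card : ℝ) ^ 2 * (20 * R) * (8 * C1) ^ 2 :=
        mul_le_mul_of_nonneg_right h7 (by positivity)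
      calc u ^ 6 = (u ^ 3) ^ 2 := by ring
        _ ≤ (P.card : ℝ) ^ 2 * (20 * R) * (8 * C1) ^ 2 := h5.trans h8
        _ = 1280 * C1 ^ 2 * (R * (P.card : ℝ) ^ 2) := by ring
    have h7 : u ^ 7 ≤ 2560 * C1 ^ 3 * k ^ 2 := by
      calc u ^ 7 = u * u ^ 6 := by ring
        _ ≤ (2 * C1 * R) * (1280 * C1 ^ 2 * (R * (P.card : ℝ) ^ 2)) :=
            mul_le_mul hRu h6 (by positivity) (by positivity)
        _ = 2560 * C1 ^ 3 * (R * (P.card : ℝ)) ^ 2 := by ring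
        _ ≤ 2560 * C1 ^ 3 * k ^ 2 :=
            mul_le_mul_of_nonneg_left (pow_le_pow_left₀ hRNn hRN 2) (by positivity)
    have h8 : u ^ 21 ≤ 2560 ^ 3 * C1 ^ 9 * k ^ 6 := by
      calc u ^ 21 = (u ^ 7) ^ 3 := by ring
        _ ≤ (2560 * C1 ^ 3 * k ^ 2) ^ 3 := pow_le_pow_left₀ (by positivity) h7 3
        _ = 2560 ^ 3 * C1 ^ 9 * k ^ 6 := by ring
    have h9 : (u ^ 10) ^ 2 ≤ (491520 * C1 ^ 6 * k ^ 3) ^ 2 := by
      have hu1 : 1 ≤ u := by linarith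
      have h10 : u ^ 20 ≤ u ^ 21 := pow_le_pow_right₀ hu1 (by norm_num)
      have h11 : C1 ^ 9 ≤ C1 ^ 12 := pow_le_pow_right₀ hC (by norm_num)
      have h12 : (2560 : ℝ) ^ 3 * C1 ^ 9 * k ^ 6 ≤ 491520 ^ 2 * C1 ^ 12 * k ^ 6 := by
        refine mul_le_mul_of_nonneg_right ?_ (by positivity)
        exact mul_le_mul (by norm_num) h11 (by positivity) (by norm_num)
      calc (u ^ 10) ^ 2 = u ^ 20 := by ring
        _ ≤ 491520 ^ 2 * C1 ^ 12 * k ^ 6 := h10.trans (h8.trans h12)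
        _ = (491520 * C1 ^ 6 * k ^ 3) ^ 2 := by ring
    exact le_of_sq_le_sq h9 (by positivity)
  · -- case (b)
    have h2 : u ^ 3 / (8 * C1) ≤
        ∑ q ∈ P.filter (fun q => ¬ a q ^ 2 < 4 * (4 * R + 1)), a q := by
      have e : u ^ 3 / (4 * C1) = u ^ 3 / (8 * C1) + u ^ 3 / (8 * C1) := by
        field_simp
        norm_num
      linarith
    have h3 : ∑ q ∈ P.filter (fun q => ¬ a q ^ 2 < 4 * (4 * R + 1)), a q ^ 4 ≤
        2 * (4 * R + 1) * (3 * u ^ 4) := by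
      calc ∑ q ∈ P.filter (fun q => ¬ a q ^ 2 < 4 * (4 * R + 1)), a q ^ 4
          ≤ ∑ q ∈ P.filter (fun q => ¬ a q ^ 2 < 4 * (4 * R + 1)), 2 * (4 * R + 1) * b q := by
            refine Finset.sum_le_sum fun q hq => ?_
            rw [Finset.mem_filter, not_lt] at hq
            have h5 := h4 q hq.1
            nlinarith [mul_le_mul_of_nonneg_left hq.2 (sq_nonneg (a q))]
        _ = 2 * (4 * R + 1) *
            ∑ q ∈ P.filter (fun q => ¬ a q ^ 2 < 4 * (4 * R + 1)), b q := by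
            rw [Finset.mul_sum]
        _ ≤ 2 * (4 * R + 1) * (3 * u ^ 4) := by
            refine mul_le_mul_of_nonneg_left (le_trans ?_ hsum) (by positivity)
            exact Finset.sum_le_sum_of_subset_of_nonneg (Finset.filter_subset _ _)
              fun q hq _ => hb q hq
    have h5 : (∑ q ∈ P.filter (fun q => ¬ a q ^ 2 < 4 * (4 * R + 1)), a q) ^ 4 ≤
        (P.card : ℝ) ^ 3 * (2 * (4 * R + 1) * (3 * u ^ 4)) := by
      obtain ⟨F, hF⟩ : ∃ F, F = P.filter (fun q => ¬ a q ^ 2 < 4 * (4 * R + 1)) := ⟨_, rfl⟩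
      rw [← hF] at h3 ⊢
      have hc : (F.card : ℝ) ≤ P.card := by
        rw [hF]
        exact_mod_cast Finset.card_filter_le _ _
      have q1 : (∑ q ∈ F, a q) ^ 2 ≤ F.card * ∑ q ∈ F, a q ^ 2 := sq_sum_le_card_mul_sum_sq
      have q2 : (∑ q ∈ F, a q ^ 2) ^ 2 ≤ F.card * ∑ q ∈ F, (a q ^ 2) ^ 2 :=
        sq_sum_le_card_mul_sum_sq
      have q3 : ∑ q ∈ F, (a q ^ 2) ^ 2 = ∑ q ∈ F, a q ^ 4 :=
        Finset.sum_congr rfl fun q _ => by ring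
      rw [q3] at q2
      have hc0 : (0 : ℝ) ≤ F.card := Nat.cast_nonneg _
      have hs4 : 0 ≤ ∑ q ∈ F, a q ^ 4 := Finset.sum_nonneg fun q _ => by positivity
      calc (∑ q ∈ F, a q) ^ 4 = ((∑ q ∈ F, a q) ^ 2) ^ 2 := by ring
        _ ≤ (F.card * ∑ q ∈ F, a q ^ 2) ^ 2 := pow_le_pow_left₀ (sq_nonneg _) q1 2
        _ = (F.card : ℝ) ^ 2 * (∑ q ∈ F, a q ^ 2) ^ 2 := by ring
        _ ≤ (F.card : ℝ) ^ 2 * (F.card * ∑ q ∈ F, a q ^ 4) :=
            mul_le_mul_of_nonneg_left q2 (sq_nonneg _)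
        _ = (F.card : ℝ) ^ 3 * ∑ q ∈ F, a q ^ 4 := by ring
        _ ≤ (P.card : ℝ) ^ 3 * (2 * (4 * R + 1) * (3 * u ^ 4)) :=
            mul_le_mul (pow_le_pow_left₀ hc0 hc 3) h3 hs4 (by positivity)
    have h6 : (u ^ 3 / (8 * C1)) ^ 4 ≤ (P.card : ℝ) ^ 3 * (2 * (4 * R + 1) * (3 * u ^ 4)) :=
      (pow_le_pow_left₀ (by positivity) h2 4).trans h5
    rw [div_pow, div_le_iff₀ (by positivity)] at h6
    have h7 : u ^ 8 ≤ 122880 * C1 ^ 4 * (R * (P.card : ℝ) ^ 3) := by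
      have h8 : u ^ 4 * u ^ 8 ≤ u ^ 4 * (24576 * C1 ^ 4 * ((4 * R + 1) * (P.card : ℝ) ^ 3)) := by
        calc u ^ 4 * u ^ 8 = (u ^ 3) ^ 4 := by ring
          _ ≤ _ := h6
          _ = u ^ 4 * (24576 * C1 ^ 4 * ((4 * R + 1) * (P.card : ℝ) ^ 3)) := by ring
      have h9 := le_of_mul_le_mul_left h8 (by positivity)
      refine h9.trans ?_
      have h10 : (4 * R + 1) * (P.card : ℝ) ^ 3 ≤ 5 * R * (P.card : ℝ) ^ 3 :=
        mul_le_mul_of_nonneg_right hY (by positivity)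
      calc 24576 * C1 ^ 4 * ((4 * R + 1) * (P.card : ℝ) ^ 3)
          ≤ 24576 * C1 ^ 4 * (5 * R * (P.card : ℝ) ^ 3) :=
            mul_le_mul_of_nonneg_left h10 (by positivity)
        _ = 122880 * C1 ^ 4 * (R * (P.card : ℝ) ^ 3) := by ring
    calc u ^ 10 = u ^ 2 * u ^ 8 := by ring
      _ ≤ (2 * C1 * R) ^ 2 * (122880 * C1 ^ 4 * (R * (P.card : ℝ) ^ 3)) :=
          mul_le_mul (pow_le_pow_left₀ hu0.le hRu 2) h7 (by positivity) (by positivity)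
      _ = 491520 * C1 ^ 6 * (R * (P.card : ℝ)) ^ 3 := by ring
      _ ≤ 491520 * C1 ^ 6 * k ^ 3 :=
          mul_le_mul_of_nonneg_left (pow_le_pow_left₀ hRNn hRN 3) (by positivity)

end Pool.Agent.GTT
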