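import Pool.Agent.GTT.Arith
import Pool.Agent.GTT.Base

/-!
# GTT-Quad: few quadruples in total

The sums over the primes `q` and over the quadruples `p` are interchanged; `A_q ⊆ I m₀`, and at most three primes
`q ∈ P` divide the nonzero integer `R4 p` (`R4_few`).
-/

namespace Pool.Agent.GTT

theorem quad (Q u : ℕ) (hQ : 16 ≤ Q) (𝒢 P : Finset ℕ) (hP : ∀ q ∈ P, q.Prime ∧ Q ≤ q ∧ q < 2 * Q)
    (I : ℕ → Finset ℕ) (m₀ : ℕ) (hI : I m₀ ⊆ P ∧ (I m₀).card = u) :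
    ∑ q ∈ P, (((Fintype.piFinset fun _ : Fin 4 => Aq I 𝒢 m₀ q).filter
      (fun p => R4 p ≠ 0 ∧ (q : ℤ) ∣ R4 p)).card : ℝ) ≤ 3 * (u : ℝ) ^ 4 := by
  classical
  have hI4 : (Fintype.piFinset fun _ : Fin 4 => I m₀).card = u ^ 4 := by
    rw [Fintype.card_piFinset, Finset.prod_const, hI.2, Finset.card_univ, Fintype.card_fin]
  have hle : ∑ q ∈ P, ((Fintype.piFinset fun _ : Fin 4 => Aq I 𝒢 m₀ q).filter
      (fun p => R4 p ≠ 0 ∧ (q : ℤ) ∣ R4 p)).card ≤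
      ∑ q ∈ P, (((Fintype.piFinset fun _ : Fin 4 => I m₀).filter (fun p => R4 p ≠ 0)).filter
        (fun p => (q : ℤ) ∣ R4 p)).card := by
    refine Finset.sum_le_sum fun q _ => Finset.card_le_card fun p hp => ?_
    obtain ⟨h1, h2, h3⟩ := Finset.mem_filter.1 hp
    refine Finset.mem_filter.2 ⟨Finset.mem_filter.2 ⟨Fintype.mem_piFinset.2 fun i => ?_, h2⟩, h3⟩
    exact (Finset.mem_filter.1 (Fintype.mem_piFinset.1 h1 i)).1
  have hsw : ∑ q ∈ P, (((Fintype.piFinset fun _ : Fin 4 => I m₀).filter (fun p => R4 p ≠ 0)).filter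
        (fun p => (q : ℤ) ∣ R4 p)).card =
      ∑ p ∈ (Fintype.piFinset fun _ : Fin 4 => I m₀).filter (fun p => R4 p ≠ 0),
        (P.filter (fun q : ℕ => ((q : ℕ) : ℤ) ∣ R4 p)).card := by
    have h1 : ∀ q : ℕ, (((Fintype.piFinset fun _ : Fin 4 => I m₀).filter (fun p => R4 p ≠ 0)).filter
        (fun p => (q : ℤ) ∣ R4 p)).card =
        ∑ p ∈ (Fintype.piFinset fun _ : Fin 4 => I m₀).filter (fun p => R4 p ≠ 0),
          if (q : ℤ) ∣ R4 p then 1 else 0 := fun q => Finset.card_filter _ _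
    have h2 : ∀ p : Fin 4 → ℕ, (P.filter (fun q : ℕ => ((q : ℕ) : ℤ) ∣ R4 p)).card =
        ∑ q ∈ P, if ((q : ℕ) : ℤ) ∣ R4 p then 1 else 0 := fun p => Finset.card_filter _ _
    rw [Finset.sum_congr rfl fun q _ => h1 q, Finset.sum_congr rfl fun p _ => h2 p]
    exact Finset.sum_comm
  have hfew : ∑ p ∈ (Fintype.piFinset fun _ : Fin 4 => I m₀).filter (fun p => R4 p ≠ 0),
        (P.filter (fun q : ℕ => ((q : ℕ) : ℤ) ∣ R4 p)).card ≤ 3 * u ^ 4 := by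
    have h1 : ∀ p ∈ (Fintype.piFinset fun _ : Fin 4 => I m₀).filter (fun p => R4 p ≠ 0),
        (P.filter (fun q : ℕ => ((q : ℕ) : ℤ) ∣ R4 p)).card ≤ 3 := by
      intro p hp
      obtain ⟨h2, h3⟩ := Finset.mem_filter.1 hp
      refine R4_few Q hQ P (fun q hq => ⟨(hP q hq).1, (hP q hq).2.1⟩) p (fun i => ?_) h3
      exact (hP _ (hI.1 (Fintype.mem_piFinset.1 h2 i))).2
    calc ∑ p ∈ (Fintype.piFinset fun _ : Fin 4 => I m₀).filter (fun p => R4 p ≠ 0),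
          (P.filter (fun q : ℕ => ((q : ℕ) : ℤ) ∣ R4 p)).card
        ≤ ((Fintype.piFinset fun _ : Fin 4 => I m₀).filter (fun p => R4 p ≠ 0)).card • 3 :=
          Finset.sum_le_card_nsmul _ _ _ h1
      _ ≤ (Fintype.piFinset fun _ : Fin 4 => I m₀).card • 3 :=
          Nat.mul_le_mul_right _ (Finset.card_filter_le _ _)
      _ = 3 * u ^ 4 := by rw [hI4, smul_eq_mul, mul_comm]
  have htot := (hle.trans_eq hsw).trans hfew
  exact_mod_cast htot

end Pool.Agent.GTT
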