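import Pool.Agent.GTT.Line
import Pool.Agent.GTT.Quad
import Pool.Agent.GTT.NumA

/-!
# GTT-Inc: the incidence theorem beyond the Johnson radius

A point with many two-step neighbours (`base`), the count for every line (`line_count`), the bound for the number of
nondegenerate quadruples (`quad`) and the real inequality `num_a`.
-/

namespace Pool.Agent.GTT

/-- two points share at most one line -/
private theorem inc_lin (k Q m m' p q : ℕ) (hkQ : k ≤ Q ^ 2) (hk : |((m : ℤ) - m')| < k) (hmm : m ≠ m')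
    (hp : p.Prime) (hq : q.Prime) (hpQ : Q ≤ p) (hqQ : Q ≤ q) (h1 : p ∣ m) (h2 : p ∣ m') (h3 : q ∣ m)
    (h4 : q ∣ m') : p = q := by
  by_contra hpq
  have hco : IsCoprime (p : ℤ) (q : ℤ) := Nat.isCoprime_iff_coprime.2 ((Nat.coprime_primes hp hq).2 hpq)
  have h5 : (p : ℤ) ∣ (m : ℤ) - m' :=
    dvd_sub (Int.natCast_dvd_natCast.2 h1) (Int.natCast_dvd_natCast.2 h2)
  have h6 : (q : ℤ) ∣ (m : ℤ) - m' :=
    dvd_sub (Int.natCast_dvd_natCast.2 h3) (Int.natCast_dvd_natCast.2 h4)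
  have h7 : (p : ℤ) * q ∣ |(m : ℤ) - m'| := (dvd_abs _ _).2 (hco.mul_dvd h5 h6)
  have h8 : 0 < |(m : ℤ) - m'| := by
    rw [abs_pos, sub_ne_zero]
    exact_mod_cast hmm
  have h9 := Int.le_of_dvd h8 h7
  have h10 : Q ^ 2 ≤ p * q := by
    rw [pow_two]
    exact Nat.mul_le_mul hpQ hqQ
  have h11 : (k : ℤ) ≤ (p : ℤ) * q := by exact_mod_cast hkQ.trans h10
  linarith

/-- the multiples of `p` in a short set -/
private theorem inc_mult (k p : ℕ) (hk0 : 0 < k) (M : Finset ℕ)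
    (hk : ∀ m ∈ M, ∀ m' ∈ M, |((m : ℤ) - m')| < k) (hM : ∀ m ∈ M, p ∣ m) : M.card ≤ k / p + 1 := by
  rcases M.eq_empty_or_nonempty with rfl | hne
  · simp
  set m1 := M.min' hne with hm1
  have hm1M : m1 ∈ M := M.min'_mem hne
  have hle : ∀ m ∈ M, m1 ≤ m := fun m hm => M.min'_le m hm
  have hlt : ∀ m ∈ M, m - m1 < k := by
    intro m hm
    have h1 := hk m hm m1 hm1M
    have h2 := le_abs_self ((m : ℤ) - m1)
    have h3 := hle m hm
    omega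
  have h1 : M.card ≤ (Finset.range (k / p + 1)).card := by
    refine Finset.card_le_card_of_injOn (fun m => (m - m1) / p) (fun m hm => ?_) (fun m hm m' hm' h => ?_)
    · rw [Finset.mem_coe, Finset.mem_range]
      have := Nat.div_le_div_right (c := p) (hlt m hm).le
      show (m - m1) / p < k / p + 1
      omega
    · have d1 : p ∣ m - m1 := Nat.dvd_sub (hM m hm) (hM m1 hm1M)
      have d2 : p ∣ m' - m1 := Nat.dvd_sub (hM m' hm') (hM m1 hm1M)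
      have e1 := Nat.div_mul_cancel d1
      have e2 := Nat.div_mul_cancel d2
      have h' : (m - m1) / p = (m' - m1) / p := h
      have h3 : m - m1 = m' - m1 := by rw [← e1, ← e2, h']
      have h4 := hle m hm
      have h5 := hle m' hm'
      omega
  rwa [Finset.card_range] at h1

theorem incidence (k u Q : ℕ) (C1 : ℝ) (𝒢 P : Finset ℕ) (hG : 𝒢.Nonempty)
    (hk : ∀ m ∈ 𝒢, ∀ m' ∈ 𝒢, |((m : ℤ) - m')| < k)
    (hP : ∀ p ∈ P, p.Prime ∧ Q ≤ p ∧ p < 2 * Q) (hkQ : k ≤ Q ^ 2) (hQ : 16 ≤ Q)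
    (hu : ∀ m ∈ 𝒢, u ≤ (P.filter (fun p => p ∣ m)).card) (hC : 1 ≤ C1)
    (hcard : (P.card : ℝ) ≤ C1 * 𝒢.card) (hu4 : 4 * C1 ≤ u) :
    (u : ℝ) ^ 10 ≤ 491520 * C1 ^ 6 * (k : ℝ) ^ 3 := by
  classical
  have hI0 : ∀ m, ∃ t : Finset ℕ, m ∈ 𝒢 → t ⊆ P.filter (fun p => p ∣ m) ∧ t.card = u := by
    intro m
    by_cases hm : m ∈ 𝒢
    · obtain ⟨t, ht1, ht2⟩ := Finset.exists_subset_card_eq (hu m hm)
      exact ⟨t, fun _ => ⟨ht1, ht2⟩⟩
    · exact ⟨∅, fun h => absurd h hm⟩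
  choose I hI1 using hI0
  have hI : ∀ m ∈ 𝒢, I m ⊆ P ∧ (I m).card = u := fun m hm =>
    ⟨(hI1 m hm).1.trans (Finset.filter_subset _ _), (hI1 m hm).2⟩
  have hId : ∀ m ∈ 𝒢, ∀ p ∈ I m, p ∣ m := fun m hm p hp =>
    (Finset.mem_filter.1 ((hI1 m hm).1 hp)).2
  have hk0 : 0 < k := by
    obtain ⟨m, hm⟩ := hG
    have := hk m hm m hm
    rw [sub_self, abs_zero] at this
    exact_mod_cast this
  have hlin : ∀ m ∈ 𝒢, ∀ m' ∈ 𝒢, m ≠ m' → ((I m) ∩ (I m')).card ≤ 1 := by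
    intro m hm m' hm' hmm
    rw [Finset.card_le_one]
    intro p hp q hq
    rw [Finset.mem_inter] at hp hq
    have h1 := hP p ((hI m hm).1 hp.1)
    have h2 := hP q ((hI m hm).1 hq.1)
    exact inc_lin k Q m m' p q hkQ (hk m hm m' hm') hmm h1.1 h2.1 h1.2.1 h2.2.1
      (hId m hm p hp.1) (hId m' hm' p hp.2) (hId m hm q hq.1) (hId m' hm' q hq.2)
  obtain ⟨m₀, hm₀, hX⟩ := base u C1 𝒢 P hG I hI hlin hC hcard hu4
  have hQ0 : (0 : ℝ) < Q := by exact_mod_cast (by omega : 0 < Q)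
  -- the size of `P`
  have hPQ : (P.card : ℝ) ≤ Q := by
    have h1 : P ⊆ Finset.Ico Q (2 * Q) := fun p hp => Finset.mem_Ico.2 (hP p hp).2
    have h2 := Finset.card_le_card h1
    rw [Nat.card_Ico] at h2
    have h3 : P.card ≤ Q := by omega
    exact_mod_cast h3
  -- the size of `u`
  have hR : (u : ℝ) ≤ C1 * ((k : ℝ) / Q + 1) := by
    have h1 : 𝒢.card * u ≤ ∑ m ∈ 𝒢, (P.filter (fun p => p ∣ m)).card := by
      rw [← smul_eq_mul]
      exact Finset.card_nsmul_le_sum _ _ _ hu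
    have h2 : ∑ m ∈ 𝒢, (P.filter (fun p => p ∣ m)).card = ∑ p ∈ P, (𝒢.filter (fun m => p ∣ m)).card :=
      Finset.sum_card_bipartiteAbove_eq_sum_card_bipartiteBelow (fun m p => p ∣ m)
    have h3 : ∀ p ∈ P, ((𝒢.filter (fun m => p ∣ m)).card : ℝ) ≤ (k : ℝ) / Q + 1 := by
      intro p hp
      have h4 := inc_mult k p hk0 (𝒢.filter (fun m => p ∣ m))
        (fun m hm m' hm' => hk m (Finset.mem_filter.1 hm).1 m' (Finset.mem_filter.1 hm').1)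
        (fun m hm => (Finset.mem_filter.1 hm).2)
      have h5 : ((𝒢.filter (fun m => p ∣ m)).card : ℝ) ≤ ((k / p : ℕ) : ℝ) + 1 := by exact_mod_cast h4
      have h6 : ((k / p : ℕ) : ℝ) ≤ (k : ℝ) / p := Nat.cast_div_le
      have h7 : (k : ℝ) / p ≤ (k : ℝ) / Q :=
        div_le_div_of_nonneg_left (Nat.cast_nonneg _) hQ0 (by exact_mod_cast (hP p hp).2.1)
      linarith
    have h4 : (𝒢.card : ℝ) * u ≤ (P.card : ℝ) * ((k : ℝ) / Q + 1) := by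
      have h5 : ((𝒢.card * u : ℕ) : ℝ) ≤ ((∑ p ∈ P, (𝒢.filter (fun m => p ∣ m)).card : ℕ) : ℝ) := by
        rw [← h2]
        exact Nat.cast_le.2 h1
      rw [Nat.cast_mul, Nat.cast_sum] at h5
      refine h5.trans ?_
      have h6 := Finset.sum_le_sum h3
      rw [Finset.sum_const, nsmul_eq_mul] at h6
      exact h6
    have hs : (0 : ℝ) < 𝒢.card := by exact_mod_cast hG.card_pos
    have hnn : 0 ≤ (k : ℝ) / Q + 1 := by positivity
    have h5 : (𝒢.card : ℝ) * u ≤ 𝒢.card * (C1 * ((k : ℝ) / Q + 1)) := by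
      calc (𝒢.card : ℝ) * u ≤ (P.card : ℝ) * ((k : ℝ) / Q + 1) := h4
        _ ≤ (C1 * 𝒢.card) * ((k : ℝ) / Q + 1) := mul_le_mul_of_nonneg_right hcard hnn
        _ = _ := by ring
    exact le_of_mul_le_mul_left h5 hs
  -- the lines
  have h4 : ∀ q ∈ P, ((Aq I 𝒢 m₀ q).card : ℝ) ^ 4 ≤ (4 * ((k : ℝ) / Q) + 1) *
      ((((Fintype.piFinset fun _ : Fin 4 => Aq I 𝒢 m₀ q).filter
        (fun p => R4 p ≠ 0 ∧ (q : ℤ) ∣ R4 p)).card : ℝ) + 2 * ((Aq I 𝒢 m₀ q).card : ℝ) ^ 2) := by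
    intro q hq
    have hex : ∀ p : ℕ, ∃ m : ℕ, p ∈ Aq I 𝒢 m₀ q → m ∈ 𝒢 ∧ m ≠ m₀ ∧ p ∈ I m ∧ q ∈ I m := by
      intro p
      by_cases hp : p ∈ Aq I 𝒢 m₀ q
      · obtain ⟨-, -, m, h1, h2, h3, h4⟩ := Finset.mem_filter.1 hp
        exact ⟨m, fun _ => ⟨h1, h2, h3, h4⟩⟩
      · exact ⟨0, fun h => absurd h hp⟩
    choose m hm using hex
    refine line_count k Q q m₀ hQ hkQ ⟨(hP q hq).1, (hP q hq).2.1⟩ (Aq I 𝒢 m₀ q) (fun p hp => ?_) m
      (fun p hp => ?_)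
    · have h1 := Finset.mem_filter.1 hp
      have h2 := hP p ((hI m₀ hm₀).1 h1.1)
      exact ⟨h2.1, h2.2.1, h2.2.2, h1.2.1, hId m₀ hm₀ p h1.1⟩
    · obtain ⟨h1, h2, h3, h4⟩ := hm p hp
      exact ⟨h2, hId _ h1 p h3, hId _ h1 q h4, hk _ h1 _ hm₀⟩
  exact num_a P (fun q => ((Aq I 𝒢 m₀ q).card : ℝ))
    (fun q => (((Fintype.piFinset fun _ : Fin 4 => Aq I 𝒢 m₀ q).filter
        (fun p => R4 p ≠ 0 ∧ (q : ℤ) ∣ R4 p)).card : ℝ)) k Q u C1 (fun _ _ => Nat.cast_nonneg _)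
    (fun _ _ => Nat.cast_nonneg _) (by exact_mod_cast (by omega : 1 ≤ Q)) (by exact_mod_cast hk0) hC hu4
    hPQ hR h4 (quad Q u hQ 𝒢 P hP I m₀ (hI m₀ hm₀)) hX

end Pool.Agent.GTT
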