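import Pool.Agent.GTT.Defs

/-!
# GTT-John: the classical (Corradi / Johnson) bound

Two different points share at most four primes of `P`; the union of the sets of primes of
`min (card, u / 8)` points is then large.
-/

namespace Pool.Agent.GTT

private theorem inter_le (k y : ℕ) (P : Finset ℕ) (hP : ∀ p ∈ P, p.Prime ∧ y ≤ p)
    (hky : k ≤ y ^ 5) {m m' : ℕ} (hne : m ≠ m') (hk : |((m : ℤ) - m')| < k) :
    (P.filter (fun p => p ∣ m) ∩ P.filter (fun p => p ∣ m')).card ≤ 4 := by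
  by_contra hcon
  push Not at hcon
  obtain ⟨T, hT, hTc⟩ := Finset.exists_subset_card_eq (s := P.filter (fun p => p ∣ m) ∩
    P.filter (fun p => p ∣ m')) (n := 5) (by omega)
  have hTm : ∀ p ∈ T, p ∈ P ∧ p ∣ m ∧ p ∣ m' := by
    intro p hp
    have h1 := hT hp
    simp only [Finset.mem_inter, Finset.mem_filter] at h1
    exact ⟨h1.1.1, h1.1.2, h1.2.2⟩
  have hdvd : ((∏ p ∈ T, p : ℕ)) ∣ ((m : ℤ) - m').natAbs := by
    refine Finset.prod_primes_dvd _ (fun p hp => (hP p (hTm p hp).1).1.prime) (fun p hp => ?_)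
    have h1 : (p : ℤ) ∣ (m : ℤ) - m' :=
      dvd_sub (Int.natCast_dvd_natCast.2 (hTm p hp).2.1) (Int.natCast_dvd_natCast.2 (hTm p hp).2.2)
    exact Int.natCast_dvd.1 h1
  have hpos : 0 < ((m : ℤ) - m').natAbs := by
    apply Int.natAbs_pos.2
    intro h
    apply hne
    omega
  have hle := Nat.le_of_dvd hpos hdvd
  have hprod : y ^ 5 ≤ ∏ p ∈ T, p := by
    rw [← hTc, ← Finset.prod_const]
    exact Finset.prod_le_prod' (fun p hp => (hP p (hTm p hp).1).2)
  have habs : ((((m : ℤ) - m').natAbs : ℕ) : ℤ) = |((m : ℤ) - m')| := Int.natCast_natAbs _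
  omega

private theorem union_ge (k u y : ℕ) (𝒢 P : Finset ℕ)
    (hk : ∀ m ∈ 𝒢, ∀ m' ∈ 𝒢, |((m : ℤ) - m')| < k) (hP : ∀ p ∈ P, p.Prime ∧ y ≤ p)
    (hky : k ≤ y ^ 5) (hu : ∀ m ∈ 𝒢, u ≤ (P.filter (fun p => p ∣ m)).card) (S : Finset ℕ)
    (hS : S ⊆ 𝒢) :
    S.card * u ≤ (S.biUnion (fun m => P.filter (fun p => p ∣ m))).card + 2 * S.card ^ 2 := by
  induction S using Finset.induction_on with
  | empty => simp
  | insert a S ha ih =>
    have hS' : S ⊆ 𝒢 := fun x hx => hS (Finset.mem_insert_of_mem hx)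
    have ih' := ih hS'
    have haG : a ∈ 𝒢 := hS (Finset.mem_insert_self a S)
    rw [Finset.biUnion_insert, Finset.card_insert_of_notMem ha]
    have h1 := Finset.card_union_add_card_inter (P.filter (fun p => p ∣ a))
      (S.biUnion (fun m => P.filter (fun p => p ∣ m)))
    have h2 : (P.filter (fun p => p ∣ a) ∩ S.biUnion (fun m => P.filter (fun p => p ∣ m))).card ≤
        S.card * 4 := by
      rw [Finset.inter_biUnion]
      refine Finset.card_biUnion_le_card_mul _ _ _ (fun m hm => ?_)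
      refine inter_le k y P hP hky ?_ (hk a haG m (hS' hm))
      rintro rfl
      exact ha hm
    have h3 := hu a haG
    nlinarith

theorem johnson (k u y : ℕ) (C1 : ℝ) (𝒢 P : Finset ℕ) (hG : 𝒢.Nonempty)
    (hk : ∀ m ∈ 𝒢, ∀ m' ∈ 𝒢, |((m : ℤ) - m')| < k) (hP : ∀ p ∈ P, p.Prime ∧ y ≤ p)
    (hky : k ≤ y ^ 5) (hu : ∀ m ∈ 𝒢, u ≤ (P.filter (fun p => p ∣ m)).card)
    (hcard : (P.card : ℝ) ≤ C1 * 𝒢.card) (hu2 : 2 * C1 < u) (hu16 : 16 ≤ u) :
    u ^ 2 ≤ 32 * P.card := by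
  have hGpos : 0 < 𝒢.card := hG.card_pos
  obtain ⟨S, hS, hSc⟩ := Finset.exists_subset_card_eq (s := 𝒢) (n := min 𝒢.card (u / 8))
    (min_le_left _ _)
  have h1 := union_ge k u y 𝒢 P hk hP hky hu S hS
  have h2 : (S.biUnion (fun m => P.filter (fun p => p ∣ m))).card ≤ P.card := by
    refine Finset.card_le_card (fun p hp => ?_)
    simp only [Finset.mem_biUnion, Finset.mem_filter] at hp
    obtain ⟨m, -, hp, -⟩ := hp
    exact hp
  have h3 : S.card * 8 ≤ u := by
    rw [hSc]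
    have h4 : min 𝒢.card (u / 8) ≤ u / 8 := min_le_right _ _
    omega
  have h5 : S.card * u ≤ 2 * P.card := by nlinarith
  rcases le_total 𝒢.card (u / 8) with h | h
  · exfalso
    rw [min_eq_left h] at hSc
    rw [hSc] at h5
    have h6 : ((𝒢.card * u : ℕ) : ℝ) ≤ ((2 * P.card : ℕ) : ℝ) := by exact_mod_cast h5
    push_cast at h6
    have h7 : (0 : ℝ) < 𝒢.card := by exact_mod_cast hGpos
    nlinarith
  · rw [min_eq_right h] at hSc
    rw [hSc] at h5
    have h6 : u ≤ 16 * (u / 8) := by omega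
    nlinarith

end Pool.Agent.GTT
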