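import Pool.Agent.GTT.Arith
import Pool.Agent.GTT.Energy

/-!
# GTT-Line: one line `q`

Setting: `m₀` a point, `q` a prime, `A` a set of primes `p ∈ [Q,2Q)` with `p ∣ m₀`, and for every
`p ∈ A` a point `m p ≠ m₀` with `p ∣ m p`, `q ∣ m p`, `|m p - m₀| < k ≤ Q²`. The quadruples of small
energy of `x p = (m p - m₀) / p` have `q ∣ R4 p`; `R4_zero` bounds the number of degenerate ones.
-/

namespace Pool.Agent.GTT

private theorem ln_ndvd (k Q q m₀ : ℕ) (hkQ : k ≤ Q ^ 2) (hq : q.Prime ∧ Q ≤ q)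
    {p mp : ℕ} (hp : p.Prime ∧ Q ≤ p ∧ p < 2 * Q ∧ p ≠ q ∧ p ∣ m₀)
    (hm : mp ≠ m₀ ∧ p ∣ mp ∧ q ∣ mp ∧ |((mp : ℤ) - m₀)| < k) : ¬ (q : ℤ) ∣ m₀ := by
  intro h
  have h1 : (q : ℤ) ∣ (mp : ℤ) - m₀ := dvd_sub (Int.natCast_dvd_natCast.2 hm.2.2.1) h
  have h2 : (p : ℤ) ∣ (mp : ℤ) - m₀ :=
    dvd_sub (Int.natCast_dvd_natCast.2 hm.2.1) (Int.natCast_dvd_natCast.2 hp.2.2.2.2)
  have h3 : IsCoprime (p : ℤ) (q : ℤ) :=
    Nat.isCoprime_iff_coprime.2 ((Nat.coprime_primes hp.1 hq.1).2 hp.2.2.2.1)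
  have h4 : (p : ℤ) * q ∣ (mp : ℤ) - m₀ := h3.mul_dvd h2 h1
  have h5 : (mp : ℤ) - m₀ ≠ 0 := by
    intro h6
    exact hm.1 (by omega)
  have h6 : (p : ℤ) * q ≤ |(mp : ℤ) - m₀| :=
    Int.le_of_dvd (abs_pos.2 h5) ((dvd_abs _ _).2 h4)
  have h7 : Q * Q ≤ p * q := Nat.mul_le_mul hp.2.1 hq.2
  have h8 : ((Q * Q : ℕ) : ℤ) ≤ ((p * q : ℕ) : ℤ) := by exact_mod_cast h7
  have h9 : (k : ℤ) ≤ ((Q * Q : ℕ) : ℤ) := by
    rw [pow_two] at hkQ
    exact_mod_cast hkQ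
  push_cast at h8 h9
  have h10 := hm.2.2.2
  linarith

theorem line_count (k Q q m₀ : ℕ) (hQ : 16 ≤ Q) (hkQ : k ≤ Q ^ 2) (hq : q.Prime ∧ Q ≤ q)
    (A : Finset ℕ) (hA : ∀ p ∈ A, p.Prime ∧ Q ≤ p ∧ p < 2 * Q ∧ p ≠ q ∧ p ∣ m₀)
    (m : ℕ → ℕ) (hm : ∀ p ∈ A, m p ≠ m₀ ∧ p ∣ m p ∧ q ∣ m p ∧ |((m p : ℤ) - m₀)| < k) :
    ((A.card : ℝ)) ^ 4 ≤ (4 * ((k : ℝ) / Q) + 1) *
      ((((Fintype.piFinset fun _ : Fin 4 => A).filter
        (fun p => R4 p ≠ 0 ∧ (q : ℤ) ∣ R4 p)).card : ℝ) + 2 * (A.card : ℝ) ^ 2) := by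
  classical
  set x : ℕ → ℤ := fun p => ((m p : ℤ) - m₀) / p with hx
  have hpx : ∀ p ∈ A, (p : ℤ) * x p = (m p : ℤ) - m₀ := by
    intro p hp
    exact Int.mul_ediv_cancel' (dvd_sub (Int.natCast_dvd_natCast.2 (hm p hp).2.1)
      (Int.natCast_dvd_natCast.2 (hA p hp).2.2.2.2))
  have hQ0 : (0 : ℝ) < Q := by exact_mod_cast (by omega : 0 < Q)
  have hxR : ∀ p ∈ A, |(x p : ℝ)| ≤ (k : ℝ) / Q := by
    intro p hp
    rw [le_div_iff₀ hQ0]
    have h1 : |(p : ℤ) * x p| < k := by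
      rw [hpx p hp]
      exact (hm p hp).2.2.2
    have h2 : |(p : ℝ) * (x p : ℝ)| < (k : ℝ) := by exact_mod_cast h1
    rw [abs_mul, Nat.abs_cast] at h2
    have h3 : (Q : ℝ) ≤ p := by exact_mod_cast (hA p hp).2.1
    calc |(x p : ℝ)| * Q ≤ |(x p : ℝ)| * p := mul_le_mul_of_nonneg_left h3 (abs_nonneg _)
      _ = p * |(x p : ℝ)| := mul_comm _ _
      _ ≤ k := h2.le
  refine (energy A x ((k : ℝ) / Q) (by positivity) hxR).trans ?_
  refine mul_le_mul_of_nonneg_left ?_ (by positivity)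
  have hsub : ((Fintype.piFinset fun _ : Fin 4 => A).filter
      (fun p => x (p 0) + x (p 1) = x (p 2) + x (p 3))) ⊆
      ((Fintype.piFinset fun _ : Fin 4 => A).filter (fun p => R4 p ≠ 0 ∧ (q : ℤ) ∣ R4 p)) ∪
        ((A ×ˢ A).image (fun a => (![a.1, a.2, a.1, a.2] : Fin 4 → ℕ)) ∪
          (A ×ˢ A).image (fun a => (![a.1, a.2, a.2, a.1] : Fin 4 → ℕ))) := by
    intro p hp
    obtain ⟨hp1, hp2⟩ := Finset.mem_filter.1 hp
    have hpA : ∀ i, p i ∈ A := Fintype.mem_piFinset.1 hp1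
    by_cases h0 : R4 p = 0
    · rw [Finset.mem_union]
      right
      rw [Finset.mem_union, Finset.mem_image, Finset.mem_image]
      rcases R4_zero p (fun i => ⟨(hA _ (hpA i)).1, by
          have := (hA _ (hpA i)).2.1
          omega⟩) h0 with ⟨e1, e2⟩ | ⟨e1, e2⟩
      · left
        refine ⟨(p 0, p 1), Finset.mem_product.2 ⟨hpA 0, hpA 1⟩, ?_⟩
        funext i
        fin_cases i
        · rfl
        · rfl
        · exact e1
        · exact e2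
      · right
        refine ⟨(p 0, p 1), Finset.mem_product.2 ⟨hpA 0, hpA 1⟩, ?_⟩
        funext i
        fin_cases i
        · rfl
        · rfl
        · exact e2
        · exact e1
    · rw [Finset.mem_union]
      left
      rw [Finset.mem_filter]
      refine ⟨hp1, h0, ?_⟩
      have hnd := ln_ndvd k Q q m₀ hkQ hq (hA _ (hpA 0)) (hm _ (hpA 0))
      have ht : ∀ i, ∃ t : ℤ, (p i : ℤ) * x (p i) = q * t - m₀ := by
        intro i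
        obtain ⟨t, ht⟩ := (hm _ (hpA i)).2.2.1
        refine ⟨(t : ℤ), ?_⟩
        rw [hpx _ (hpA i), ht]
        push_cast
        ring
      obtain ⟨t0, h0'⟩ := ht 0
      obtain ⟨t1, h1'⟩ := ht 1
      obtain ⟨t2, h2'⟩ := ht 2
      obtain ⟨t3, h3'⟩ := ht 3
      have hdv : (q : ℤ) ∣ (m₀ : ℤ) * R4 p := by
        refine ⟨t0 * (p 1 * p 2 * p 3) + t1 * (p 0 * p 2 * p 3) - t2 * (p 0 * p 1 * p 3) -
          t3 * (p 0 * p 1 * p 2), ?_⟩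
        unfold R4
        linear_combination (-(p 0 * p 1 * p 2 * p 3 : ℤ)) * hp2 + (p 1 * p 2 * p 3 : ℤ) * h0' +
          (p 0 * p 2 * p 3 : ℤ) * h1' - (p 0 * p 1 * p 3 : ℤ) * h2' - (p 0 * p 1 * p 2 : ℤ) * h3'
      exact ((Nat.prime_iff_prime_int.1 hq.1).dvd_or_dvd hdv).resolve_left hnd
  have h1 := (Finset.card_le_card hsub).trans (Finset.card_union_le _ _)
  have h2 := Finset.card_union_le ((A ×ˢ A).image (fun a => (![a.1, a.2, a.1, a.2] : Fin 4 → ℕ)))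
    ((A ×ˢ A).image (fun a => (![a.1, a.2, a.2, a.1] : Fin 4 → ℕ)))
  have h3 : ((A ×ˢ A).image (fun a => (![a.1, a.2, a.1, a.2] : Fin 4 → ℕ))).card ≤ A.card ^ 2 := by
    refine Finset.card_image_le.trans ?_
    rw [Finset.card_product, pow_two]
  have h4 : ((A ×ˢ A).image (fun a => (![a.1, a.2, a.2, a.1] : Fin 4 → ℕ))).card ≤ A.card ^ 2 := by
    refine Finset.card_image_le.trans ?_
    rw [Finset.card_product, pow_two]
  have h5 : ((Fintype.piFinset fun _ : Fin 4 => A).filter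
      (fun p => x (p 0) + x (p 1) = x (p 2) + x (p 3))).card ≤
      ((Fintype.piFinset fun _ : Fin 4 => A).filter (fun p => R4 p ≠ 0 ∧ (q : ℤ) ∣ R4 p)).card +
        2 * A.card ^ 2 := by omega
  exact_mod_cast h5

end Pool.Agent.GTT
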