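import Pool.Agent.GTT.Defs

/-!
# GTT-NumB: choice of the parameters for large `n` (Mathlib only)

`lam = log n`, `ell = log lam`.  `y`: primes below `y` are thrown away; `W`: number of remaining
primes; `D`: number of dyadic ranges; `u = W / D`.  We take `y = W = ⌊lam / (8 ell^13)⌋₊`,
`D = ⌈6 ell⌉₊`; everything holds as soon as `ell ≥ 10` and `9^5 ell^65 ≤ lam`.
-/

open Filter Topology

namespace Pool.Agent.GTT

private lemma num_core (lam ell c : ℝ) (k : ℕ) (hc : 1 ≤ c) (hlam : lam = c ^ 3)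
    (hell : 10 ≤ ell) (hexp : lam = Real.exp ell) (hbig : 9 ^ 5 * ell ^ 65 ≤ lam) (hk1 : 1 ≤ k)
    (hk : (k : ℝ) ≤ c ^ 10 / ell ^ 60) :
    (k : ℝ) ≤ lam ^ 4 ∧
    ∃ y W D u : ℕ, 1 ≤ W ∧ u = W / D ∧ 1 ≤ D ∧ k ≤ 2 ^ D ∧
      (∀ t : ℕ, Real.exp (lam / ell ^ 12) ≤ (k : ℝ) ^ t → W + y ≤ t) ∧
      k ≤ y ^ 5 ∧ 23 ≤ u ∧ 8 * D ≤ u ∧ 1024 * k ≤ u ^ 4 ∧
      491520 * (2 * (D : ℝ)) ^ 6 * (k : ℝ) ^ 3 < (u : ℝ) ^ 10 := by
  have hell0 : 0 < ell := by linarith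
  have hlam0 : 0 < lam := by rw [hexp]; exact Real.exp_pos _
  have hk4 : (k : ℝ) ≤ lam ^ 4 := by
    have h1 : c ^ 10 / ell ^ 60 ≤ c ^ 10 := by
      apply div_le_self (by positivity)
      exact one_le_pow₀ (by linarith)
    have h2 : c ^ 10 ≤ c ^ 12 := pow_le_pow_right₀ hc (by norm_num)
    calc (k : ℝ) ≤ c ^ 10 / ell ^ 60 := hk
      _ ≤ c ^ 12 := h1.trans h2
      _ = lam ^ 4 := by rw [hlam]; ring
  refine ⟨hk4, ?_⟩
  obtain ⟨x, hx⟩ : ∃ x : ℝ, x = lam / (8 * ell ^ 13) := ⟨_, rfl⟩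
  have hx0 : 0 < x := by rw [hx]; positivity
  have hxell : 9 ^ 5 / 8 * ell ^ 52 ≤ x := by
    rw [hx, le_div_iff₀ (by positivity)]
    calc 9 ^ 5 / 8 * ell ^ 52 * (8 * ell ^ 13) = 9 ^ 5 * ell ^ 65 := by ring
      _ ≤ lam := hbig
  have hell52 : ell ≤ ell ^ 52 := le_self_pow₀ (by linarith) (by norm_num)
  have hx70 : 7000 * ell ≤ x := by linarith
  obtain ⟨y, hy⟩ : ∃ y : ℕ, y = ⌊x⌋₊ := ⟨_, rfl⟩
  obtain ⟨D, hD⟩ : ∃ D : ℕ, D = ⌈6 * ell⌉₊ := ⟨_, rfl⟩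
  have hyle : (y : ℝ) ≤ x := by rw [hy]; exact Nat.floor_le hx0.le
  have hylt : x < y + 1 := by rw [hy]; exact Nat.lt_floor_add_one x
  have hDge : 6 * ell ≤ (D : ℝ) := by rw [hD]; exact Nat.le_ceil _
  have hDlt : (D : ℝ) < 6 * ell + 1 := by rw [hD]; exact Nat.ceil_lt_add_one (by positivity)
  have hD61 : (D : ℝ) ≤ 6.1 * ell := by linarith
  have hDpos : 0 < (D : ℝ) := by linarith
  have hDnat : 0 < D := by exact_mod_cast hDpos
  obtain ⟨u, hu⟩ : ∃ u : ℕ, u = y / D := ⟨_, rfl⟩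
  have hu_lt : (y : ℝ) < (u + 1) * D := by
    have h := Nat.lt_div_mul_add (a := y) hDnat
    rw [← hu] at h
    have h' : (y : ℝ) < (u : ℝ) * D + D := by exact_mod_cast h
    linarith
  have hu_ge : lam / (60 * ell ^ 14) ≤ u := by
    have h1 : lam / (60 * ell ^ 14) = x / (7.5 * ell) := by
      rw [hx]; field_simp; norm_num
    rw [h1, div_le_iff₀ (by positivity)]
    have h2 : ((u : ℝ) + 1) * D ≤ (u + 1) * (6.1 * ell) :=
      mul_le_mul_of_nonneg_left hD61 (by positivity)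
    nlinarith
  have hu_ell : 900 * ell ^ 51 ≤ u := by
    refine le_trans ?_ hu_ge
    rw [le_div_iff₀ (by positivity)]
    calc 900 * ell ^ 51 * (60 * ell ^ 14) = 54000 * ell ^ 65 := by ring
      _ ≤ 9 ^ 5 * ell ^ 65 := by gcongr; norm_num
      _ ≤ lam := hbig
  have hu900 : 900 * ell ≤ u := by
    have : ell ≤ ell ^ 51 := le_self_pow₀ (by linarith) (by norm_num)
    linarith
  have hu8 : 8 * D ≤ u := by
    have : (8 * (D : ℝ)) ≤ u := by linarith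
    exact_mod_cast this
  have hklog : Real.log k ≤ 4 * ell := by
    have hkpos : (0 : ℝ) < k := by exact_mod_cast hk1
    rw [Real.log_le_iff_le_exp hkpos]
    calc (k : ℝ) ≤ lam ^ 4 := hk4
      _ = Real.exp (4 * ell) := by
        rw [hexp, ← Real.exp_nat_mul]; norm_num
  have hklog0 : 0 ≤ Real.log k := Real.log_natCast_nonneg k
  have hc10 : (10 : ℝ) ^ 10 ≤ c := by
    by_contra hcon
    have hcon' : c < 10 ^ 10 := not_le.mp hcon
    have h1 : c ^ 3 ≤ (10 ^ 10) ^ 3 := pow_le_pow_left₀ (by linarith) hcon'.le 3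
    have h2 : (10 : ℝ) ^ 65 ≤ ell ^ 65 := pow_le_pow_left₀ (by norm_num) hell 65
    rw [← hlam] at h1
    have h3 : (9 : ℝ) ^ 5 * 10 ^ 65 ≤ lam := le_trans (by gcongr) hbig
    have h4 : (9 : ℝ) ^ 5 * 10 ^ 65 ≤ (10 ^ 10) ^ 3 := h3.trans h1
    norm_num at h4
  refine ⟨y, y, D, u, ?_, hu, hDnat, ?_, ?_, ?_, ?_, hu8, ?_, ?_⟩
  · have : (1 : ℝ) ≤ y := by linarith
    exact_mod_cast this
  · -- k ≤ 2 ^ D
    have hlog2 := Real.log_two_gt_d9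
    have h1 : (k : ℝ) ≤ (2 : ℝ) ^ D := by
      have hkpos : (0 : ℝ) < k := by exact_mod_cast hk1
      rw [← Real.log_le_log_iff hkpos (by positivity), Real.log_pow]
      nlinarith
    exact_mod_cast h1
  · intro t ht
    have hkpos : (0 : ℝ) < k := by exact_mod_cast hk1
    have h1 : lam / ell ^ 12 ≤ t * Real.log k := by
      rw [← Real.log_pow, Real.le_log_iff_exp_le (by positivity)]
      exact ht
    have h2 : lam / ell ^ 12 ≤ t * (4 * ell) :=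
      h1.trans (mul_le_mul_of_nonneg_left hklog (by positivity))
    have h3 : 2 * x ≤ t := by
      have h4 : lam / ell ^ 12 = 2 * x * (4 * ell) := by rw [hx]; field_simp; norm_num
      rw [h4] at h2
      exact le_of_mul_le_mul_right h2 (by positivity)
    have h5 : ((y : ℝ) + y) ≤ t := by linarith
    exact_mod_cast h5
  · -- k ≤ y ^ 5
    have h1 : lam / (9 * ell ^ 13) ≤ y := by
      have h2 : lam / (9 * ell ^ 13) = 8 / 9 * x := by rw [hx]; field_simp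
      rw [h2]; linarith
    have h3 : (lam / (9 * ell ^ 13)) ^ 5 ≤ (y : ℝ) ^ 5 := pow_le_pow_left₀ (by positivity) h1 5
    have h4 : lam ^ 4 ≤ (lam / (9 * ell ^ 13)) ^ 5 := by
      rw [div_pow, le_div_iff₀ (by positivity)]
      calc lam ^ 4 * (9 * ell ^ 13) ^ 5 = lam ^ 4 * (9 ^ 5 * ell ^ 65) := by ring
        _ ≤ lam ^ 4 * lam := by gcongr
        _ = lam ^ 5 := by ring
    have h5 : (k : ℝ) ≤ (y : ℝ) ^ 5 := hk4.trans (h4.trans h3)
    exact_mod_cast h5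
  · have : (23 : ℝ) ≤ u := by linarith
    exact_mod_cast this
  · -- 1024 k ≤ u ^ 4
    have h1 : (lam / (60 * ell ^ 14)) ^ 4 ≤ (u : ℝ) ^ 4 := pow_le_pow_left₀ (by positivity) hu_ge 4
    have h2 : 1024 * (k : ℝ) ≤ 1024 * (c ^ 10 / ell ^ 60) := by gcongr
    have h3 : 1024 * (c ^ 10 / ell ^ 60) ≤ (lam / (60 * ell ^ 14)) ^ 4 := by
      rw [hlam, div_pow, ← mul_div_assoc, div_le_div_iff₀ (by positivity) (by positivity)]
      have h4 : (1024 : ℝ) * 60 ^ 4 ≤ c ^ 2 * ell ^ 4 := by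
        have h5 : ((10 : ℝ) ^ 10) ^ 2 ≤ c ^ 2 := pow_le_pow_left₀ (by norm_num) hc10 2
        have h6 : (10 : ℝ) ^ 4 ≤ ell ^ 4 := pow_le_pow_left₀ (by norm_num) hell 4
        calc (1024 : ℝ) * 60 ^ 4 ≤ (10 ^ 10) ^ 2 * 10 ^ 4 := by norm_num
          _ ≤ c ^ 2 * ell ^ 4 := by gcongr
      calc 1024 * c ^ 10 * (60 * ell ^ 14) ^ 4 = (1024 * 60 ^ 4) * (c ^ 10 * ell ^ 56) := by ring
        _ ≤ (c ^ 2 * ell ^ 4) * (c ^ 10 * ell ^ 56) := by gcongr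
        _ = (c ^ 3) ^ 4 * ell ^ 60 := by ring
    have h5 : 1024 * (k : ℝ) ≤ (u : ℝ) ^ 4 := h2.trans (h3.trans h1)
    exact_mod_cast h5
  · -- last
    have h1 : (lam / (60 * ell ^ 14)) ^ 10 ≤ (u : ℝ) ^ 10 :=
      pow_le_pow_left₀ (by positivity) hu_ge 10
    refine lt_of_lt_of_le ?_ h1
    have h2 : 491520 * (2 * (D : ℝ)) ^ 6 * (k : ℝ) ^ 3 ≤
        491520 * (2 * (6.1 * ell)) ^ 6 * (c ^ 10 / ell ^ 60) ^ 3 := by gcongr
    refine lt_of_le_of_lt h2 ?_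
    have hc0 : 0 < c := by linarith
    rw [hlam, div_pow, div_pow, ← mul_div_assoc, div_lt_div_iff₀ (by positivity) (by positivity)]
    have h3 : (491520 : ℝ) * 12.2 ^ 6 * 60 ^ 10 < ell ^ 34 := by
      have h4 : (10 : ℝ) ^ 34 ≤ ell ^ 34 := pow_le_pow_left₀ (by norm_num) hell 34
      refine lt_of_lt_of_le ?_ h4
      norm_num
    calc 491520 * (2 * (6.1 * ell)) ^ 6 * (c ^ 10) ^ 3 * (60 * ell ^ 14) ^ 10
        = (491520 * 12.2 ^ 6 * 60 ^ 10) * (c ^ 30 * ell ^ 146) := by ring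
      _ < ell ^ 34 * (c ^ 30 * ell ^ 146) := by gcongr
      _ = (c ^ 3) ^ 10 * (ell ^ 60) ^ 3 := by ring

theorem num_b : ∀ᶠ n : ℕ in atTop, ∀ k : ℕ, 1 ≤ k →
    (k : ℝ) ≤ (Real.log n) ^ (10 / 3 : ℝ) / (Real.log (Real.log n)) ^ 60 →
    (k : ℝ) ≤ (Real.log n) ^ 4 ∧ Real.exp (Real.log n / (Real.log (Real.log n)) ^ 12) ≤ n ∧
    ∃ y W D u : ℕ, 1 ≤ W ∧ u = W / D ∧ 1 ≤ D ∧ k ≤ 2 ^ D ∧
      (∀ t : ℕ, Real.exp (Real.log n / (Real.log (Real.log n)) ^ 12) ≤ (k : ℝ) ^ t →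
        W + y ≤ t) ∧
      k ≤ y ^ 5 ∧ 23 ≤ u ∧ 8 * D ≤ u ∧ 1024 * k ≤ u ^ 4 ∧
      491520 * (2 * (D : ℝ)) ^ 6 * (k : ℝ) ^ 3 < (u : ℝ) ^ 10 := by
  have hA : Tendsto (fun n : ℕ => Real.log (n : ℝ)) atTop atTop :=
    Real.tendsto_log_atTop.comp tendsto_natCast_atTop_atTop
  have hB : Tendsto (fun n : ℕ => Real.log (Real.log (n : ℝ))) atTop atTop :=
    Real.tendsto_log_atTop.comp hA
  have hC : ∀ᶠ t : ℝ in atTop, 9 ^ 5 * t ^ 65 ≤ Real.exp t := by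
    have h1 := Real.tendsto_exp_div_pow_atTop 65
    filter_upwards [h1.eventually_ge_atTop (9 ^ 5), eventually_gt_atTop 0] with t ht ht0
    rwa [le_div_iff₀ (by positivity)] at ht
  filter_upwards [hA.eventually_ge_atTop 1, hB.eventually_ge_atTop 10, hB.eventually hC,
    eventually_ge_atTop 1] with n h1 h2 h3 h4 k hk1 hk
  have hlam0 : 0 < Real.log (n : ℝ) := by linarith
  have hexp : Real.log (n : ℝ) = Real.exp (Real.log (Real.log n)) := (Real.exp_log hlam0).symm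
  have hc1 : 1 ≤ (Real.log (n : ℝ)) ^ (1 / 3 : ℝ) := Real.one_le_rpow h1 (by norm_num)
  have hc3 : Real.log (n : ℝ) = ((Real.log (n : ℝ)) ^ (1 / 3 : ℝ)) ^ 3 := by
    rw [← Real.rpow_natCast, ← Real.rpow_mul hlam0.le]; norm_num
  have hc10 : (Real.log (n : ℝ)) ^ (10 / 3 : ℝ) = ((Real.log (n : ℝ)) ^ (1 / 3 : ℝ)) ^ 10 := by
    rw [← Real.rpow_natCast, ← Real.rpow_mul hlam0.le]; norm_num
  rw [hc10] at hk
  have hbig : 9 ^ 5 * (Real.log (Real.log n)) ^ 65 ≤ Real.log (n : ℝ) :=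
    h3.trans_eq hexp.symm
  obtain ⟨hk4, hrest⟩ := num_core (Real.log n) (Real.log (Real.log n))
    ((Real.log (n : ℝ)) ^ (1 / 3 : ℝ)) k hc1 hc3 h2 hexp hbig hk1 hk
  refine ⟨hk4, ?_, hrest⟩
  have hn : (0 : ℝ) < n := by exact_mod_cast h4
  calc Real.exp (Real.log n / (Real.log (Real.log n)) ^ 12) ≤ Real.exp (Real.log n) := by
        apply Real.exp_le_exp.mpr
        apply div_le_self hlam0.le
        exact one_le_pow₀ (by linarith)
    _ = n := Real.exp_log hn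

end Pool.Agent.GTT
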