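import Pool.Agent.GTT.OneBad
import Pool.Agent.GTT.Inc
import Pool.Agent.GTT.John
import Pool.Agent.GTT.Dyad
import Pool.Agent.GTT.Classify
import Pool.Agent.GTT.NumB

/-!
# GTT-Main: assembly (helper54)
-/

open Filter Topology

namespace Pool.Agent.GTT

/-- The combinatorial part: a violation all of whose big members have at least `W + y` primes. -/
private theorem no_viol (n k : ℕ) (S : Finset ℕ) (hS : Viol n k S) (y W D u : ℕ)
    (hW : 1 ≤ W) (hu : u = W / D) (hD : 1 ≤ D) (hkD : k ≤ 2 ^ D) (hky : k ≤ y ^ 5) (hu23 : 23 ≤ u)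
    (hDu : 8 * D ≤ u) (hku : 1024 * k ≤ u ^ 4)
    (hfin : 491520 * (2 * (D : ℝ)) ^ 6 * (k : ℝ) ^ 3 < (u : ℝ) ^ 10)
    (G : Finset ℕ) (hGS : G ⊆ S) (hG : G.Nonempty) (hcard : (pf S).card < 2 * G.card)
    (hT : ∀ m ∈ G, ∃ T ⊆ m.primeFactors, W + y ≤ T.card) : False := by
  classical
  have hlt : ∀ p ∈ pf S, p < k := viol_lt n k S hS
  have hprime : ∀ p ∈ pf S, p.Prime := by
    intro p hp
    simp only [pf, Finset.mem_biUnion] at hp
    obtain ⟨m, -, hm⟩ := hp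
    exact Nat.prime_of_mem_primeFactors hm
  set P : Finset ℕ := (pf S).filter (fun p => y ≤ p) with hPdef
  have hPmem : ∀ p, p ∈ P ↔ p ∈ pf S ∧ y ≤ p := by
    intro p
    rw [hPdef, Finset.mem_filter]
  -- every member of `G` has at least `W` primes in `P`
  have hmany : ∀ m ∈ G, W ≤ (P.filter (fun p => p ∣ m)).card := by
    intro m hm
    obtain ⟨T, hTm, hTc⟩ := hT m hm
    have hsub : T ⊆ (P.filter (fun p => p ∣ m)) ∪ Finset.range y := by
      intro p hp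
      have hpm := hTm hp
      rw [Finset.mem_union, Finset.mem_filter, hPmem, Finset.mem_range]
      by_cases hpy : p < y
      · exact Or.inr hpy
      · refine Or.inl ⟨⟨?_, not_lt.mp hpy⟩, Nat.dvd_of_mem_primeFactors hpm⟩
        simp only [pf, Finset.mem_biUnion]
        exact ⟨m, hGS hm, hpm⟩
    have h1 := Finset.card_le_card hsub
    have h2 := Finset.card_union_le (P.filter (fun p => p ∣ m)) (Finset.range y)
    rw [Finset.card_range] at h2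
    omega
  have hP1 : ∀ p ∈ P, 1 ≤ p ∧ p < 2 ^ D := by
    intro p hp
    have hp' := (hPmem p).1 hp
    exact ⟨(hprime p hp'.1).one_lt.le, lt_of_lt_of_le (hlt p hp'.1) hkD⟩
  obtain ⟨j, -, G', hG'G, hG'ne, hGG', hG'⟩ := dyadic W D G P hG hW hP1 hmany
  set Pj : Finset ℕ := P.filter (fun p => 2 ^ j ≤ p ∧ p < 2 ^ (j + 1)) with hPj
  have hPjmem : ∀ p, p ∈ Pj ↔ p ∈ P ∧ 2 ^ j ≤ p ∧ p < 2 ^ (j + 1) := by
    intro p
    rw [hPj, Finset.mem_filter]
  have huP : ∀ m ∈ G', u ≤ (Pj.filter (fun p => p ∣ m)).card := by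
    intro m hm
    rw [hu]
    exact Nat.div_le_of_le_mul (hG' m hm)
  have hC1 : ((Pj.card : ℕ) : ℝ) ≤ (2 * (D : ℝ)) * G'.card := by
    have h1 : Pj.card ≤ (pf S).card :=
      Finset.card_le_card ((Finset.filter_subset _ _).trans (Finset.filter_subset _ _))
    have h2 : Pj.card ≤ 2 * (D * G'.card) := by
      have : (pf S).card ≤ 2 * G.card := hcard.le
      have h3 : 2 * G.card ≤ 2 * (D * G'.card) := Nat.mul_le_mul_left _ hGG'
      omega
    calc ((Pj.card : ℕ) : ℝ) ≤ ((2 * (D * G'.card) : ℕ) : ℝ) := by exact_mod_cast h2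
      _ = (2 * (D : ℝ)) * G'.card := by push_cast; ring
  have hkG : ∀ m ∈ G', ∀ m' ∈ G', |((m : ℤ) - m')| < k := by
    intro m hm m' hm'
    have h1 := Finset.mem_Ico.1 (hS.1 (hGS (hG'G hm)))
    have h2 := Finset.mem_Ico.1 (hS.1 (hGS (hG'G hm')))
    rw [abs_lt]
    constructor <;> omega
  have hPjpr : ∀ p ∈ Pj, p.Prime ∧ y ≤ p := by
    intro p hp
    have hp' := (hPmem p).1 ((hPjmem p).1 hp).1
    exact ⟨hprime p hp'.1, hp'.2⟩
  have hDr : (1 : ℝ) ≤ (D : ℝ) := by exact_mod_cast hD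
  have hDur : 8 * (D : ℝ) ≤ (u : ℝ) := by exact_mod_cast hDu
  have hjohn : u ^ 2 ≤ 32 * Pj.card :=
    johnson k u y (2 * (D : ℝ)) G' Pj hG'ne hkG hPjpr hky huP hC1 (by linarith) (by omega)
  have hPjQ : Pj.card ≤ 2 ^ j := by
    have hsub : Pj ⊆ Finset.Ico (2 ^ j) (2 ^ (j + 1)) := by
      intro p hp
      have := (hPjmem p).1 hp
      exact Finset.mem_Ico.2 this.2
    have h1 := Finset.card_le_card hsub
    rw [Nat.card_Ico] at h1
    have h2 : (2 : ℕ) ^ (j + 1) - 2 ^ j = 2 ^ j := by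
      rw [pow_succ]
      omega
    omega
  have huQ : u ^ 2 ≤ 32 * 2 ^ j := hjohn.trans (Nat.mul_le_mul_left _ hPjQ)
  have hkQ : k ≤ (2 ^ j) ^ 2 := by
    have h1 : u ^ 4 ≤ (32 * 2 ^ j) ^ 2 := by
      calc u ^ 4 = (u ^ 2) ^ 2 := by ring
        _ ≤ (32 * 2 ^ j) ^ 2 := Nat.pow_le_pow_left huQ 2
    have h2 : 1024 * k ≤ 1024 * (2 ^ j) ^ 2 := by
      calc 1024 * k ≤ u ^ 4 := hku
        _ ≤ (32 * 2 ^ j) ^ 2 := h1
        _ = 1024 * (2 ^ j) ^ 2 := by ring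
    omega
  have hQ16 : 16 ≤ 2 ^ j := by
    have : 23 ^ 2 ≤ u ^ 2 := Nat.pow_le_pow_left hu23 2
    omega
  have hinc := incidence k u (2 ^ j) (2 * (D : ℝ)) G' Pj hG'ne hkG (by
    intro p hp
    have h1 := (hPjmem p).1 hp
    refine ⟨(hPjpr p hp).1, h1.2.1, ?_⟩
    calc p < 2 ^ (j + 1) := h1.2.2
      _ = 2 * 2 ^ j := by ring) hkQ hQ16 huP (by linarith) hC1 (by linarith)
  linarith

theorem main : ∀ᶠ n : ℕ in atTop, ∀ k : ℕ,
    (k : ℝ) ≤ (Real.log n) ^ (10 / 3 : ℝ) / (Real.log (Real.log n)) ^ 60 → HasAssignment n k := by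
  filter_upwards [one_bad, num_b, eventually_ge_atTop 2] with n hone hnum hn k hk
  rcases Nat.eq_zero_or_pos k with rfl | hkpos
  · refine ⟨fun i => i.elim0, fun i => i.elim0, fun i => i.elim0⟩
  obtain ⟨hk4, hΘ, y, W, D, u, hW, hu, hD, hkD, hTW, hky, hu23, hDu, hku, hfin⟩ := hnum k hkpos hk
  by_contra hno
  obtain ⟨S, hS⟩ := exists_viol n k hn hno
  obtain ⟨G, hGS, hG, hcard, hT⟩ := classify n k hn S hS _ hΘ (by
    intro p q v w c₁ c₂ hp hq hpq hpk hqk h1 h2 h3 h4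
    have e1 := Finset.mem_Ico.1 (hS.1 h1)
    have e2 := Finset.mem_Ico.1 (hS.1 h2)
    exact hone k p q v w c₁ c₂ hk4 hp hq hpq hpk hqk e1.1 e1.2 e2.1 e2.2 h3 h4)
  refine no_viol n k S hS y W D u hW hu hD hkD hky hu23 hDu hku hfin G hGS hG hcard ?_
  intro m hm
  obtain ⟨T, hTm, hTk⟩ := hT m hm
  exact ⟨T, hTm, hTW T.card hTk⟩

end Pool.Agent.GTT
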