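import Pool.Agent.GTT.TL

/-!
# GTT-OneBad: two members `c₁ p^v`, `c₂ q^w` with tiny `c₁, c₂` are impossible

Notation: `lam = log n`, `ell = log lam`.  A Dirichlet approximation `β/α` of `v/w` with `α ≤ M`,
`M ≈ ell^6`, and division of `w` by `α` (quotient `X`) turn `log (c₁ p^v) - log (c₂ q^w)` into
`X log (p^β/q^α) - log (a₂/b₂)` with small `log a₂`, `log b₂`; the lower bound `two_logs` for this form
contradicts the upper bound `k/n`.  `ob_side`: elementary bounds for one member; `ob_num`: the numerical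
conditions; `ob_core`: the argument for given large `n`.
-/

open Filter Topology

namespace Pool.Agent.GTT

private theorem ob_int (z : ℤ) : ∃ e f : ℕ, ((e : ℝ) - f = z) ∧ (e : ℝ) ≤ |(z : ℝ)| ∧
    (f : ℝ) ≤ |(z : ℝ)| := by
  rcases le_total 0 z with h | h
  · obtain ⟨e, rfl⟩ := Int.eq_ofNat_of_zero_le h
    exact ⟨e, 0, by simp, by simp, by simp⟩
  · obtain ⟨e, he⟩ := Int.eq_ofNat_of_zero_le (neg_nonneg.2 h)
    have h1 : (z : ℝ) = -(e : ℝ) := by
      have h2 : z = -(e : ℤ) := by omega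
      rw [h2]
      push_cast
      ring
    exact ⟨0, e, by rw [h1]; simp, by simp, by rw [h1, abs_neg]; exact le_abs_self _⟩

private theorem ob_side {n k p v c : ℕ} {lam ell : ℝ} (hlam : lam = Real.log n)
    (hell : ell = Real.log lam) (h1 : 10 ^ 12 ≤ ell) (h2 : ell ^ 30 ≤ lam) (hn : (k : ℝ) ≤ n)
    (hk : (k : ℝ) ≤ lam ^ 4) (hn0 : 0 < n) (hp : p.Prime) (hpk : p < k) (hm : n ≤ c * p ^ v)
    (hm' : c * p ^ v < n + k) (hc : (c : ℝ) < Real.exp (lam / ell ^ 12)) :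
    1 ≤ c ∧ Real.log c ≤ lam / ell ^ 12 ∧ 0 < Real.log p ∧ Real.log p ≤ 4 * ell ∧
      lam / (8 * ell) ≤ v ∧ (v : ℝ) ≤ 3 * lam ∧
      Real.log ((c * p ^ v : ℕ) : ℝ) = Real.log c + v * Real.log p := by
  have hell1 : (1 : ℝ) ≤ ell := le_trans (by norm_num) h1
  have hell0 : 0 < ell := by linarith
  have hlam1 : (1 : ℝ) ≤ lam := le_trans (one_le_pow₀ hell1) h2
  have hc1 : 1 ≤ c := by
    rcases Nat.eq_zero_or_pos c with h | h
    · rw [h, zero_mul] at hm
      omega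
    · exact h
  have hc1' : (1 : ℝ) ≤ c := by exact_mod_cast hc1
  have hp2 : (2 : ℝ) ≤ p := by exact_mod_cast hp.two_le
  have hp0 : (0 : ℝ) < p := by linarith
  have hlc : Real.log c ≤ lam / ell ^ 12 := ((Real.log_lt_iff_lt_exp (by linarith)).2 hc).le
  have hlc0 : 0 ≤ Real.log c := Real.log_nonneg hc1'
  have hl2 : 0.6931471803 < Real.log 2 := Real.log_two_gt_d9
  have hl2' : Real.log 2 < 0.6931471808 := Real.log_two_lt_d9
  have hlp2 : Real.log 2 ≤ Real.log p := Real.log_le_log (by norm_num) hp2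
  have hlp4 : Real.log p ≤ 4 * ell := by
    have h3 : (p : ℝ) ≤ lam ^ 4 := by
      have h4 : (p : ℝ) ≤ k := by exact_mod_cast hpk.le
      linarith
    have h4 := Real.log_le_log hp0 h3
    rw [Real.log_pow, ← hell] at h4
    exact_mod_cast h4
  have hlog : Real.log ((c * p ^ v : ℕ) : ℝ) = Real.log c + v * Real.log p := by
    push_cast
    rw [Real.log_mul (by linarith) (by positivity), Real.log_pow]
  have hn0' : (0 : ℝ) < n := by exact_mod_cast hn0
  have hlm : lam ≤ Real.log ((c * p ^ v : ℕ) : ℝ) := by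
    rw [hlam]
    exact Real.log_le_log hn0' (by exact_mod_cast hm)
  have hlm' : Real.log ((c * p ^ v : ℕ) : ℝ) ≤ lam + 1 := by
    have h3 : ((c * p ^ v : ℕ) : ℝ) ≤ 2 * n := by
      have h4 : ((c * p ^ v : ℕ) : ℝ) ≤ n + k := by exact_mod_cast hm'.le
      linarith
    have h5 : (0 : ℝ) < ((c * p ^ v : ℕ) : ℝ) := lt_of_lt_of_le hn0' (by exact_mod_cast hm)
    have h4 := Real.log_le_log h5 h3
    rw [Real.log_mul (by norm_num) hn0'.ne', ← hlam] at h4
    linarith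
  rw [hlog] at hlm hlm'
  have hv0 : (0 : ℝ) ≤ v := Nat.cast_nonneg v
  refine ⟨hc1, hlc, by linarith, hlp4, ?_, ?_, hlog⟩
  · have h3 : lam / ell ^ 12 ≤ lam / 2 := by
      refine div_le_div_of_nonneg_left (by linarith) (by norm_num) ?_
      have h4 : ell ^ 1 ≤ ell ^ 12 := pow_le_pow_right₀ hell1 (by norm_num)
      rw [pow_one] at h4
      have h5 : (2 : ℝ) ≤ 10 ^ 12 := by norm_num
      linarith
    have h4 : (v : ℝ) * Real.log p ≤ v * (4 * ell) := mul_le_mul_of_nonneg_left hlp4 hv0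
    rw [div_le_iff₀ (by positivity)]
    linarith
  · have h4 : (v : ℝ) * 0.6931471803 ≤ v * Real.log p :=
      mul_le_mul_of_nonneg_left (by linarith) hv0
    linarith

private theorem ob_num {lam ell α M L X w : ℝ} (hell : ell = Real.log lam) (h1 : 10 ^ 12 ≤ ell)
    (h2 : ell ^ 30 ≤ lam) (hα : 1 ≤ α) (hαM : α ≤ M) (hM1 : ell ^ 6 ≤ M) (hM2 : M ≤ 2 * ell ^ 6)
    (hL1 : 100 * ell ≤ L) (hL2 : L ≤ 101 * ell) (hw1 : lam / (8 * ell) ≤ w) (hw2 : w ≤ 3 * lam)
    (hX : w ≤ α * X + α) (hX2 : X ≤ w) :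
    120 * L * (lam / ell ^ 12 + 12 * ell * lam / (M * α) + 200 * ell ^ 2 * M) + 1 ≤ X ∧
    8 * Real.log (1000 * X * L * (100 * ell ^ 2 * α)) ≤ L ∧
    14000 * L ^ 2 * (100 * ell ^ 2 * α) *
      (lam / ell ^ 12 + 12 * ell * lam / (M * α) + 200 * ell ^ 2 * M) ≤ lam / 2 := by
  have hell1 : (1 : ℝ) ≤ ell := le_trans (by norm_num) h1
  have hell0 : 0 < ell := by linarith
  have hlam1 : (1 : ℝ) ≤ lam := le_trans (one_le_pow₀ hell1) h2
  have hlam0 : 0 < lam := by linarith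
  have hM0 : 0 < M := by linarith
  have hα0 : 0 < α := by linarith
  have hL0 : 0 < L := by linarith
  have hα2 : α ≤ 2 * ell ^ 6 := by linarith
  obtain ⟨G, hG⟩ : ∃ G, G = lam / ell ^ 5 := ⟨_, rfl⟩
  have hGl : lam = G * ell ^ 5 := by
    rw [hG]
    field_simp
  have hG25 : ell ^ 25 ≤ G := by
    rw [hG, le_div_iff₀ (by positivity), ← pow_add]
    exact h2
  have hG0 : 0 < G := lt_of_lt_of_le (by positivity) hG25
  obtain ⟨H2, hH2⟩ : ∃ H2, H2 = lam / ell ^ 12 + 12 * ell * lam / (M * α) + 200 * ell ^ 2 * M :=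
    ⟨_, rfl⟩
  have hH20 : 0 ≤ H2 := by
    rw [hH2]
    positivity
  have hH : H2 * α ≤ 14 * G := by
    have e1 : lam / ell ^ 12 * α ≤ G := by
      have g1 : lam / ell ^ 12 * α ≤ lam / ell ^ 12 * (2 * ell ^ 6) :=
        mul_le_mul_of_nonneg_left hα2 (by positivity)
      have g2 : lam / ell ^ 12 * (2 * ell ^ 6) = 2 / ell * G := by
        rw [hG]
        field_simp
      have g3 : 2 / ell ≤ 1 := by
        rw [div_le_one hell0]
        exact le_trans (by norm_num) h1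
      have g4 : 2 / ell * G ≤ 1 * G := mul_le_mul_of_nonneg_right g3 hG0.le
      linarith
    have e2 : 12 * ell * lam / (M * α) * α ≤ 12 * G := by
      have g1 : 12 * ell * lam / (M * α) * α = 12 * ell * lam / M := by
        field_simp
      have g2 : 12 * ell * lam / M ≤ 12 * ell * lam / ell ^ 6 :=
        div_le_div_of_nonneg_left (by positivity) (by positivity) hM1
      have g3 : 12 * ell * lam / ell ^ 6 = 12 * G := by
        rw [hG]
        field_simp
      linarith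
    have e3 : 200 * ell ^ 2 * M * α ≤ G := by
      have g1 : 200 * ell ^ 2 * M * α ≤ 200 * ell ^ 2 * (2 * ell ^ 6) * (2 * ell ^ 6) := by
        gcongr
      have g2 : 200 * ell ^ 2 * (2 * ell ^ 6) * (2 * ell ^ 6) = 800 * ell ^ 14 := by ring
      have g3 : 800 * ell ^ 14 ≤ ell * ell ^ 14 :=
        mul_le_mul_of_nonneg_right (le_trans (by norm_num) h1) (by positivity)
      have g4 : ell * ell ^ 14 = ell ^ 15 := by ring
      have g5 : ell ^ 15 ≤ ell ^ 25 := pow_le_pow_right₀ hell1 (by norm_num)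
      linarith
    rw [hH2, add_mul, add_mul]
    linarith
  rw [← hH2]
  have i1 : 120 * L * H2 + 1 ≤ X := by
    have g1 : α * (120 * L * H2 + 1) ≤ α * X := by
      have g2 : α * (120 * L * H2 + 1) = 120 * L * (H2 * α) + α := by ring
      have g3 : 120 * L * (H2 * α) ≤ 120 * (101 * ell) * (14 * G) := by
        gcongr
      have g4 : lam / (8 * ell) = ell ^ 4 * G / 8 := by
        rw [hGl]
        field_simp
      have g5 : ell ^ 6 ≤ G := le_trans (pow_le_pow_right₀ hell1 (by norm_num)) hG25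
      have g6 : 4 * G ≤ 4 * (ell * G) := by
        have : 1 * G ≤ ell * G := mul_le_mul_of_nonneg_right hell1 hG0.le
        linarith
      have g7 : 1357472 * (ell * G) ≤ ell ^ 3 * (ell * G) := by
        refine mul_le_mul_of_nonneg_right ?_ (by positivity)
        have g8 : ell ^ 1 ≤ ell ^ 3 := pow_le_pow_right₀ hell1 (by norm_num)
        rw [pow_one] at g8
        have g9 : (1357472 : ℝ) ≤ 10 ^ 12 := by norm_num
        linarith
      have g8 : ell ^ 3 * (ell * G) = ell ^ 4 * G := by ring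
      have g9 : 120 * (101 * ell) * (14 * G) = 169680 * (ell * G) := by ring
      nlinarith
    exact le_of_mul_le_mul_left g1 hα0
  have hX1 : 1 ≤ X := by
    have : 0 ≤ 120 * L * H2 := by positivity
    linarith
  refine ⟨i1, ?_, ?_⟩
  · have g1 : 1000 * X * L * (100 * ell ^ 2 * α) ≤ lam ^ 2 := by
      have g2 : 1000 * X * L * (100 * ell ^ 2 * α) ≤
          1000 * (3 * lam) * (101 * ell) * (100 * ell ^ 2 * (2 * ell ^ 6)) := by
        have : X ≤ 3 * lam := hX2.trans hw2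
        gcongr
      have g3 : 1000 * (3 * lam) * (101 * ell) * (100 * ell ^ 2 * (2 * ell ^ 6)) =
          60600000 * (ell ^ 9 * lam) := by ring
      have g4 : 60600000 * (ell ^ 9 * lam) ≤ ell * (ell ^ 9 * lam) :=
        mul_le_mul_of_nonneg_right (le_trans (by norm_num) h1) (by positivity)
      have g5 : ell * (ell ^ 9 * lam) = ell ^ 10 * lam := by ring
      have g6 : ell ^ 10 * lam ≤ lam * lam :=
        mul_le_mul_of_nonneg_right (le_trans (pow_le_pow_right₀ hell1 (by norm_num)) h2) hlam0.le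
      have g7 : lam * lam = lam ^ 2 := by ring
      linarith
    have g2 : 0 < 1000 * X * L * (100 * ell ^ 2 * α) := by positivity
    have g3 := Real.log_le_log g2 g1
    rw [Real.log_pow, ← hell] at g3
    push_cast at g3
    linarith
  · have g1 : 14000 * L ^ 2 * (100 * ell ^ 2 * α) * H2 = 1400000 * L ^ 2 * ell ^ 2 * (H2 * α) := by
      ring
    have g2 : 1400000 * L ^ 2 * ell ^ 2 * (H2 * α) ≤
        1400000 * (101 * ell) ^ 2 * ell ^ 2 * (14 * G) := by
      gcongr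
    have g3 : 1400000 * (101 * ell) ^ 2 * ell ^ 2 * (14 * G) = 199939600000 * (ell ^ 4 * G) := by
      ring
    have g4 : 10 ^ 12 * (ell ^ 4 * G) ≤ ell * (ell ^ 4 * G) :=
      mul_le_mul_of_nonneg_right h1 (by positivity)
    have g5 : ell * (ell ^ 4 * G) = lam := by
      rw [hGl]
      ring
    have g6 : 0 ≤ ell ^ 4 * G := by positivity
    rw [g1]
    linarith

private theorem ob_core {n k p q v w c₁ c₂ : ℕ} {lam ell : ℝ} (hlam : lam = Real.log n)
    (hell : ell = Real.log lam) (h1 : 10 ^ 12 ≤ ell) (h2 : ell ^ 30 ≤ lam)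
    (h3 : lam ^ 4 < Real.exp (lam / 2)) (hk : (k : ℝ) ≤ lam ^ 4) (hp : p.Prime) (hq : q.Prime)
    (hpq : p ≠ q) (hpk : p < k) (hqk : q < k) (hm₁ : n ≤ c₁ * p ^ v) (hm₁' : c₁ * p ^ v < n + k)
    (hm₂ : n ≤ c₂ * q ^ w) (hm₂' : c₂ * q ^ w < n + k)
    (hc₁ : (c₁ : ℝ) < Real.exp (lam / ell ^ 12)) (hc₂ : (c₂ : ℝ) < Real.exp (lam / ell ^ 12)) :
    False := by
  have hell1 : (1 : ℝ) ≤ ell := le_trans (by norm_num) h1
  have hell0 : 0 < ell := by linarith
  have hlam1 : (1 : ℝ) ≤ lam := le_trans (one_le_pow₀ hell1) h2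
  have hlam0 : 0 < lam := by linarith
  have hn0 : 0 < n := by
    rcases Nat.eq_zero_or_pos n with h | h
    · rw [h, Nat.cast_zero, Real.log_zero] at hlam
      linarith
    · exact h
  have hn0' : (0 : ℝ) < n := by exact_mod_cast hn0
  have hnexp : (n : ℝ) = Real.exp lam := by rw [hlam, Real.exp_log hn0']
  have hkn : (k : ℝ) ≤ n := by
    rw [hnexp]
    have h4 : Real.exp (lam / 2) ≤ Real.exp lam := Real.exp_le_exp.2 (by linarith)
    linarith
  obtain ⟨hc1, hlc1, hlp0, hlp, hv1, hv2, hlm1⟩ := ob_side hlam hell h1 h2 hkn hk hn0 hp hpk hm₁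
    hm₁' hc₁
  obtain ⟨hc2, hlc2, hlq0, hlq, hw1, hw2, hlm2⟩ := ob_side hlam hell h1 h2 hkn hk hn0 hq hqk hm₂
    hm₂' hc₂
  obtain ⟨M, hM1, hM2⟩ : ∃ M : ℕ, ell ^ 6 ≤ M ∧ (M : ℝ) ≤ 2 * ell ^ 6 := by
    refine ⟨⌈ell ^ 6⌉₊, Nat.le_ceil _, ?_⟩
    have h4 := Nat.ceil_lt_add_one (a := ell ^ 6) (by positivity)
    have h5 : (1 : ℝ) ≤ ell ^ 6 := one_le_pow₀ hell1
    linarith
  obtain ⟨L, hL1, hL2⟩ : ∃ L : ℕ, 100 * ell ≤ L ∧ (L : ℝ) ≤ 101 * ell := by
    refine ⟨⌈100 * ell⌉₊, Nat.le_ceil _, ?_⟩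
    have h4 := Nat.ceil_lt_add_one (a := 100 * ell) (by positivity)
    linarith
  have hM0' : (0 : ℝ) < M := lt_of_lt_of_le (by positivity) hM1
  have hM0 : 0 < M := by exact_mod_cast hM0'
  have hL0 : 1 ≤ L := by
    have h4 : (0 : ℝ) < L := lt_of_lt_of_le (by positivity) hL1
    exact_mod_cast h4
  have hw0 : (0 : ℝ) < w := lt_of_lt_of_le (by positivity) hw1
  have hv0 : (0 : ℝ) < v := lt_of_lt_of_le (by positivity) hv1
  obtain ⟨j, a, ha0, ha1, hd⟩ := Real.exists_int_int_abs_mul_sub_le ((v : ℝ) / w) hM0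
  have hx1 : 1 / (24 * ell) ≤ (v : ℝ) / w := by
    rw [div_le_div_iff₀ (by positivity) hw0]
    rw [div_le_iff₀ (by positivity)] at hv1
    linarith
  have hx2 : (v : ℝ) / w ≤ 24 * ell := by
    rw [div_le_iff₀ hw0]
    rw [div_le_iff₀ (by positivity)] at hw1
    linarith
  have hM24 : (1 : ℝ) / (M + 1) < 1 / (24 * ell) := by
    refine one_div_lt_one_div_of_lt (by positivity) ?_
    have h4 : 24 * ell ≤ ell * ell := mul_le_mul_of_nonneg_right (le_trans (by norm_num) h1) hell0.le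
    have h5 : ell * ell = ell ^ 2 := by ring
    have h6 : ell ^ 2 ≤ ell ^ 6 := pow_le_pow_right₀ hell1 (by norm_num)
    linarith
  have hM1' : (1 : ℝ) / (M + 1) ≤ 1 := by
    rw [div_le_one (by positivity)]
    linarith
  have ha0' : (1 : ℝ) ≤ a := by exact_mod_cast ha0
  obtain ⟨hd1, hd2⟩ := abs_le.1 hd
  have hx0 : (0 : ℝ) ≤ (v : ℝ) / w := by positivity
  have hj0 : 0 < j := by
    have h4 : 1 * ((v : ℝ) / w) ≤ a * ((v : ℝ) / w) := mul_le_mul_of_nonneg_right ha0' hx0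
    have h5 : (0 : ℝ) < j := by linarith
    exact_mod_cast h5
  have hj1 : (j : ℝ) ≤ 25 * ell * a := by
    have h4 : (a : ℝ) * ((v : ℝ) / w) ≤ a * (24 * ell) :=
      mul_le_mul_of_nonneg_left hx2 (by linarith)
    have h5 : 1 * 1 ≤ ell * (a : ℝ) := mul_le_mul hell1 ha0' (by norm_num) hell0.le
    linarith
  obtain ⟨α, rfl⟩ := Int.eq_ofNat_of_zero_le ha0.le
  obtain ⟨β, rfl⟩ := Int.eq_ofNat_of_zero_le hj0.le
  have hα0 : 0 < α := by exact_mod_cast ha0
  have hβ0 : 0 < β := by exact_mod_cast hj0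
  have hαM : α ≤ M := by exact_mod_cast ha1
  rw [Int.cast_natCast] at ha0'
  rw [Int.cast_natCast, Int.cast_natCast] at hj1 hd
  have hα0' : (0 : ℝ) < α := by linarith
  have hαM' : (α : ℝ) ≤ M := by exact_mod_cast hαM
  obtain ⟨X, hX⟩ : ∃ X, X = w / α := ⟨_, rfl⟩
  obtain ⟨w', hw'⟩ : ∃ w', w' = w % α := ⟨_, rfl⟩
  have hdiv : α * X + w' = w := by
    rw [hX, hw']
    exact Nat.div_add_mod w α
  have hw'α : w' < α := by
    rw [hw']
    exact Nat.mod_lt _ hα0
  have hdivR : (α : ℝ) * X + w' = w := by exact_mod_cast hdiv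
  have hw'R : (w' : ℝ) ≤ α := by exact_mod_cast hw'α.le
  have hw'0 : (0 : ℝ) ≤ w' := Nat.cast_nonneg _
  have hX0 : (0 : ℝ) ≤ X := Nat.cast_nonneg _
  have hXw : (X : ℝ) ≤ w := by
    have h4 : 1 * (X : ℝ) ≤ α * X := mul_le_mul_of_nonneg_right ha0' hX0
    linarith
  obtain ⟨n1, n2, n3⟩ := ob_num hell h1 h2 ha0' hαM' hM1 hM2 hL1 hL2 hw1 hw2
    (X := X) (by linarith) hXw
  obtain ⟨e, f, hef, he, hf⟩ := ob_int ((v : ℤ) - β * X)
  have hzc : (((v : ℤ) - β * X : ℤ) : ℝ) = (v : ℝ) - β * X := by push_cast; ring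
  rw [hzc] at hef he hf
  have hβα : (β : ℝ) ≤ 25 * ell * M :=
    hj1.trans (mul_le_mul_of_nonneg_left hαM' (by positivity))
  have habs : |(v : ℝ) - β * X| ≤ 3 * lam / (M * α) + 25 * ell * M := by
    have g1 : (α : ℝ) * ((v : ℝ) - β * X) = (α * ((v : ℝ) / w) - β) * w + β * w' := by
      have g2 : (α : ℝ) * ((v : ℝ) / w) * w = α * v := by
        field_simp
      rw [sub_mul, g2, ← hdivR]
      ring
    have g2 : α * |(v : ℝ) - β * X| ≤ 1 / (M + 1) * w + β * w' := by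
      have g3 : α * |(v : ℝ) - β * X| = |(α : ℝ) * ((v : ℝ) - β * X)| := by
        rw [abs_mul, abs_of_pos hα0']
      rw [g3, g1]
      refine (abs_add_le _ _).trans ?_
      rw [abs_mul, abs_of_pos hw0, abs_of_nonneg (by positivity : (0 : ℝ) ≤ β * w')]
      have g4 := mul_le_mul_of_nonneg_right hd hw0.le
      linarith
    have g3 : 1 / ((M : ℝ) + 1) * w ≤ 3 * lam / M := by
      have g4 : 1 / ((M : ℝ) + 1) ≤ 1 / M := one_div_le_one_div_of_le hM0' (by linarith)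
      calc 1 / ((M : ℝ) + 1) * w ≤ 1 / M * (3 * lam) := mul_le_mul g4 hw2 hw0.le (by positivity)
        _ = 3 * lam / M := by ring
    have g4 : (β : ℝ) * w' ≤ 25 * ell * M * α := mul_le_mul hβα hw'R hw'0 (by positivity)
    have g5 : (α : ℝ) * (3 * lam / (M * α) + 25 * ell * M) = 3 * lam / M + 25 * ell * M * α := by
      field_simp
    refine le_of_mul_le_mul_left ?_ hα0'
    rw [g5]
    linarith
  have hp1 : 1 ≤ p := hp.one_lt.le
  have hq1 : 1 ≤ q := hq.one_lt.le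
  have hp0' : (0 : ℝ) < p := by exact_mod_cast hp.pos
  have hq0' : (0 : ℝ) < q := by exact_mod_cast hq.pos
  have hc1' : (0 : ℝ) < c₁ := by exact_mod_cast hc1
  have hc2' : (0 : ℝ) < c₂ := by exact_mod_cast hc2
  have hne : p ^ β ≠ q ^ α := by
    intro h
    have h4 : p ∣ q ^ α := by
      rw [← h]
      exact dvd_pow_self p hβ0.ne'
    exact hpq ((Nat.prime_dvd_prime_iff_eq hp hq).1 (hp.dvd_of_dvd_pow h4))
  have la1 : Real.log ((p ^ β : ℕ) : ℝ) = β * Real.log p := by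
    push_cast
    rw [Real.log_pow]
  have lb1 : Real.log ((q ^ α : ℕ) : ℝ) = α * Real.log q := by
    push_cast
    rw [Real.log_pow]
  have la2 : Real.log ((c₂ * q ^ w' * p ^ f : ℕ) : ℝ) =
      Real.log c₂ + w' * Real.log q + f * Real.log p := by
    push_cast
    rw [Real.log_mul (by positivity) (by positivity), Real.log_mul (by positivity) (by positivity),
      Real.log_pow, Real.log_pow]
  have lb2 : Real.log ((c₁ * p ^ e : ℕ) : ℝ) = Real.log c₁ + e * Real.log p := by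
    push_cast
    rw [Real.log_mul (by positivity) (by positivity), Real.log_pow]
  have hvl : |(v : ℝ) - β * X| * Real.log p ≤ 12 * ell * lam / (M * α) + 100 * ell ^ 2 * M := by
    have g1 : |(v : ℝ) - β * X| * Real.log p ≤
        (3 * lam / (M * α) + 25 * ell * M) * (4 * ell) :=
      mul_le_mul habs hlp hlp0.le (by positivity)
    have g2 : (3 * lam / (M * α) + 25 * ell * M) * (4 * ell) =
        12 * ell * lam / (M * α) + 100 * ell ^ 2 * M := by
      ring
    linarith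
  have hwl : (w' : ℝ) * Real.log q ≤ 100 * ell ^ 2 * M := by
    have g1 : (w' : ℝ) * Real.log q ≤ M * (4 * ell) :=
      mul_le_mul (hw'R.trans hαM') hlq hlq0.le hM0'.le
    have g2 : (M : ℝ) * (4 * ell) * 1 ≤ M * (4 * ell) * (25 * ell) :=
      mul_le_mul_of_nonneg_left (by linarith) (by positivity)
    have g3 : (M : ℝ) * (4 * ell) * (25 * ell) = 100 * ell ^ 2 * M := by ring
    linarith
  have hfl : (f : ℝ) * Real.log p ≤ |(v : ℝ) - β * X| * Real.log p :=
    mul_le_mul_of_nonneg_right hf hlp0.le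
  have hel : (e : ℝ) * Real.log p ≤ |(v : ℝ) - β * X| * Real.log p :=
    mul_le_mul_of_nonneg_right he hlp0.le
  have hpos : 0 ≤ 100 * ell ^ 2 * M := by positivity
  have hH1a : (β : ℝ) * Real.log p ≤ 100 * ell ^ 2 * α := by
    have g1 : (β : ℝ) * Real.log p ≤ 25 * ell * α * (4 * ell) :=
      mul_le_mul hj1 hlp hlp0.le (by positivity)
    have g2 : 25 * ell * α * (4 * ell) = 100 * ell ^ 2 * α := by ring
    linarith
  have hH1b : (α : ℝ) * Real.log q ≤ 100 * ell ^ 2 * α := by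
    have g1 : (α : ℝ) * Real.log q ≤ α * (4 * ell) := mul_le_mul_of_nonneg_left hlq hα0'.le
    have g2 : (α : ℝ) * (4 * ell) * 1 ≤ α * (4 * ell) * (25 * ell) :=
      mul_le_mul_of_nonneg_left (by linarith) (by positivity)
    have g3 : (α : ℝ) * (4 * ell) * (25 * ell) = 100 * ell ^ 2 * α := by ring
    linarith
  have hH1 : (1 : ℝ) ≤ 100 * ell ^ 2 * α := by
    have g1 : (1 : ℝ) ≤ ell ^ 2 := one_le_pow₀ hell1
    have g2 : (1 : ℝ) * 1 ≤ ell ^ 2 * α := mul_le_mul g1 ha0' (by norm_num) (by positivity)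
    linarith
  have hH2 : (1 : ℝ) ≤ lam / ell ^ 12 + 12 * ell * lam / (M * α) + 200 * ell ^ 2 * M := by
    have g1 : (1 : ℝ) ≤ ell ^ 2 := one_le_pow₀ hell1
    have g2 : (1 : ℝ) ≤ M := by exact_mod_cast hM0
    have g3 : (1 : ℝ) * 1 ≤ ell ^ 2 * M := mul_le_mul g1 g2 (by norm_num) (by positivity)
    have g4 : 0 ≤ lam / ell ^ 12 := by positivity
    have g5 : 0 ≤ 12 * ell * lam / (M * α) := by positivity
    linarith
  have key := two_logs L X (p ^ β) (q ^ α) (c₂ * q ^ w' * p ^ f) (c₁ * p ^ e) hL0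
    (Nat.one_le_pow _ _ hp.pos) (Nat.one_le_pow _ _ hq.pos)
    (Nat.mul_pos (Nat.mul_pos hc2 (Nat.pow_pos hq.pos)) (Nat.pow_pos hp.pos))
    (Nat.mul_pos hc1 (Nat.pow_pos hp.pos)) hne (100 * ell ^ 2 * α)
    (lam / ell ^ 12 + 12 * ell * lam / (M * α) + 200 * ell ^ 2 * M) hH1 hH2
    (by rw [la1]; exact hH1a) (by rw [lb1]; exact hH1b) (by rw [la2]; linarith)
    (by rw [lb2]; linarith) n1 n2
  have hpa : ((p ^ β : ℕ) : ℝ) ≠ 0 := by positivity
  have hqa : ((q ^ α : ℕ) : ℝ) ≠ 0 := by positivity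
  have ha2 : ((c₂ * q ^ w' * p ^ f : ℕ) : ℝ) ≠ 0 := by positivity
  have hb2 : ((c₁ * p ^ e : ℕ) : ℝ) ≠ 0 := by positivity
  rw [Real.log_div hpa hqa, Real.log_div ha2 hb2, la1, lb1, la2, lb2] at key
  have hid : (X : ℝ) * (β * Real.log p - α * Real.log q) -
      (Real.log c₂ + w' * Real.log q + f * Real.log p - (Real.log c₁ + e * Real.log p)) =
      Real.log ((c₁ * p ^ v : ℕ) : ℝ) - Real.log ((c₂ * q ^ w : ℕ) : ℝ) := by
    rw [hlm1, hlm2, ← hdivR]
    have g1 : (v : ℝ) = e - f + β * X := by linarith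
    rw [g1]
    ring
  rw [hid] at key
  have hmm : ∀ m m' : ℕ, n ≤ m → m < n + k → n ≤ m' →
      Real.log (m : ℝ) - Real.log (m' : ℝ) ≤ k / n := by
    intro m m' g1 g2 g3
    have g1' : (n : ℝ) ≤ m := by exact_mod_cast g1
    have g2' : (m : ℝ) ≤ n + k := by exact_mod_cast g2.le
    have g3' : (n : ℝ) ≤ m' := by exact_mod_cast g3
    have g4 : Real.log (n : ℝ) ≤ Real.log (m' : ℝ) := Real.log_le_log hn0' g3'
    have g5 : Real.log (m : ℝ) - Real.log n = Real.log (m / n) :=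
      (Real.log_div (by linarith) hn0'.ne').symm
    have g6 : Real.log ((m : ℝ) / n) ≤ (m : ℝ) / n - 1 :=
      Real.log_le_sub_one_of_pos (div_pos (by linarith) hn0')
    have g7 : (m : ℝ) / n - 1 ≤ k / n := by
      rw [div_sub_one hn0'.ne']
      exact div_le_div_of_nonneg_right (by linarith) hn0'.le
    linarith
  have hup : |Real.log ((c₁ * p ^ v : ℕ) : ℝ) - Real.log ((c₂ * q ^ w : ℕ) : ℝ)| ≤ k / n := by
    rw [abs_le]
    have g1 := hmm _ _ hm₁ hm₁' hm₂
    have g2 := hmm _ _ hm₂ hm₂' hm₁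
    constructor <;> linarith
  have hfin : Real.exp (-(lam / 2)) ≤ k / n :=
    (Real.exp_le_exp.2 (by linarith)).trans (key.trans hup)
  rw [le_div_iff₀ hn0', hnexp, ← Real.exp_add] at hfin
  have g1 : -(lam / 2) + lam = lam / 2 := by ring
  rw [g1] at hfin
  linarith

theorem one_bad : ∀ᶠ n : ℕ in atTop, ∀ k p q v w c₁ c₂ : ℕ, (k : ℝ) ≤ (Real.log n) ^ 4 →
    p.Prime → q.Prime → p ≠ q → p < k → q < k →
    n ≤ c₁ * p ^ v → c₁ * p ^ v < n + k → n ≤ c₂ * q ^ w → c₂ * q ^ w < n + k →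
    (c₁ : ℝ) < Real.exp (Real.log n / (Real.log (Real.log n)) ^ 12) →
    (c₂ : ℝ) < Real.exp (Real.log n / (Real.log (Real.log n)) ^ 12) → False := by
  have t1 : Tendsto (fun n : ℕ => Real.log (n : ℝ)) atTop atTop :=
    Real.tendsto_log_atTop.comp tendsto_natCast_atTop_atTop
  have e1 : ∀ᶠ x : ℝ in atTop, 10 ^ 12 ≤ Real.log x :=
    Real.tendsto_log_atTop.eventually_ge_atTop _
  have e2 : ∀ᶠ x : ℝ in atTop, Real.log x ^ 30 ≤ x := by
    have h := (Real.isLittleO_pow_log_id_atTop (n := 30)).bound (c := 1) one_pos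
    filter_upwards [h, eventually_ge_atTop (1 : ℝ)] with x hx hx1
    rw [one_mul, Real.norm_eq_abs, Real.norm_eq_abs, id, abs_of_nonneg (by linarith : (0 : ℝ) ≤ x),
      abs_of_nonneg (pow_nonneg (Real.log_nonneg hx1) _)] at hx
    exact hx
  have e3 : ∀ᶠ x : ℝ in atTop, x ^ 4 < Real.exp (x / 2) := by
    have h : Tendsto (fun x : ℝ => Real.exp (x / 2) / (x / 2) ^ 4) atTop atTop :=
      (Real.tendsto_exp_div_pow_atTop 4).comp (tendsto_id.atTop_div_const (by norm_num))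
    filter_upwards [h.eventually_ge_atTop 17, eventually_gt_atTop (0 : ℝ)] with x hx hx0
    rw [le_div_iff₀ (by positivity)] at hx
    have h1 : 17 * (x / 2) ^ 4 = x ^ 4 + x ^ 4 / 16 := by ring
    have h2 : 0 < x ^ 4 / 16 := by positivity
    linarith
  filter_upwards [t1.eventually e1, t1.eventually e2, t1.eventually e3] with n h1 h2 h3
  intro k p q v w c₁ c₂ hk hp hq hpq hpk hqk hm₁ hm₁' hm₂ hm₂' hc₁ hc₂
  exact ob_core rfl rfl h1 h2 h3 hk hp hq hpq hpk hqk hm₁ hm₁' hm₂ hm₂' hc₁ hc₂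

end Pool.Agent.GTT
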