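import Pool.Agent.GTT.Zero

/-!
# GTT-Pick: a nonzero minor

The rows of the matrix `ent` are linearly independent by `zero_est`, so it has `K L` linearly
independent columns, and the corresponding square minor is not `0`.
-/

namespace Pool.Agent.GTT

private theorem exists_minor {N : ℕ} {C : Type*} [Fintype C] (M : Matrix (Fin N) C ℝ)
    (h : LinearIndependent ℝ M.row) :
    ∃ c : Fin N → C, (Matrix.of fun i j : Fin N => M i (c j)).det ≠ 0 := by
  have h1 : M.rank = N := by
    rw [h.rank_matrix, Fintype.card_fin]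
  rw [Matrix.rank_eq_finrank_span_cols] at h1
  obtain ⟨f, hf1, -, hf3⟩ := Submodule.exists_fun_fin_finrank_span_eq ℝ (Set.range M.col)
  choose g hg using hf1
  refine ⟨fun j => g (Fin.cast h1.symm j), ?_⟩
  have h2 : LinearIndependent ℝ
      (Matrix.of fun i j : Fin N => M i (g (Fin.cast h1.symm j))).col := by
    have h3 : (Matrix.of fun i j : Fin N => M i (g (Fin.cast h1.symm j))).col =
        f ∘ Fin.cast h1.symm := by
      ext j i
      rw [Function.comp_apply, ← hg]
      rfl
    rw [h3]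
    exact hf3.comp _ (Fin.cast_injective _)
  rw [Matrix.linearIndependent_cols_iff_isUnit, Matrix.isUnit_iff_isUnit_det] at h2
  exact h2.ne_zero

theorem pick (K L R2 S2 x : ℕ) (α₁ α₂ : ℝ) (h1 : 0 < α₁) (h1' : α₁ ≠ 1) (h2 : 0 < α₂)
    (hx : R2 ≤ x) (hKL : (K - 1) * L < R2 * S2) :
    ∃ (kk ll rr ss : Fin (K * L) → ℕ), (∀ i, kk i < K) ∧ (∀ i, ll i < L) ∧
      (∀ j, rr j < L + R2) ∧ (∀ j, ss j < S2) ∧
      (Matrix.of fun i j : Fin (K * L) => ent α₁ α₂ x (kk i) (ll i) (rr j) (ss j)).det ≠ 0 := by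
  obtain ⟨c, hc⟩ := exists_minor (N := K * L) (C := Fin (L + R2) × Fin S2)
    (Matrix.of fun i j => ent α₁ α₂ x (finProdFinEquiv.symm i).1 (finProdFinEquiv.symm i).2
      j.1 j.2) (by
    rw [Fintype.linearIndependent_iff]
    intro g hg
    have h3 := zero_est K L R2 S2 x α₁ α₂ h1 h1' h2 hx hKL
      (fun a l => if h : a < K ∧ l < L then g (finProdFinEquiv (⟨a, h.1⟩, ⟨l, h.2⟩)) else 0) (by
        intro r hr s hs
        have h4 := congrFun hg (⟨r, hr⟩, ⟨s, hs⟩)
        rw [Finset.sum_apply] at h4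
        rw [← Equiv.sum_comp finProdFinEquiv, Fintype.sum_prod_type] at h4
        rw [Pi.zero_apply] at h4
        rw [← h4, Finset.sum_range]
        refine Finset.sum_congr rfl fun a _ => ?_
        rw [Finset.sum_range]
        refine Finset.sum_congr rfl fun l _ => ?_
        rw [dif_pos ⟨a.2, l.2⟩]
        simp only [Matrix.row, Matrix.of_apply, Equiv.symm_apply_apply, Pi.smul_apply,
          smul_eq_mul])
    intro i
    have h5 := h3 (finProdFinEquiv.symm i).1 (finProdFinEquiv.symm i).1.2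
      (finProdFinEquiv.symm i).2 (finProdFinEquiv.symm i).2.2
    rw [dif_pos ⟨(finProdFinEquiv.symm i).1.2, (finProdFinEquiv.symm i).2.2⟩] at h5
    simpa only [Fin.eta, Prod.mk.eta, Equiv.apply_symm_apply] using h5)
  refine ⟨fun i => (finProdFinEquiv.symm i).1, fun i => (finProdFinEquiv.symm i).2,
    fun j => (c j).1, fun j => (c j).2, fun i => (finProdFinEquiv.symm i).1.2,
    fun i => (finProdFinEquiv.symm i).2.2, fun j => (c j).1.2, fun j => (c j).2.2, hc⟩

end Pool.Agent.GTT
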