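import Pool.Agent.GTT.TLCore

/-!
# GTT-TL: lower bound for two logarithms

The parameters of `tl_core` are `R2 = ⌈120 L H2⌉₊`, `S2 = 1 + ⌈120 L H1⌉₊`, `K = ⌈13000 L H1 H2⌉₊`.
-/

namespace Pool.Agent.GTT

private theorem tl_monomials {l h g : ℝ} (hl : 1 ≤ l) (hh : 1 ≤ h) (hg : 1 ≤ g) :
    1 ≤ l * h * g ∧ l * h ≤ l * h * g ∧ l * g ≤ l * h * g ∧ h ≤ l * h * g ∧ g ≤ l * h * g ∧
      l ≤ l * h * g ∧ 1 ≤ l * h ∧ l ≤ l * h := by
  have h1 : 1 ≤ l * h := one_le_mul_of_one_le_of_one_le hl hh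
  have h2 : l * h ≤ l * h * g := le_mul_of_one_le_right (by linarith) hg
  have h3 : l ≤ l * h := le_mul_of_one_le_right (by linarith) hh
  have h4 : h ≤ l * h := le_mul_of_one_le_left (by linarith) hl
  have h5 : l * g ≤ l * h * g := mul_le_mul_of_nonneg_right h3 (by linarith)
  have h6 : g ≤ l * g := le_mul_of_one_le_left (by linarith) hl
  exact ⟨h1.trans h2, h2, h5, h4.trans h2, h6.trans h5, h3.trans h2, h1, h3⟩

private theorem tl_term3 {l h g R S : ℝ} (hl : 1 ≤ l) (hh : 1 ≤ h) (hg : 1 ≤ g)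
    (hR : R ≤ 120 * (l * g) + 1) (hS : S ≤ 2 + 120 * (l * h)) :
    (Real.exp 1 + 1) * l * ((l + R) * h + S * (g + 1)) ≤ 1361 * (l * (l * h * g)) := by
  obtain ⟨m1, m2, m3, m4, m5, m6, m7, m8⟩ := tl_monomials hl hh hg
  have h1 : (l + R) * h ≤ 122 * (l * h * g) := by
    calc (l + R) * h ≤ (l + (120 * (l * g) + 1)) * h := by
          have : (0 : ℝ) ≤ h := by linarith
          gcongr
      _ = l * h + 120 * (l * h * g) + h := by ring
      _ ≤ 122 * (l * h * g) := by linarith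
  have h2 : S * (g + 1) ≤ 244 * (l * h * g) := by
    calc S * (g + 1) ≤ (2 + 120 * (l * h)) * (g + 1) := by
          have : (0 : ℝ) ≤ g + 1 := by linarith
          gcongr
      _ = 2 * g + 2 + 120 * (l * h * g) + 120 * (l * h) := by ring
      _ ≤ 244 * (l * h * g) := by linarith
  have h3 : (l + R) * h + S * (g + 1) ≤ 366 * (l * h * g) := by linarith
  have he : Real.exp 1 + 1 ≤ 3.7183 := by
    have := Real.exp_one_lt_d9
    linarith
  have he0 : 0 ≤ Real.exp 1 + 1 := by positivity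
  have hlP : 0 ≤ l * (l * h * g) := by positivity
  calc (Real.exp 1 + 1) * l * ((l + R) * h + S * (g + 1))
      ≤ (Real.exp 1 + 1) * l * (366 * (l * h * g)) := by
        have : (0 : ℝ) ≤ (Real.exp 1 + 1) * l := by positivity
        gcongr
    _ = (Real.exp 1 + 1) * (366 * (l * (l * h * g))) := by ring
    _ ≤ 3.7183 * (366 * (l * (l * h * g))) := by gcongr
    _ ≤ 1361 * (l * (l * h * g)) := by linarith

private theorem tl_arg {l h g R S x K : ℝ} (hl : 1 ≤ l) (hh : 1 ≤ h) (hg : 1 ≤ g)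
    (hR : R ≤ x) (hS : S ≤ 2 + 120 * (l * h)) (hK : K ≤ 13000 * (l * h * g) + 1)
    (hx : 120 * (l * g) + 1 ≤ x) :
    Real.exp 1 * ((l + R) + x * S) + K ≤ 1000 * x * l * h := by
  obtain ⟨m1, m2, m3, m4, m5, m6, m7, m8⟩ := tl_monomials hl hh hg
  have hg' : l ≤ l * g := le_mul_of_one_le_right (by linarith) hg
  have hlx : l ≤ x := by linarith
  have hx0 : 0 < x := by linarith
  have h1 : x * S ≤ 122 * (x * (l * h)) := by
    calc x * S ≤ x * (2 + 120 * (l * h)) := by gcongr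
      _ ≤ x * (122 * (l * h)) := by
        have : 2 + 120 * (l * h) ≤ 122 * (l * h) := by linarith
        gcongr
      _ = 122 * (x * (l * h)) := by ring
  have hxx : x ≤ x * (l * h) := le_mul_of_one_le_right hx0.le m7
  have h2 : (l + R) + x * S ≤ 124 * (x * (l * h)) := by linarith
  have h3 : K ≤ 110 * (x * (l * h)) := by
    have h4 : l * h * g * 120 ≤ x * h := by
      have h5 : (120 * (l * g)) * h ≤ x * h := by
        have : 120 * (l * g) ≤ x := by linarith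
        gcongr
      linarith
    have h6 : x * h ≤ x * (l * h) := by
      have : h ≤ l * h := le_mul_of_one_le_left (by linarith) hl
      gcongr
    linarith
  have he : Real.exp 1 ≤ 2.7183 := by
    have := Real.exp_one_lt_d9
    linarith
  have hpos : 0 ≤ x * (l * h) := by positivity
  calc Real.exp 1 * ((l + R) + x * S) + K ≤ Real.exp 1 * (124 * (x * (l * h))) + K := by
        have : 0 ≤ Real.exp 1 := (Real.exp_pos 1).le
        gcongr
    _ ≤ 2.7183 * (124 * (x * (l * h))) + K := by gcongr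
    _ ≤ 1000 * (x * (l * h)) := by linarith
    _ = 1000 * x * l * h := by ring

private theorem tl_log {y : ℝ} (hy : 13000 ≤ y) : Real.log y ≤ y / 100 := by
  have h1 : Real.log (y / 1024) ≤ y / 1024 - 1 := Real.log_le_sub_one_of_pos (by positivity)
  have h2 : Real.log (y / 1024) = Real.log y - 10 * Real.log 2 := by
    rw [Real.log_div (by positivity) (by norm_num), show (1024 : ℝ) = 2 ^ 10 by norm_num,
      Real.log_pow]
    norm_num
  have h3 := Real.log_two_lt_d9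
  rw [h2] at h1
  linarith

theorem two_logs (L x a₁ b₁ a₂ b₂ : ℕ) (hL : 1 ≤ L)
    (ha₁ : 1 ≤ a₁) (hb₁ : 1 ≤ b₁) (ha₂ : 1 ≤ a₂) (hb₂ : 1 ≤ b₂) (hne : a₁ ≠ b₁) (H1 H2 : ℝ)
    (h1 : 1 ≤ H1) (h2 : 1 ≤ H2)
    (hH1 : Real.log a₁ ≤ H1) (hH1' : Real.log b₁ ≤ H1) (hH2 : Real.log a₂ ≤ H2)
    (hH2' : Real.log b₂ ≤ H2) (hx : 120 * L * H2 + 1 ≤ x)
    (hLL : 8 * Real.log (1000 * x * L * H1) ≤ L) :
    Real.exp (-(14000 * (L : ℝ) ^ 2 * H1 * H2)) ≤
      |x * Real.log ((a₁ : ℝ) / b₁) - Real.log ((a₂ : ℝ) / b₂)| := by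
  have hl : (1 : ℝ) ≤ L := by exact_mod_cast hL
  obtain ⟨m1, m2, m3, m4, m5, m6, m7, m8⟩ := tl_monomials hl h1 h2
  obtain ⟨R2, hR2⟩ : ∃ R2 : ℕ, R2 = ⌈120 * ((L : ℝ) * H2)⌉₊ := ⟨_, rfl⟩
  obtain ⟨S2, hS2⟩ : ∃ S2 : ℕ, S2 = 1 + ⌈120 * ((L : ℝ) * H1)⌉₊ := ⟨_, rfl⟩
  obtain ⟨K, hKdef⟩ : ∃ K : ℕ, K = ⌈13000 * ((L : ℝ) * H1 * H2)⌉₊ := ⟨_, rfl⟩
  have hx' : 120 * ((L : ℝ) * H2) + 1 ≤ x := by linarith
  have hR2l : 120 * ((L : ℝ) * H2) ≤ R2 := by
    rw [hR2]
    exact Nat.le_ceil _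
  have hR2u : (R2 : ℝ) ≤ 120 * ((L : ℝ) * H2) + 1 := by
    rw [hR2]
    exact (Nat.ceil_lt_add_one (by positivity)).le
  have hS2l : 1 + 120 * ((L : ℝ) * H1) ≤ S2 := by
    rw [hS2]
    push_cast
    have := Nat.le_ceil (120 * ((L : ℝ) * H1))
    linarith
  have hS2u : (S2 : ℝ) ≤ 2 + 120 * ((L : ℝ) * H1) := by
    rw [hS2]
    push_cast
    have := (Nat.ceil_lt_add_one (show 0 ≤ 120 * ((L : ℝ) * H1) by positivity)).le
    linarith
  have hKl : 13000 * ((L : ℝ) * H1 * H2) ≤ K := by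
    rw [hKdef]
    exact Nat.le_ceil _
  have hKu : (K : ℝ) < 13000 * ((L : ℝ) * H1 * H2) + 1 := by
    rw [hKdef]
    exact Nat.ceil_lt_add_one (by positivity)
  have hK1 : 1 ≤ K := by
    have : (1 : ℝ) ≤ K := by linarith
    exact_mod_cast this
  have hS1 : 1 ≤ S2 := by omega
  have hRx : R2 ≤ x := by
    have : (R2 : ℝ) ≤ x := hR2u.trans hx'
    exact_mod_cast this
  have hKL : (K - 1) * L < R2 * S2 := by
    have h3 : (((K - 1) * L : ℕ) : ℝ) < ((R2 * S2 : ℕ) : ℝ) := by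
      push_cast [Nat.cast_sub hK1]
      have h4 : ((K : ℝ) - 1) * L < 13000 * ((L : ℝ) * H1 * H2) * L := by
        have h5 : (K : ℝ) - 1 < 13000 * ((L : ℝ) * H1 * H2) := by linarith
        have h6 : (0 : ℝ) < L := by linarith
        exact mul_lt_mul_of_pos_right h5 h6
      have h7 : 14400 * ((L : ℝ) * H1 * H2) * L ≤ (R2 : ℝ) * S2 := by
        calc 14400 * ((L : ℝ) * H1 * H2) * L = (120 * ((L : ℝ) * H2)) * (120 * ((L : ℝ) * H1)) := by
              ring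
          _ ≤ (R2 : ℝ) * S2 := by
              have h8 : 120 * ((L : ℝ) * H1) ≤ S2 := by linarith
              gcongr
      have h9 : 0 ≤ ((L : ℝ) * H1 * H2) * L := by positivity
      linarith
    exact_mod_cast h3
  have hKLb : 13000 * ((L : ℝ) * ((L : ℝ) * H1 * H2)) ≤ (K : ℝ) * L := by
    calc 13000 * ((L : ℝ) * ((L : ℝ) * H1 * H2)) = 13000 * ((L : ℝ) * H1 * H2) * L := by ring
      _ ≤ (K : ℝ) * L := by gcongr
  have hQ1 : 1 ≤ (L : ℝ) * ((L : ℝ) * H1 * H2) := one_le_mul_of_one_le_of_one_le hl m1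
  have hnum : Real.log (K * L) + K * Real.log (Real.exp 1 * ((L + R2 : ℕ) + x * S2) + K) +
      (Real.exp 1 + 1) * L * (((L + R2 : ℕ) : ℝ) * H1 + S2 * (H2 + 1)) + 1 <
        ((K : ℝ) * L - 1) / 2 := by
    push_cast
    have t3 := tl_term3 hl h1 h2 hR2u hS2u
    have t2 : Real.log (Real.exp 1 * (((L : ℝ) + R2) + x * S2) + K) ≤ L / 8 := by
      have h3 := tl_arg hl h1 h2 (by exact_mod_cast hRx : (R2 : ℝ) ≤ x) hS2u hKu.le hx'
      have h4 : 0 < Real.exp 1 * (((L : ℝ) + R2) + x * S2) + K := by positivity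
      have h5 := Real.log_le_log h4 h3
      linarith
    have t2' : (K : ℝ) * Real.log (Real.exp 1 * (((L : ℝ) + R2) + x * S2) + K) ≤ K * (L / 8) := by
      gcongr
    have t1 : Real.log ((K : ℝ) * L) ≤ (K : ℝ) * L / 100 := tl_log (by linarith)
    linarith
  have hcore := tl_core K L R2 S2 x a₁ b₁ a₂ b₂ hK1 hL hS1 ha₁ hb₁ ha₂ hb₂ hne H1 H2 hH1 hH1' hH2
    hH2' hRx hKL hnum
  refine le_trans ?_ hcore.le
  have hLS : (L : ℝ) * S2 ≤ Real.exp (L + S2) := by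
    rw [Real.exp_add]
    have h3 : (L : ℝ) ≤ Real.exp L := by
      have := Real.add_one_le_exp (L : ℝ)
      linarith
    have h4 : (S2 : ℝ) ≤ Real.exp S2 := by
      have := Real.add_one_le_exp (S2 : ℝ)
      linarith
    gcongr
  have hLS0 : 0 < (L : ℝ) * S2 := by positivity
  rw [le_div_iff₀ hLS0]
  calc Real.exp (-(14000 * (L : ℝ) ^ 2 * H1 * H2)) * ((L : ℝ) * S2)
      ≤ Real.exp (-(14000 * (L : ℝ) ^ 2 * H1 * H2)) * Real.exp (L + S2) := by gcongr
    _ = Real.exp (-(14000 * (L : ℝ) ^ 2 * H1 * H2) + (L + S2)) := by rw [← Real.exp_add]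
    _ ≤ Real.exp (-((K : ℝ) * L)) := by
        apply Real.exp_le_exp.2
        have h3 : (K : ℝ) * L ≤ (13000 * ((L : ℝ) * H1 * H2) + 1) * L := by gcongr
        have h4 : (L : ℝ) * ((L : ℝ) * H1 * H2) = (L : ℝ) ^ 2 * H1 * H2 := by ring
        have h5 : (L : ℝ) * H1 * H2 ≤ (L : ℝ) * ((L : ℝ) * H1 * H2) :=
          le_mul_of_one_le_left (by positivity) hl
        have h6 : (13000 * ((L : ℝ) * H1 * H2) + 1) * L =
            13000 * ((L : ℝ) * ((L : ℝ) * H1 * H2)) + L := by ring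
        have h7 : 14000 * (L : ℝ) ^ 2 * H1 * H2 = 14000 * ((L : ℝ) * ((L : ℝ) * H1 * H2)) := by ring
        rw [h7]
        rw [h6] at h3
        linarith

end Pool.Agent.GTT
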