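import Pool.Agent.GTT.DetUp
import Pool.Agent.GTT.DetLow
import Pool.Agent.GTT.Pick

/-!
# GTT-TLCore: two logarithms, with parameters

The interpolation determinant method: `pick` gives a nonzero determinant, `det_lower` and
`det_upper` compare its absolute value from both sides, and the numerical hypothesis excludes a
small value of the linear form.
-/

namespace Pool.Agent.GTT

private theorem tlc_num (N : ℕ) (hN1 : 1 ≤ N) (K : ℕ) (x L R S2 H1 H2 : ℝ) (hK : (1 : ℝ) ≤ K)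
    (hx : 0 ≤ x) (hL : 0 ≤ L) (hR : 0 ≤ R) (hS : 0 ≤ S2)
    (hnum : Real.log (N : ℝ) + K * Real.log (Real.exp 1 * (R + x * S2) + K) +
      (Real.exp 1 + 1) * L * (R * H1 + S2 * (H2 + 1)) + 1 < ((N : ℝ) - 1) / 2)
    (hle : Real.exp (-(N * (L * (R * H1 + S2 * H2)))) ≤
      N.factorial * Real.exp (-((N : ℝ) * (N - 1) / 2)) *
        ((Real.exp 1 * (R + x * S2) + K) ^ K *
          Real.exp (Real.exp 1 * L * (R * H1 + S2 * (H2 + 1)) + 1)) ^ N) : False := by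
  have hN : (1 : ℝ) ≤ (N : ℝ) := by exact_mod_cast hN1
  have hB : 0 < Real.exp 1 * (R + x * S2) + K := by positivity
  have hfac : (N.factorial : ℝ) ≤ (N : ℝ) ^ N := by
    exact_mod_cast Nat.factorial_le_pow N
  have hle2 : Real.exp (-(N * (L * (R * H1 + S2 * H2)))) ≤
      (N : ℝ) ^ N * Real.exp (-((N : ℝ) * (N - 1) / 2)) *
        ((Real.exp 1 * (R + x * S2) + K) ^ K *
          Real.exp (Real.exp 1 * L * (R * H1 + S2 * (H2 + 1)) + 1)) ^ N := by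
    refine hle.trans ?_
    refine mul_le_mul_of_nonneg_right ?_ (by positivity)
    exact mul_le_mul_of_nonneg_right hfac (Real.exp_pos _).le
  have hNpos : (0 : ℝ) < N := by linarith
  have hlog2 := Real.log_le_log (Real.exp_pos _) hle2
  rw [Real.log_exp, Real.log_mul (by positivity) (by positivity),
    Real.log_mul (by positivity) (by positivity), Real.log_pow, Real.log_pow, Real.log_exp,
    Real.log_mul (by positivity) (by positivity), Real.log_pow, Real.log_exp] at hlog2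
  generalize Real.log (Real.exp 1 * (R + x * S2) + K) = Y at hlog2 hnum
  generalize Real.log (N : ℝ) = X at hlog2 hnum
  have h5 : (N : ℝ) * (-(L * (R * H1 + S2 * H2))) ≤
      N * (X - (N - 1) / 2 + (K * Y + (Real.exp 1 * L * (R * H1 + S2 * (H2 + 1)) + 1))) := by
    have e1 : (N : ℝ) * (-(L * (R * H1 + S2 * H2))) = -(N * (L * (R * H1 + S2 * H2))) := by ring
    have e2 : (N : ℝ) * (X - (N - 1) / 2 +
        (K * Y + (Real.exp 1 * L * (R * H1 + S2 * (H2 + 1)) + 1))) =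
        N * X + -(N * (N - 1) / 2) +
          N * (K * Y + (Real.exp 1 * L * (R * H1 + S2 * (H2 + 1)) + 1)) := by ring
    rw [e1, e2]
    exact hlog2
  have h6 := le_of_mul_le_mul_left h5 hNpos
  have h7 : (L : ℝ) * (R * H1 + S2 * H2) ≤ L * (R * H1 + S2 * (H2 + 1)) := by
    refine mul_le_mul_of_nonneg_left ?_ (by positivity)
    nlinarith
  have h8 : (Real.exp 1 + 1) * L * (R * H1 + S2 * (H2 + 1)) =
      Real.exp 1 * L * (R * H1 + S2 * (H2 + 1)) + L * (R * H1 + S2 * (H2 + 1)) := by ring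
  rw [h8] at hnum
  linarith

theorem tl_core (K L R2 S2 x a₁ b₁ a₂ b₂ : ℕ) (hK : 1 ≤ K) (hL : 1 ≤ L) (hS : 1 ≤ S2)
    (ha₁ : 1 ≤ a₁) (hb₁ : 1 ≤ b₁) (ha₂ : 1 ≤ a₂) (hb₂ : 1 ≤ b₂) (hne : a₁ ≠ b₁) (H1 H2 : ℝ)
    (hH1 : Real.log a₁ ≤ H1) (hH1' : Real.log b₁ ≤ H1) (hH2 : Real.log a₂ ≤ H2)
    (hH2' : Real.log b₂ ≤ H2) (hx : R2 ≤ x) (hKL : (K - 1) * L < R2 * S2)
    (hnum : Real.log (K * L) + K * Real.log (Real.exp 1 * ((L + R2 : ℕ) + x * S2) + K) +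
      (Real.exp 1 + 1) * L * (((L + R2 : ℕ) : ℝ) * H1 + S2 * (H2 + 1)) + 1 <
        ((K : ℝ) * L - 1) / 2) :
    Real.exp (-((K : ℝ) * L)) / (L * S2) <
      |x * Real.log ((a₁ : ℝ) / b₁) - Real.log ((a₂ : ℝ) / b₂)| := by
  have ha₁' : (1 : ℝ) ≤ a₁ := by exact_mod_cast ha₁
  have hb₁' : (1 : ℝ) ≤ b₁ := by exact_mod_cast hb₁
  have ha₂' : (1 : ℝ) ≤ a₂ := by exact_mod_cast ha₂
  have hb₂' : (1 : ℝ) ≤ b₂ := by exact_mod_cast hb₂
  have hK' : (1 : ℝ) ≤ K := by exact_mod_cast hK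
  have hL' : (1 : ℝ) ≤ L := by exact_mod_cast hL
  have hS' : (1 : ℝ) ≤ S2 := by exact_mod_cast hS
  by_contra hcon
  rw [not_lt] at hcon
  have hα₁ : (0 : ℝ) < (a₁ : ℝ) / b₁ := by positivity
  have hα₂ : (0 : ℝ) < (a₂ : ℝ) / b₂ := by positivity
  have hα₁' : (a₁ : ℝ) / b₁ ≠ 1 := by
    intro h
    rw [div_eq_one_iff_eq (by positivity)] at h
    exact hne (by exact_mod_cast h)
  have hlog : ∀ (u v H : ℝ), 1 ≤ u → 1 ≤ v → Real.log u ≤ H → Real.log v ≤ H →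
      |Real.log (u / v)| ≤ H := by
    intro u v H hu hv h1 h2
    rw [Real.log_div (by positivity) (by positivity), abs_le]
    have h3 := Real.log_nonneg hu
    have h4 := Real.log_nonneg hv
    constructor <;> linarith
  obtain ⟨kk, ll, rr, ss, hk, hl, hr, hs, hdet⟩ :=
    pick K L R2 S2 x ((a₁ : ℝ) / b₁) ((a₂ : ℝ) / b₂) hα₁ hα₁' hα₂ hx hKL
  have hlow := det_lower (K * L) L (L + R2) S2 x kk ll rr ss hl hr hs a₁ b₁ a₂ b₂ ha₁ hb₁ ha₂ hb₂
    H1 H2 hH1' hH2' hdet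
  have hΛ : (L : ℝ) * S2 * |x * Real.log ((a₁ : ℝ) / b₁) - Real.log ((a₂ : ℝ) / b₂)| *
      Real.exp ((K * L : ℕ) : ℝ) ≤ 1 := by
    have h1 : (0 : ℝ) < L * S2 := by positivity
    rw [le_div_iff₀ h1] at hcon
    have h2 : (L : ℝ) * S2 * |x * Real.log ((a₁ : ℝ) / b₁) - Real.log ((a₂ : ℝ) / b₂)| ≤
        Real.exp (-((K : ℝ) * L)) := by
      calc (L : ℝ) * S2 * |x * Real.log ((a₁ : ℝ) / b₁) - Real.log ((a₂ : ℝ) / b₂)|
          = |x * Real.log ((a₁ : ℝ) / b₁) - Real.log ((a₂ : ℝ) / b₂)| * (L * S2) := by ring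
        _ ≤ _ := hcon
    calc (L : ℝ) * S2 * |x * Real.log ((a₁ : ℝ) / b₁) - Real.log ((a₂ : ℝ) / b₂)| *
        Real.exp ((K * L : ℕ) : ℝ)
        ≤ Real.exp (-((K : ℝ) * L)) * Real.exp ((K * L : ℕ) : ℝ) :=
          mul_le_mul_of_nonneg_right h2 (Real.exp_pos _).le
      _ = 1 := by
          rw [← Real.exp_add, Nat.cast_mul, neg_add_cancel, Real.exp_zero]
  have hup := det_upper (K * L) K L (L + R2) S2 x kk ll rr ss hk hl hr hs ((a₁ : ℝ) / b₁)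
    ((a₂ : ℝ) / b₂) hα₁ hα₂ H1 H2 (hlog _ _ _ ha₁' hb₁' hH1 hH1') (hlog _ _ _ ha₂' hb₂' hH2 hH2') hΛ
  have hle := hlow.trans hup
  have hN1 : 1 ≤ K * L := Nat.mul_pos hK hL
  have hNc : ((K * L : ℕ) : ℝ) = (K : ℝ) * L := by push_cast; ring
  rw [← hNc] at hnum
  exact tlc_num (K * L) hN1 K x L ((L + R2 : ℕ) : ℝ) S2 H1 H2 hK' (Nat.cast_nonneg _)
    (Nat.cast_nonneg _) (Nat.cast_nonneg _) (Nat.cast_nonneg _) hnum hle

end Pool.Agent.GTT
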