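import Pool.Agent.GTT.GVan

/-!
# GTT-Zero: zero estimate

If the exponential polynomial `∑ c a l C(X,a) (α₁^r α₂^s)^l`, `X = r + x s`, vanishes at all
`(r,s)` with `r < L + R2`, `s < S2` and `(K-1) L < R2 S2`, then all coefficients vanish.  The
determinant of the matrix `P_l(X+ρ) (α₁^ρ)^l` is a nonzero polynomial in `X` of degree at most
`(K-1) L` (leading coefficient: a generalised Vandermonde determinant, `gvan`) with `R2 S2` roots.
-/

namespace Pool.Agent.GTT

open Polynomial

/-- degree and top coefficient of a product -/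
private theorem prod_top {ι : Type*} [DecidableEq ι] (s : Finset ι) (f : ι → ℝ[X]) (d : ι → ℕ)
    (h : ∀ i ∈ s, (f i).natDegree ≤ d i) :
    (∏ i ∈ s, f i).natDegree ≤ ∑ i ∈ s, d i ∧
      (∏ i ∈ s, f i).coeff (∑ i ∈ s, d i) = ∏ i ∈ s, (f i).coeff (d i) := by
  induction s using Finset.induction_on with
  | empty => simp
  | insert a s ha ih =>
    have hs := ih (fun i hi => h i (Finset.mem_insert_of_mem hi))
    have h1 := h a (Finset.mem_insert_self a s)
    rw [Finset.prod_insert ha, Finset.sum_insert ha, Finset.prod_insert ha]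
    refine ⟨?_, ?_⟩
    · exact le_trans natDegree_mul_le (Nat.add_le_add h1 hs.1)
    · rw [coeff_mul_add_eq_of_natDegree_le h1 hs.1, hs.2]

/-- the polynomial `∑ c a l C(X,a)` -/
private noncomputable def PP (K : ℕ) (c : ℕ → ℕ → ℝ) (l : ℕ) : ℝ[X] :=
  ∑ a ∈ Finset.range K, C (c a l / (a.factorial : ℝ)) * descPochhammer ℝ a

private theorem PP_eval (K : ℕ) (c : ℕ → ℕ → ℝ) (l n : ℕ) :
    (PP K c l).eval (n : ℝ) = ∑ a ∈ Finset.range K, c a l * (n.choose a : ℝ) := by
  unfold PP
  rw [eval_finsetSum]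
  refine Finset.sum_congr rfl fun a _ => ?_
  rw [eval_mul, eval_C, Nat.cast_choose_eq_descPochhammer_div]
  ring

private theorem PP_natDegree (K : ℕ) (c : ℕ → ℕ → ℝ) (l : ℕ) :
    (PP K c l).natDegree ≤ K - 1 := by
  unfold PP
  refine natDegree_sum_le_of_forall_le _ _ fun a ha => ?_
  refine le_trans (natDegree_C_mul_le _ _) ?_
  rw [descPochhammer_natDegree]
  have := Finset.mem_range.mp ha
  omega

private theorem PP_zero (K : ℕ) (c : ℕ → ℕ → ℝ) (l : ℕ) (h : PP K c l = 0) :
    ∀ a < K, c a l = 0 := by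
  intro a
  induction a using Nat.strong_induction_on with
  | _ a ih =>
    intro ha
    have h1 := PP_eval K c l a
    rw [h, eval_zero] at h1
    rw [Finset.sum_eq_single a] at h1
    · simpa using h1.symm
    · intro b hb hba
      rcases lt_or_gt_of_ne hba with h2 | h2
      · rw [ih b h2 (Finset.mem_range.mp hb), zero_mul]
      · rw [Nat.choose_eq_zero_of_lt h2]; simp
    · intro hn
      exact absurd (Finset.mem_range.mpr ha) hn

theorem zero_est (K L R2 S2 x : ℕ) (α₁ α₂ : ℝ) (h1 : 0 < α₁) (h1' : α₁ ≠ 1) (h2 : 0 < α₂)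
    (hx : R2 ≤ x) (hKL : (K - 1) * L < R2 * S2) (c : ℕ → ℕ → ℝ)
    (hc : ∀ r < L + R2, ∀ s < S2,
      ∑ a ∈ Finset.range K, ∑ l ∈ Finset.range L, c a l * ent α₁ α₂ x a l r s = 0) :
    ∀ a < K, ∀ l < L, c a l = 0 := by
  by_contra hcon
  push Not at hcon
  obtain ⟨a₀, ha₀, l₀, hl₀, hne⟩ := hcon
  classical
  set P : ℕ → ℝ[X] := PP K c with hP
  set I : Finset ℕ := (Finset.range L).filter (fun l => P l ≠ 0) with hI
  have hl₀I : l₀ ∈ I := by
    rw [hI, Finset.mem_filter]
    exact ⟨Finset.mem_range.mpr hl₀, fun h => hne (PP_zero K c l₀ h a₀ ha₀)⟩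
  set t := I.card with ht
  have htpos : 0 < t := Finset.card_pos.mpr ⟨l₀, hl₀I⟩
  have htL : t ≤ L := by
    calc t ≤ (Finset.range L).card := Finset.card_filter_le _ _
      _ = L := Finset.card_range L
  set e : Fin t → ℕ := fun j => I.orderEmbOfFin rfl j with he
  have he_inj : Function.Injective e := (I.orderEmbOfFin rfl).injective
  have heI : ∀ j, e j ∈ I := fun j => I.orderEmbOfFin_mem rfl j
  have hsum : ∀ f : ℕ → ℝ, (∀ l ∈ Finset.range L, l ∉ I → f l = 0) →
      ∑ l ∈ Finset.range L, f l = ∑ j : Fin t, f (e j) := by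
    intro f hf
    have hm : I = Finset.univ.map (I.orderEmbOfFin rfl).toEmbedding :=
      (Finset.map_orderEmbOfFin_univ I rfl).symm
    have hs : ∑ l ∈ I, f l = ∑ l ∈ Finset.range L, f l :=
      Finset.sum_subset (Finset.filter_subset _ _) hf
    rw [← hs]
    conv_lhs => rw [hm]
    rw [Finset.sum_map]
    rfl
  -- the polynomial matrix
  set A : Matrix (Fin t) (Fin t) ℝ[X] := Matrix.of fun ρ j =>
    (P (e j)).comp (X + C ((ρ : ℕ) : ℝ)) * C ((α₁ ^ (ρ : ℕ)) ^ e j) with hA
  have hroot : ∀ r < R2, ∀ s < S2, (A.det).eval ((r + x * s : ℕ) : ℝ) = 0 := by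
    intro r hr s hs
    have hmap : (A.det).eval ((r + x * s : ℕ) : ℝ) =
        ((evalRingHom ((r + x * s : ℕ) : ℝ)).mapMatrix A).det := by
      rw [← RingHom.map_det]; rfl
    rw [hmap]
    rw [← Matrix.exists_mulVec_eq_zero_iff]
    refine ⟨fun j => (α₁ ^ r * α₂ ^ s) ^ e j, ?_, ?_⟩
    · intro h0
      have := congrFun h0 ⟨0, htpos⟩
      have hp : 0 < (α₁ ^ r * α₂ ^ s) ^ e ⟨0, htpos⟩ := by positivity
      simp only [Pi.zero_apply] at this
      linarith
    · funext ρ
      have hρ : (ρ : ℕ) < L := lt_of_lt_of_le ρ.2 htL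
      have h0 := hc (r + ρ) (by omega) s hs
      rw [Finset.sum_comm] at h0
      have h3 : ∀ l : ℕ, ∑ a ∈ Finset.range K, c a l * ent α₁ α₂ x a l (r + ρ) s =
          (P l).eval (((r + ρ) + x * s : ℕ) : ℝ) * (α₁ ^ (r + ρ) * α₂ ^ s) ^ l := by
        intro l
        rw [hP, PP_eval, Finset.sum_mul]
        refine Finset.sum_congr rfl fun a _ => ?_
        unfold ent
        ring
      simp only [h3] at h0
      rw [hsum _ (by
        intro l hl hlI
        have : P l = 0 := by
          by_contra hne'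
          exact hlI (by rw [hI, Finset.mem_filter]; exact ⟨hl, hne'⟩)
        rw [this, eval_zero, zero_mul])] at h0
      rw [Matrix.mulVec, dotProduct, Pi.zero_apply, ← h0]
      refine Finset.sum_congr rfl fun j _ => ?_
      simp only [RingHom.mapMatrix_apply, Matrix.map_apply, hA, Matrix.of_apply,
        coe_evalRingHom, eval_mul, eval_comp, eval_add, eval_X, eval_C]
      have e1 : (((r + x * s : ℕ) : ℝ) + ((ρ : ℕ) : ℝ)) = (((r + ρ) + x * s : ℕ) : ℝ) := by
        push_cast; ring
      rw [e1, mul_assoc, ← mul_pow]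
      have e2 : α₁ ^ (ρ : ℕ) * (α₁ ^ r * α₂ ^ s) = α₁ ^ (r + (ρ : ℕ)) * α₂ ^ s := by
        rw [pow_add]; ring
      rw [e2]
  -- degree and leading coefficient
  set d : Fin t → ℕ := fun j => (P (e j)).natDegree with hd
  have hdK : ∀ j, d j ≤ K - 1 := fun j => PP_natDegree K c (e j)
  have hAdeg : ∀ ρ j, (A ρ j).natDegree ≤ d j := by
    intro ρ j
    simp only [hA, Matrix.of_apply]
    refine le_trans (natDegree_mul_C_le _ _) ?_
    rw [natDegree_comp, natDegree_X_add_C, mul_one]
  have hAcoeff : ∀ ρ j, (A ρ j).coeff (d j) =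
      (P (e j)).leadingCoeff * (α₁ ^ (ρ : ℕ)) ^ e j := by
    intro ρ j
    simp only [hA, Matrix.of_apply]
    rw [coeff_mul_C]
    congr 1
    have h5 : ((P (e j)).comp (X + C ((ρ : ℕ) : ℝ))).natDegree = d j := by
      rw [natDegree_comp, natDegree_X_add_C, mul_one]
    rw [← h5, coeff_natDegree, leadingCoeff_comp (by rw [natDegree_X_add_C]; exact one_ne_zero),
      leadingCoeff_X_add_C, one_pow, mul_one]
  have hdetdeg : A.det.natDegree ≤ ∑ j, d j := by
    rw [Matrix.det_apply]
    refine natDegree_sum_le_of_forall_le _ _ fun σ _ => ?_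
    refine le_trans (natDegree_smul_le _ _) ?_
    exact (prod_top Finset.univ (fun j => A (σ j) j) d (fun j _ => hAdeg _ _)).1
  have hdetcoeff : A.det.coeff (∑ j, d j) =
      (∏ j, (P (e j)).leadingCoeff) *
        (Matrix.of fun ρ j : Fin t => (α₁ ^ (ρ : ℕ)) ^ e j).det := by
    rw [Matrix.det_apply, Matrix.det_apply, finsetSum_coeff, Finset.mul_sum]
    refine Finset.sum_congr rfl fun σ _ => ?_
    rw [coeff_smul,
      (prod_top Finset.univ (fun j => A (σ j) j) d (fun j _ => hAdeg _ _)).2]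
    simp only [hAcoeff, Matrix.of_apply]
    rw [Finset.prod_mul_distrib, mul_smul_comm]
  have hdetne : A.det.coeff (∑ j, d j) ≠ 0 := by
    rw [hdetcoeff]
    refine mul_ne_zero ?_ ?_
    · rw [Finset.prod_ne_zero_iff]
      intro j _
      rw [Ne, leadingCoeff_eq_zero]
      exact (Finset.mem_filter.mp (heI j)).2
    · refine gvan t e he_inj (fun ρ => α₁ ^ (ρ : ℕ)) ?_ (fun i => pow_pos h1 _)
      intro i j hij
      exact Fin.ext (pow_right_injective₀ h1 h1' hij)
  have hdet0 : A.det ≠ 0 := by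
    intro h
    rw [h, coeff_zero] at hdetne
    exact hdetne rfl
  -- counting the roots
  set Z : Finset ℝ := ((Finset.range R2) ×ˢ (Finset.range S2)).image
    (fun p : ℕ × ℕ => ((p.1 + x * p.2 : ℕ) : ℝ)) with hZ
  have hZcard : Z.card = R2 * S2 := by
    rw [hZ, Finset.card_image_of_injOn, Finset.card_product, Finset.card_range,
      Finset.card_range]
    rintro ⟨r, s⟩ hrs ⟨r', s'⟩ hrs' heq
    simp only [Finset.coe_product, Set.mem_prod, Finset.coe_range, Set.mem_Iio] at hrs hrs'
    have heq' : r + x * s = r' + x * s' := by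
      have h6 : ((r + x * s : ℕ) : ℝ) = ((r' + x * s' : ℕ) : ℝ) := heq
      exact_mod_cast h6
    have hxr : r < x := lt_of_lt_of_le hrs.1 hx
    have hxr' : r' < x := lt_of_lt_of_le hrs'.1 hx
    have hr : r = r' := by
      have := congrArg (· % x) heq'
      simpa [Nat.add_mul_mod_self_left, Nat.mod_eq_of_lt hxr, Nat.mod_eq_of_lt hxr'] using this
    subst hr
    have hxpos : 0 < x := lt_of_le_of_lt (Nat.zero_le _) hxr
    have : x * s = x * s' := by omega
    have := Nat.eq_of_mul_eq_mul_left hxpos this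
    rw [this]
  have hZle : Z.card ≤ A.det.natDegree := by
    refine le_trans ?_ (card_roots' A.det)
    refine le_trans (Finset.card_le_card (t := A.det.roots.toFinset) ?_)
      (Multiset.toFinset_card_le _)
    intro y hy
    rw [hZ, Finset.mem_image] at hy
    obtain ⟨⟨r, s⟩, hrs, rfl⟩ := hy
    rw [Finset.mem_product, Finset.mem_range, Finset.mem_range] at hrs
    rw [Multiset.mem_toFinset, mem_roots hdet0]
    exact hroot r hrs.1 s hrs.2
  have hsumd : ∑ j, d j ≤ L * (K - 1) := by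
    calc ∑ j, d j ≤ ∑ _j : Fin t, (K - 1) := Finset.sum_le_sum fun j _ => hdK j
      _ = t * (K - 1) := by simp
      _ ≤ L * (K - 1) := Nat.mul_le_mul_right _ htL
  rw [hZcard] at hZle
  have : R2 * S2 ≤ L * (K - 1) := le_trans hZle (le_trans hdetdeg hsumd)
  rw [mul_comm L] at this
  omega

end Pool.Agent.GTT
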